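import Pool.Agent.Run7.h909.TT.Cyc

/-!
# Actions on square complexes and on products of two trees
-/

set_option autoImplicit false

namespace Run7.h909.TT

open SimpleGraph Run7.h909.TD
open Pool.Agent.Y110.FJ (ClosedE)
open Pool.Agent.Y462.SS (Closed)
open Pool.Agent.R684.FP (FbC)

section

variable {G V Θ : Type} [Group G] [MulAction G V] {T : SimpleGraph V} {F : Set (ℤ → V)}
  {τ : V → Θ} {δ : Θ → Θ → Bool}

/-- one homomorphism for finitely many vertices -/
theorem one_inj {C : ∀ (G : Type) [Group G], Prop} (hC : Closed C)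
    (h : ∀ x : V, ∃ (P : Type) (_ : Group P) (f : G →* P), C P ∧
      ∀ g : G, g • x = x → f g = 1 → g = 1) (B : Finset V) :
    ∃ (P : Type) (_ : Group P) (f : G →* P), C P ∧
      ∀ x ∈ B, ∀ g : G, g • x = x → f g = 1 → g = 1 := by
  classical
  induction B using Finset.induction_on with
  | empty => exact ⟨Multiplicative ℤ, inferInstance, 1, hC.int, fun x hx =>
      absurd hx (Finset.notMem_empty _)⟩
  | insert a B _ ih =>
    obtain ⟨P, _, f, hP, hf⟩ := ih
    obtain ⟨Q, _, k, hQ, hk⟩ := h a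
    refine ⟨P × Q, inferInstance, f.prod k, hC.prod P Q hP hQ, fun x hx => ?_⟩
    rcases Finset.mem_insert.1 hx with rfl | hx
    · exact fun g hg h1 => hk g hg (congrArg Prod.snd h1)
    · exact fun g hg h1 => hf x hx g hg (congrArg Prod.fst h1)

/-- **the theorem on square complexes** -/
theorem mainT {C : ∀ (G : Type) [Group G], Prop} (hC : ClosedE C) (hF : FbC C) (hcat : CatC C)
    (hv : VH T F τ δ) (hs : SC T F) (hA : Ac G T F) (ht : ∀ (g : G) (x : V), τ (g • x) = τ x)
    (h : ∀ x : V, ∃ (P : Type) (_ : Group P) (f : G →* P), C P ∧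
      ∀ g : G, g • x = x → f g = 1 → g = 1) : C G := by
  classical
  obtain ⟨o⟩ := hs.1.nonempty
  refine colJ hC.base hv.cx hA hs o fun i => ?_
  have hvi := vh_cover (vh_sub hv i) o
  have hsi := sc_cover (Cj hv.cx i) o
  have hAi := ac_cover (Aj hA i) o
  obtain ⟨P, _, f0, hP, hf0⟩ := one_inj hC.base h
    ({o} ∪ (i.2.1.image (fun e : V × V => e.1) ∪ i.2.1.image (fun e : V × V => e.2)))
  let f : Gam (Aj hA i) o →* P := f0.comp (prJ hA o i)
  have hfk : ∀ (z : KS (Sj T i) (Fj T F i) o) (γ : Gam (Aj hA i) o), γ • z = z → f γ = 1 →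
      γ = 1 := by
    intro z γ hγ hf
    have hr := KS_reach o z.2
    have hb : ∃ g : G, g • z.1.1 ∈ ({o} ∪ (i.2.1.image (fun e : V × V => e.1) ∪
        i.2.1.image (fun e : V × V => e.2)) : Finset V) := by
      rw [reachable_iff_reflTransGen] at hr
      generalize z.1.1 = x at hr
      induction hr with
      | refl => exact ⟨1, by rw [one_smul]; simp⟩
      | tail _ hbc _ =>
        obtain ⟨-, g, hg, h2⟩ := hbc
        refine ⟨g, Finset.mem_union_right _ ?_⟩
        rcases h2 with h2 | h2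
        · exact Finset.mem_union_right _ (Finset.mem_image.2 ⟨_, h2, rfl⟩)
        · exact Finset.mem_union_left _ (Finset.mem_image.2 ⟨_, h2, rfl⟩)
    obtain ⟨g, hg⟩ := hb
    have h1 : prJ hA o i γ • z.1.1 = z.1.1 := by
      have : prH (Aj hA i) o γ • z.1.1 = z.1.1 := by rw [← smulK_fst, hγ]
      exact this
    have h2 : g * prJ hA o i γ * g⁻¹ = 1 := by
      refine hf0 _ hg _ ?_ ?_
      · rw [mul_smul, mul_smul, inv_smul_smul, h1]
      · have h3 : f0 (prJ hA o i γ) = 1 := hf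
        rw [map_mul, map_mul, h3, mul_one, ← map_mul, mul_inv_cancel, map_one]
    have h4 : prJ hA o i γ = 1 := by
      have h5 : g * prJ hA o i γ = g := mul_inv_eq_one.1 h2
      exact mul_eq_left.1 h5
    refine stab_inj (Aj hA i) o hγ (one_smul _ z) ?_
    rw [map_one]
    exact Subtype.ext h4
  have hsub : ∀ (H : Subgroup (Gam (Aj hA i) o)) (κ : H →* Multiplicative ℤ),
      (∀ h : H, κ h = 1 → f (h : Gam (Aj hA i) o) = 1) → C H := by
    intro H κ hκ
    refine cyc (T := DK (Sj T i) (Fj T F i) o) (F := FK (Sj T i) (Fj T F i) o)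
      (τ := fun z => τ z.1.1) (δ := δ) (G := H) hC hF hcat hvi hsi
      ⟨fun g x y hxy => hAi.adj _ x y hxy, fun g φ hφ => hAi.face _ φ hφ⟩ ?_ κ ?_
    · intro g z
      show τ (g • z).1.1 = τ z.1.1
      have : (g • z).1.1 = prH (Aj hA i) o (g : Gam (Aj hA i) o) • z.1.1 := rfl
      rw [this]
      exact ht _ _
    · intro g z hg h1
      exact Subtype.ext (hfk z g hg (hκ g h1))
  refine Pool.Agent.Y529.FJ.t_ext C hC _ f.ker ?_ ?_ ?_
  · exact hsub f.ker 1 fun h _ => h.2
  · exact hC.base.of_injective _ P (QuotientGroup.kerLift f) (QuotientGroup.kerLift_injective f) hP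
  · intro g hg
    obtain ⟨κ, hκ⟩ := kap f.ker g hg
    exact hsub _ κ fun h hh => (hκ h).1 hh

end

/-! ### trees with types -/

/-- a tree with types -/
structure Ty {V : Type} (T : SimpleGraph V) (τ : V → Fin 3) : Prop where
  tree : T.IsTree
  adj : ∀ x y, T.Adj x y → τ x ≠ τ y
  low : ∀ x y, T.Adj x y → (∀ y', T.Adj x y' → τ y' = τ y → y' = y) ∨
    (∀ x', T.Adj y x' → τ x' = τ x → x' = x)

/-- the direction of an edge from the types of its ends -/
def dl (s t : Fin 3 × Fin 3) : Bool := decide (s.1 = t.1)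

section

variable {V1 V2 : Type} {T1 : SimpleGraph V1} {T2 : SimpleGraph V2} {τ1 : V1 → Fin 3}
  {τ2 : V2 → Fin 3}

theorem vh_prod (h1 : Ty T1 τ1) (h2 : Ty T2 τ2) :
    VH (T1 □ T2) (SqF T1 T2) (fun z => (τ1 z.1, τ2 z.2)) dl := by
  have hx := cx_prod h1.tree.isAcyclic h2.tree.isAcyclic
  constructor
  · exact hx.adj
  · exact fun φ hφ => hφ.1
  · exact hx.shift
  · exact hx.refl
  · exact hx.corner
  · intro φ hφ
    have a0 := boxProd_adj.1 (hφ.2 0)
    have am := boxProd_adj.1 (hφ.2 (-1))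
    rw [zero_add] at a0
    rw [neg_add_cancel] at am
    rcases link_type h1.tree.isAcyclic h2.tree.isAcyclic hφ with ⟨t1, t2, t3, t4⟩ |
      ⟨t1, t2, t3, t4⟩
    · have e1 : T1.Adj (φ 0).1 (φ 1).1 := by
        rcases a0 with a0 | a0
        · exact a0.1
        · exact absurd t1 a0.1.ne
      have e2 : dl (τ1 (φ 0).1, τ2 (φ 0).2) (τ1 (φ 1).1, τ2 (φ 1).2) = false :=
        decide_eq_false (h1.adj _ _ e1)
      have e3 : dl (τ1 (φ 0).1, τ2 (φ 0).2) (τ1 (φ (-1)).1, τ2 (φ (-1)).2) = true :=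
        decide_eq_true (by rw [t2])
      show dl _ _ ≠ dl _ _
      rw [e2, e3]
      decide
    · have e1 : T1.Adj (φ (-1)).1 (φ 0).1 := by
        rcases am with am | am
        · exact am.1
        · exact absurd t2 am.1.ne
      have e2 : dl (τ1 (φ 0).1, τ2 (φ 0).2) (τ1 (φ 1).1, τ2 (φ 1).2) = true :=
        decide_eq_true (by rw [t1])
      have e3 : dl (τ1 (φ 0).1, τ2 (φ 0).2) (τ1 (φ (-1)).1, τ2 (φ (-1)).2) = false :=
        decide_eq_false (fun e => h1.adj _ _ e1 e.symm)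
      show dl _ _ ≠ dl _ _
      rw [e2, e3]
      decide
  · intro x y hxy he
    rcases boxProd_adj.1 hxy with ⟨ha, -⟩ | ⟨ha, -⟩
    · exact h1.adj _ _ ha (congrArg Prod.fst he)
    · exact h2.adj _ _ ha (congrArg Prod.snd he)
  · intro φ hφ he
    have a0 := boxProd_adj.1 (hφ.2 0)
    have am := boxProd_adj.1 (hφ.2 (-1))
    rw [zero_add] at a0
    rw [neg_add_cancel] at am
    rcases link_type h1.tree.isAcyclic h2.tree.isAcyclic hφ with ⟨t1, t2, t3, t4⟩ |
      ⟨t1, t2, t3, t4⟩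
    · have e1 : T1.Adj (φ 0).1 (φ 1).1 := by
        rcases a0 with a0 | a0
        · exact a0.1
        · exact absurd t1 a0.1.ne
      refine h1.adj _ _ e1 ?_
      have := congrArg Prod.fst he
      rw [t4] at this
      exact this
    · have e1 : T1.Adj (φ (-1)).1 (φ 0).1 := by
        rcases am with am | am
        · exact am.1
        · exact absurd t2 am.1.ne
      refine h1.adj _ _ e1 ?_
      have := congrArg Prod.fst he
      rw [t4] at this
      exact this.symm
  · intro x y hxy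
    rcases boxProd_adj.1 hxy with ⟨ha, he⟩ | ⟨ha, he⟩
    · have key : ∀ x y : V1 × V2, T1.Adj x.1 y.1 → x.2 = y.2 →
          (∀ y', T1.Adj x.1 y' → τ1 y' = τ1 y.1 → y' = y.1) →
          ∀ y' : V1 × V2, (T1 □ T2).Adj x y' → (τ1 y'.1, τ2 y'.2) = (τ1 y.1, τ2 y.2) → y' = y := by
        intro x y ha he h3 y' hy' ht
        rcases boxProd_adj.1 hy' with ⟨hb, hb'⟩ | ⟨hb, hb'⟩
        · exact Prod.ext (h3 _ hb (congrArg Prod.fst ht)) (hb'.symm.trans he)
        · exfalso
          refine h1.adj _ _ ha ?_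
          rw [hb']
          exact congrArg Prod.fst ht
      rcases h1.low _ _ ha with h3 | h3
      · exact Or.inl (key x y ha he h3)
      · exact Or.inr (key y x ha.symm he.symm h3)
    · have key : ∀ x y : V1 × V2, T2.Adj x.2 y.2 → x.1 = y.1 →
          (∀ y', T2.Adj x.2 y' → τ2 y' = τ2 y.2 → y' = y.2) →
          ∀ y' : V1 × V2, (T1 □ T2).Adj x y' → (τ1 y'.1, τ2 y'.2) = (τ1 y.1, τ2 y.2) → y' = y := by
        intro x y ha he h3 y' hy' ht
        rcases boxProd_adj.1 hy' with ⟨hb, hb'⟩ | ⟨hb, hb'⟩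
        · exfalso
          refine h2.adj _ _ ha ?_
          rw [hb']
          exact congrArg Prod.snd ht
        · exact Prod.ext (hb'.symm.trans he) (h3 _ hb (congrArg Prod.snd ht))
      rcases h2.low _ _ ha with h3 | h3
      · exact Or.inl (key x y ha he h3)
      · exact Or.inr (key y x ha.symm he.symm h3)

/-- the theorem for trees with types -/
theorem typed {C : ∀ (G : Type) [Group G], Prop} (hC : ClosedE C) (hF : FbC C) (hcat : CatC C)
    {G : Type} [Group G] [MulAction G V1] [MulAction G V2] (h1 : Ty T1 τ1) (h2 : Ty T2 τ2)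
    (a1 : ∀ (g : G) (x y : V1), T1.Adj x y → T1.Adj (g • x) (g • y))
    (a2 : ∀ (g : G) (x y : V2), T2.Adj x y → T2.Adj (g • x) (g • y))
    (t1 : ∀ (g : G) (x : V1), τ1 (g • x) = τ1 x) (t2 : ∀ (g : G) (x : V2), τ2 (g • x) = τ2 x)
    (h : ∀ (x : V1) (y : V2), ∃ (P : Type) (_ : Group P) (f : G →* P), C P ∧
      ∀ g : G, g • x = x → g • y = y → f g = 1 → g = 1) : C G := by
  have hadj : ∀ (g : G) (x y : V1 × V2), (T1 □ T2).Adj x y → (T1 □ T2).Adj (g • x) (g • y) := by
    intro g x y hxy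
    rcases boxProd_adj.1 hxy with ⟨ha, he⟩ | ⟨ha, he⟩
    · refine boxProd_adj.2 (Or.inl ⟨a1 g _ _ ha, ?_⟩)
      show g • x.2 = g • y.2
      rw [he]
    · refine boxProd_adj.2 (Or.inr ⟨a2 g _ _ ha, ?_⟩)
      show g • x.1 = g • y.1
      rw [he]
  refine mainT (G := G) hC hF hcat (vh_prod h1 h2) (sc_prod h1.tree h2.tree) ⟨hadj, ?_⟩ ?_ ?_
  · intro g φ hφ
    exact ⟨Per.comp (fun x => g • x) (fun i j hij => smul_left_cancel g hij) hφ.1,
      fun i => hadj g _ _ (hφ.2 i)⟩
  · intro g x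
    exact Prod.ext (t1 g x.1) (t2 g x.2)
  · rintro ⟨x, y⟩
    obtain ⟨P, _, f, hP, hf⟩ := h x y
    exact ⟨P, inferInstance, f, hP, fun g hg => hf g (congrArg Prod.fst hg) (congrArg Prod.snd hg)⟩

end

end Run7.h909.TT
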