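import Pool.Agent.Run7.h909.TT.Mon
import Pool.Agent.Run7.h390.TP.Loc

/-!
# Inverting a prime element
-/

set_option autoImplicit false

namespace Run7.h909.TT

open Run7.h909.TD Run7.h909.GT Polynomial
open Pool.Agent.Y110.FJ (ClosedE)
open Pool.Agent.R684.FP (FbC)
open Pool.Agent.Run7.h390.TP (loc_deg)

section ord

variable {B : Type} [CommRing B] [IsDomain B]

open Classical in
/-- minus the order of vanishing along `f` -/
noncomputable def om (f : B) (b : B) : WithBot ℤ :=
  if b = 0 then ⊥ else ((-(multiplicity f b : ℤ) : ℤ) : WithBot ℤ)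

theorem om_zero (f : B) : om f 0 = ⊥ := if_pos rfl

theorem om_ne {f b : B} (hb : b ≠ 0) : om f b = ((-(multiplicity f b : ℤ) : ℤ) : WithBot ℤ) :=
  if_neg hb

theorem om_isDeg {f : B} (hf : Prime f) (hm : ∀ b : B, b ≠ 0 → FiniteMultiplicity f b) :
    IsDeg (om f) where
  bot b := by
    constructor
    · intro hb
      by_contra hne
      rw [om_ne hne] at hb
      exact WithBot.coe_ne_bot hb
    · rintro rfl
      exact om_zero f
  mul a b := by
    by_cases ha : a = 0
    · rw [ha, zero_mul, om_zero, WithBot.bot_add]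
    by_cases hb : b = 0
    · rw [hb, mul_zero, om_zero, WithBot.add_bot]
    rw [om_ne ha, om_ne hb, om_ne (mul_ne_zero ha hb),
      multiplicity_mul hf (hm _ (mul_ne_zero ha hb)), ← WithBot.coe_add]
    congr 1
    push_cast
    ring
  add a b := by
    by_cases hab : a + b = 0
    · rw [hab, om_zero]
      exact bot_le
    by_cases ha : a = 0
    · rw [ha, zero_add]
      exact le_max_right _ _
    by_cases hb : b = 0
    · rw [hb, add_zero]
      exact le_max_left _ _
    rw [om_ne ha, om_ne hb, om_ne hab, ← WithBot.coe_max, WithBot.coe_le_coe]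
    have h1 : min (multiplicity f a) (multiplicity f b) ≤ multiplicity f (a + b) := by
      rw [← (hm _ hab).pow_dvd_iff_le_multiplicity]
      exact dvd_add (pow_dvd_of_le_multiplicity (min_le_left _ _))
        (pow_dvd_of_le_multiplicity (min_le_right _ _))
    omega

/-- elements with a pole of bounded order -/
theorem pole {A : Type} [CommRing A] [Algebra B A] {f : B} (hf : Prime f)
    (hm : ∀ b : B, b ≠ 0 → FiniteMultiplicity f b) [IsLocalization.Away f A]
    {deg2 : A → WithBot ℤ} (h2 : IsDeg deg2) (h2' : ∀ b, deg2 (algebraMap B A b) = om f b)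
    (n : ℕ) (x : A) (hx2 : deg2 x ≤ n) : ∃ c : B, x * algebraMap B A f ^ n = algebraMap B A c := by
  have hM : Submonoid.powers f ≤ nonZeroDivisors B :=
    powers_le_nonZeroDivisors_of_noZeroDivisors hf.ne_zero
  have hdom : IsDomain A := IsLocalization.isDomain_of_le_nonZeroDivisors A hM
  have hinj : Function.Injective (algebraMap B A) := IsLocalization.injective A hM
  have hfn : algebraMap B A f ≠ 0 := fun e => hf.ne_zero (hinj (by rw [e, map_zero]))
  obtain ⟨m, b, hb⟩ := IsLocalization.Away.surj f x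
  rcases le_total m n with hmn | hmn
  · refine ⟨b * f ^ (n - m), ?_⟩
    rw [map_mul, ← hb, map_pow, mul_assoc, ← pow_add, Nat.add_sub_cancel' hmn]
  · by_cases hb0 : b = 0
    · refine ⟨0, ?_⟩
      rw [hb0, map_zero] at hb
      rcases mul_eq_zero.1 hb with hx | hx
      · rw [hx, zero_mul, map_zero]
      · exact absurd hx (pow_ne_zero m hfn)
    · have e1 := congrArg deg2 hb
      rw [h2.mul, ← map_pow, h2', h2', om_ne hb0, om_ne (pow_ne_zero m hf.ne_zero)] at e1
      have e2 : x ≠ 0 := by
        rintro rfl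
        rw [zero_mul] at hb
        exact hb0 (hinj (by rw [← hb, map_zero]))
      obtain ⟨y, hy⟩ := WithBot.ne_bot_iff_exists.1 (fun e => e2 ((h2.bot x).1 e))
      rw [← hy, ← WithBot.coe_add, WithBot.coe_inj] at e1
      have e3 : y ≤ n := by
        rw [← hy] at hx2
        exact_mod_cast hx2
      have e4 : m ≤ multiplicity f (f ^ m) := by
        rw [← (hm _ (pow_ne_zero m hf.ne_zero)).pow_dvd_iff_le_multiplicity]
      have e5 : f ^ (m - n) ∣ b := pow_dvd_of_le_multiplicity (by omega)
      obtain ⟨c, rfl⟩ := e5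
      refine ⟨c, ?_⟩
      rw [map_mul, map_pow] at hb
      apply mul_left_cancel₀ (pow_ne_zero (m - n) hfn)
      rw [← hb, mul_comm x, ← mul_assoc, ← pow_add, Nat.sub_add_cancel hmn, mul_comm]

end ord

variable {C : ∀ (G : Type) [Group G], Prop}

/-- **inverting a prime element of a ring that embeds in a polynomial ring** -/
theorem emb_away (hC : ClosedE C) (hF : FbC C) (hcat : CatC C)
    (hsol : ∀ (S : Type) [Group S], Group.IsSolvable S → C S)
    {B E A A0 : Type} [CommRing B] [IsDomain B] [CommRing E] [IsDomain E] [CommRing A]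
    [CommRing A0] [Nontrivial A0] [Algebra B A] (φ : B →+* E[X]) (hφ : Function.Injective φ)
    (f : B) (hf : Prime f) (hfd : 0 < (φ f).natDegree) [IsLocalization.Away f A] (ψ : A →+* A0)
    (hψ : ∀ x : B, ψ (algebraMap B A x) = 0 ↔ (φ x).coeff 0 = 0) (hA0 : C (GL (Fin 2) A0)) :
    C (GL (Fin 2) A) := by
  have hM : Submonoid.powers f ≤ nonZeroDivisors B :=
    powers_le_nonZeroDivisors_of_noZeroDivisors hf.ne_zero
  have hdom : IsDomain A := IsLocalization.isDomain_of_le_nonZeroDivisors A hM
  have hinj : Function.Injective (algebraMap B A) := IsLocalization.injective A hM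
  have hφ0 : ∀ {b : B}, b ≠ 0 → φ b ≠ 0 := fun hb e => hb ((map_eq_zero_iff φ hφ).1 e)
  have hm : ∀ b : B, b ≠ 0 → FiniteMultiplicity f b := by
    intro b hb
    refine ⟨(φ b).natDegree, fun h => ?_⟩
    obtain ⟨c, hc⟩ := h
    have hc0 : c ≠ 0 := fun e => hb (by rw [hc, e, mul_zero])
    have h1 : (φ b).natDegree = ((φ b).natDegree + 1) * (φ f).natDegree + (φ c).natDegree := by
      conv_lhs => rw [hc]
      rw [map_mul, map_pow, natDegree_mul (pow_ne_zero _ (hφ0 hf.ne_zero)) (hφ0 hc0),
        natDegree_pow]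
    have h2 : (φ b).natDegree + 1 ≤ ((φ b).natDegree + 1) * (φ f).natDegree :=
      Nat.le_mul_of_pos_right _ hfd
    omega
  obtain ⟨deg1, h1, h1'⟩ := loc_deg (A := A) (Submonoid.powers f) hM (poly_isDeg φ hφ)
  obtain ⟨deg2, h2, h2'⟩ := loc_deg (A := A) (Submonoid.powers f) hM (om_isDeg hf hm)
  have hcd : ∀ b : B, b ≠ 0 → deg1 (algebraMap B A b) = (((φ b).natDegree : ℤ) : WithBot ℤ) := by
    intro b hb
    rw [h1', Polynomial.degree_eq_natDegree (hφ0 hb)]
    rfl
  refine two_ring hC hF hcat hsol h1 h2 (RingHom.ker ψ) ?_ fun n => ?_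
  · exact hC.base.of_injective _ _ (Matrix.GeneralLinearGroup.map (RingHom.kerLift ψ))
      (map_inj _ (RingHom.kerLift_injective ψ)) hA0
  · refine ⟨n + n * (φ f).natDegree + 1, fun x hx hx1 hx2 => ?_⟩
    obtain ⟨k, hk⟩ : ∃ k, k = n + n * (φ f).natDegree + 1 := ⟨_, rfl⟩
    rw [← hk] at hx
    obtain ⟨c, hc⟩ := pole hf hm h2 h2' n x hx2
    -- the ideals
    have hunit : IsUnit (ψ (algebraMap B A f)) :=
      (IsLocalization.Away.algebraMap_isUnit f).map ψ
    have hI1 : RingHom.ker ψ ≤ (Ideal.comap φ (Ideal.span {(X : E[X])})).map (algebraMap B A) := by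
      intro y hy
      rw [IsLocalization.mem_map_algebraMap_iff (Submonoid.powers f)]
      obtain ⟨m, b, hb⟩ := IsLocalization.Away.surj f y
      refine ⟨⟨⟨b, ?_⟩, ⟨f ^ m, m, rfl⟩⟩, ?_⟩
      · rw [Ideal.mem_comap, Ideal.mem_span_singleton, Polynomial.X_dvd_iff, ← hψ, ← hb, map_mul,
          RingHom.mem_ker.1 hy, zero_mul]
      · show y * algebraMap B A (f ^ m) = algebraMap B A b
        rw [map_pow, hb]
    have hIk : x ∈ (Ideal.comap φ (Ideal.span {(X : E[X])} ^ k)).map (algebraMap B A) := by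
      have h3 := Ideal.pow_right_mono hI1 k hx
      rw [← Ideal.map_pow] at h3
      exact Ideal.map_mono (Ideal.le_comap_pow φ k) h3
    rw [IsLocalization.mem_map_algebraMap_iff (Submonoid.powers f)] at hIk
    obtain ⟨⟨⟨b, hb⟩, ⟨_, m, rfl⟩⟩, hbm⟩ := hIk
    rw [Ideal.mem_comap, Ideal.span_singleton_pow, Ideal.mem_span_singleton] at hb
    have hbm' : x * algebraMap B A (f ^ m) = algebraMap B A b := hbm
    have e1 : b * f ^ n = c * f ^ m := by
      apply hinj
      rw [map_mul, map_mul, ← hbm', ← hc, map_pow, map_pow]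
      ring
    have hXf : ¬ (X : E[X]) ∣ φ f ^ m := by
      intro h
      have h3 := Polynomial.prime_X.dvd_of_dvd_pow h
      rw [Polynomial.X_dvd_iff, ← hψ] at h3
      rw [h3] at hunit
      exact not_isUnit_zero hunit
    have e2 : (X : E[X]) ^ k ∣ φ c := by
      refine Polynomial.prime_X.pow_dvd_of_dvd_mul_right k hXf ?_
      rw [← map_pow, ← map_mul, ← e1, map_mul]
      exact hb.mul_right _
    by_contra hx0
    have hfn : algebraMap B A f ≠ 0 := fun e => hf.ne_zero (hinj (by rw [e, map_zero]))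
    have hc0 : c ≠ 0 := by
      rintro rfl
      rw [map_zero] at hc
      rcases mul_eq_zero.1 hc with h | h
      · exact hx0 h
      · exact pow_ne_zero n hfn h
    have e3 := Polynomial.natDegree_le_of_dvd e2 (hφ0 hc0)
    rw [Polynomial.natDegree_X_pow] at e3
    have e4 := congrArg deg1 hc
    rw [h1.mul, ← map_pow, hcd _ (pow_ne_zero n hf.ne_zero), hcd c hc0, map_pow,
      Polynomial.natDegree_pow] at e4
    obtain ⟨y, hy⟩ := WithBot.ne_bot_iff_exists.1 (fun e => hx0 ((h1.bot x).1 e))
    rw [← hy] at e4 hx1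
    rw [← WithBot.coe_add, WithBot.coe_inj] at e4
    have e5 : y ≤ n := by exact_mod_cast hx1
    push_cast at e4
    have e6 : ((φ c).natDegree : ℤ) ≤ n + n * (φ f).natDegree := by
      rw [← e4]
      omega
    have e7 : (φ c).natDegree ≤ n + n * (φ f).natDegree := by exact_mod_cast e6
    omega

end Run7.h909.TT
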