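import Pool.Agent.Run7.h909.TT.Defs

/-!
# Simply connected square complexes: flips of paths
-/

set_option autoImplicit false

namespace Run7.h909.TT

open SimpleGraph Run7.h909.TD
open Pool.Agent.H386R3.CC

section

variable {V Θ : Type} {T : SimpleGraph V} {F : Set (ℤ → V)} {τ : V → Θ} {δ : Θ → Θ → Bool}

/-- the classes of paths ending in `v` -/
abbrev Fb (S : SqS V) (v : V) : Type := {c : Om S // c.fin = v}

theorem step_back {S : SqS V} {c : Om S} {x : V} (h : c.fin = x) (y : V) :
    (c.step y).step x = c := by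
  subst h
  exact step_step y c

/-- a step is a bijection -/
noncomputable def stE (S : SqS V) (x y : V) : Fb S x ≃ Fb S y where
  toFun c := ⟨c.1.step y, fin_step y c.1⟩
  invFun c := ⟨c.1.step x, fin_step x c.1⟩
  left_inv c := Subtype.ext (step_back c.2 y)
  right_inv c := Subtype.ext (step_back c.2 x)

theorem stE_val (S : SqS V) (x y : V) (c : Fb S x) : (stE S x y c).1 = c.1.step y := rfl

/-- sections of the cover -/
theorem exists_section (h : VH T F τ δ) (hs : SC T F) (c0 : Om h.sqs) :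
    ∃ s : V → Om h.sqs, s c0.fin = c0 ∧ (∀ x, (s x).fin = x) ∧
      ∀ x y, T.Adj x y → (s x).step y = s y := by
  classical
  obtain ⟨o⟩ := hs.1.nonempty
  have hne : ∀ v : V, Nonempty (Fb h.sqs v ≃ Fb h.sqs o) := fun v => ⟨stE h.sqs v o⟩
  let t : ∀ v : V, Fb h.sqs v ≃ Fb h.sqs o := fun v => Classical.choice (hne v)
  let P : V → V → Equiv.Perm (Fb h.sqs o) := fun x y =>
    ((t x).symm.trans (stE h.sqs x y)).trans (t y)
  have hP : ∀ x y p, P x y p = t y (stE h.sqs x y ((t x).symm p)) := fun x y p => rfl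
  have hcoc : Coc T F (fun x y => (P x y)⁻¹) := by
    constructor
    · intro x y _
      rw [← mul_inv_rev, inv_eq_one]
      ext1 p
      rw [Equiv.Perm.mul_apply, hP, hP, Equiv.symm_apply_apply, Equiv.Perm.one_apply]
      have : stE h.sqs y x (stE h.sqs x y ((t x).symm p)) = (t x).symm p :=
        (stE h.sqs x y).left_inv _
      rw [this, Equiv.apply_symm_apply]
    · intro φ hφ n hn
      have hn4 : n = 4 := hn.unique (h.per φ hφ)
      subst hn4
      rw [wrap4, h.e4 hφ, ← mul_inv_rev, ← mul_inv_rev, ← mul_inv_rev, inv_eq_one]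
      ext1 p
      rw [Equiv.Perm.mul_apply, Equiv.Perm.mul_apply, Equiv.Perm.mul_apply, hP, hP, hP, hP,
        Equiv.symm_apply_apply, Equiv.symm_apply_apply, Equiv.symm_apply_apply,
        Equiv.Perm.one_apply]
      set q := (t (φ 0)).symm p with hq
      have e1 : stE h.sqs (φ 3) (φ 0) (stE h.sqs (φ 2) (φ 3) (stE h.sqs (φ 1) (φ 2)
          (stE h.sqs (φ 0) (φ 1) q))) = q := by
        refine Subtype.ext ?_
        show (((q.1.step (φ 1)).step (φ 2)).step (φ 3)).step (φ 0) = q.1
        have hsq : h.sqs.sq q.1.fin (φ 1) (φ 2) (φ 3) := by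
          rw [q.2]
          exact ⟨φ, hφ, rfl, rfl, rfl, rfl⟩
        rw [step_square q.1 hsq]
        rw [step_back (fin_step (φ 3) q.1) (φ 2)]
        exact step_back q.2 (φ 3)
      rw [e1, hq, Equiv.apply_symm_apply]
  obtain ⟨f, hf⟩ := hs.2 _ _ hcoc
  obtain ⟨p, hp⟩ : ∃ p, p = f c0.fin (t c0.fin ⟨c0, rfl⟩) := ⟨_, rfl⟩
  refine ⟨fun x => ((t x).symm ((f x)⁻¹ p)).1, ?_, fun x => ((t x).symm ((f x)⁻¹ p)).2, ?_⟩
  · show ((t c0.fin).symm ((f c0.fin)⁻¹ p)).1 = c0
    rw [hp, ← Equiv.Perm.mul_apply, inv_mul_cancel, Equiv.Perm.one_apply, Equiv.symm_apply_apply]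
  · intro x y hxy
    have h1 := hf x y hxy
    have h2 : P x y = (f y)⁻¹ * f x := by
      have h3 : P x y = ((P x y)⁻¹)⁻¹ := (inv_inv _).symm
      rw [h3]
      have h4 : (P x y)⁻¹ = (f x)⁻¹ * f y := h1
      rw [h4, mul_inv_rev, inv_inv]
    have h5 : P x y ((f x)⁻¹ p) = (f y)⁻¹ p := by
      rw [h2, Equiv.Perm.mul_apply, ← Equiv.Perm.mul_apply (f x), mul_inv_cancel,
        Equiv.Perm.one_apply]
    rw [hP] at h5
    have h6 : stE h.sqs x y ((t x).symm ((f x)⁻¹ p)) = (t y).symm ((f y)⁻¹ p) := by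
      rw [← h5, Equiv.symm_apply_apply]
    exact congrArg Subtype.val h6

theorem red_one (S : SqS V) (x : V) : Red S [x] := by
  intro Q hQ hb
  have h := hQ.length
  obtain ⟨R, hR⟩ := hb.del
  have h2 := hR.length
  simp at h
  omega

theorem sec_red (h : VH T F τ δ) {v : V} {s : V → Om h.sqs}
    (h0 : s v = Om.mk [v] ⟨red_one _ v, by simp⟩)
    (hst : ∀ x y, T.Adj x y → (s x).step y = s y) : ∀ (P : List V) (x : V)
    (hP : Red h.sqs (x :: P)), List.IsChain T.Adj (x :: P) → (x :: P).getLast? = some v →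
    s x = Om.mk (x :: P) ⟨hP, by simp⟩ := by
  intro P
  induction P with
  | nil =>
    intro x hP _ hl
    simp at hl
    subst hl
    exact h0
  | cons y P ih =>
    intro x hP hc hl
    have h1 := ih y hP.tail (List.isChain_cons_cons.1 hc).2 (by
      rwa [List.getLast?_cons_cons] at hl)
    rw [← hst y x (List.isChain_cons_cons.1 hc).1.symm, h1]
    exact step_asc _ hP

/-- the theory of flips applies to simply connected complexes -/
def VH.cat (h : VH T F τ δ) (hs : SC T F) : CatS V where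
  toSqS := h.sqs
  adj := T.Adj
  adj_symm := fun h => h.symm
  adj_ne := fun h => h.ne
  sq_adj := h.sq_adj
  conn := by
    intro x y
    have hr := hs.1.preconnected x y
    rw [reachable_iff_reflTransGen] at hr
    induction hr using Relation.ReflTransGen.head_induction_on with
    | refl => exact ⟨[y], List.isChain_singleton y, rfl, rfl⟩
    | @head a b hab _ ih =>
      obtain ⟨P, h1, h2, h3⟩ := ih
      cases P with
      | nil => simp at h2
      | cons c P =>
        simp at h2
        subst h2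
        exact ⟨a :: c :: P, List.isChain_cons_cons.2 ⟨hab, h1⟩, rfl, by
          rw [List.getLast?_cons_cons]; exact h3⟩
  sc := by
    intro P Q hP hQ hne hh hl rP rQ
    obtain ⟨x, P', rfl⟩ : ∃ x P', P = x :: P' := by
      cases P with
      | nil => exact absurd rfl hne
      | cons x P' => exact ⟨x, P', rfl⟩
    obtain ⟨Q', rfl⟩ : ∃ Q', Q = x :: Q' := by
      cases Q with
      | nil => simp at hh
      | cons y Q' => simp at hh; exact ⟨Q', by rw [hh]⟩
    obtain ⟨v, hv⟩ : ∃ v, (x :: P').getLast? = some v :=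
      ⟨_, List.getLast?_eq_some_getLast (by simp)⟩
    obtain ⟨s, h0, -, hst⟩ := exists_section h hs (Om.mk [v] ⟨red_one _ v, by simp⟩)
    have e1 := sec_red h h0 hst P' x rP hP hv
    have e2 := sec_red h h0 hst Q' x rQ hQ (by rw [← hl, hv]; rfl)
    exact Om.exact (e1.symm.trans e2)
  no4 := by
    rintro x a b c d ⟨p, h1⟩ ⟨q, h2⟩ - ⟨r, h3⟩ - -
    exact bool3 (h.sq_dir h1) (h.sq_dir h3) (h.sq_dir h2)

end

end Run7.h909.TT
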