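import Pool.Agent.Run7.h909.TT.Num

/-!
# Cocompact actions with cyclic stabilizers
-/

set_option autoImplicit false

namespace Run7.h909.TT

open SimpleGraph Run7.h909.TD
open Pool.Agent.Y110.FJ (ClosedE)
open Pool.Agent.Y462.SS (Closed)
open Pool.Agent.R684.FP (FbC)

section

variable {H V Θ : Type} [Group H] [MulAction H V] {T : SimpleGraph V} {F : Set (ℤ → V)}
  {τ : V → Θ} {δ : Θ → Θ → Bool} {f : H →* Multiplicative ℤ}

/-- the group generated by the elliptic elements whose values are divisible by `n` -/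
def Kn (V : Type) [MulAction H V] (f : H →* Multiplicative ℤ) (n : ℕ) : Subgroup H :=
  Subgroup.closure {h : H | (n : ℤ) ∣ vl f h ∧ ∃ x : V, h • x = x}

instance Kn_normal (n : ℕ) : (Kn V f n).Normal := by
  refine ⟨fun k hk g => ?_⟩
  have h1 : ∀ s ∈ {h : H | (n : ℤ) ∣ vl f h ∧ ∃ x : V, h • x = x},
      g * s * g⁻¹ ∈ {h : H | (n : ℤ) ∣ vl f h ∧ ∃ x : V, h • x = x} := by
    rintro s ⟨hs, x, hx⟩
    refine ⟨by rw [vl_conj]; exact hs, g • x, ?_⟩
    rw [mul_smul, mul_smul, inv_smul_smul, hx]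
  unfold Kn at hk ⊢
  induction hk using Subgroup.closure_induction with
  | mem x hx => exact Subgroup.subset_closure (h1 x hx)
  | one => simp
  | mul x y _ _ hx hy =>
    have : g * (x * y) * g⁻¹ = (g * x * g⁻¹) * (g * y * g⁻¹) := by group
    rw [this]
    exact Subgroup.mul_mem _ hx hy
  | inv x _ hx =>
    have : g * x⁻¹ * g⁻¹ = (g * x * g⁻¹)⁻¹ := by group
    rw [this]
    exact Subgroup.inv_mem _ hx

theorem Kn_dvd {n : ℕ} {k : H} (hk : k ∈ Kn V f n) : (n : ℤ) ∣ vl f k := by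
  unfold Kn at hk
  induction hk using Subgroup.closure_induction with
  | mem x hx => exact hx.1
  | one => simp [vl]
  | mul x y _ _ hx hy => rw [vl_mul]; exact dvd_add hx hy
  | inv x _ hx => rw [vl_inv]; exact (dvd_neg).2 hx

theorem mem_Kn {n : ℕ} {h : H} {x : V} (hx : h • x = x) (hd : (n : ℤ) ∣ vl f h) : h ∈ Kn V f n :=
  Subgroup.subset_closure ⟨hd, x, hx⟩

/-- the orbits of a subgroup -/
def osS (V : Type) [MulAction H V] (K : Subgroup H) : Setoid V where
  r x y := ∃ k : K, k • x = y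
  iseqv := by
    refine ⟨fun x => ⟨1, one_smul _ _⟩, ?_, ?_⟩
    · rintro x y ⟨k, rfl⟩
      exact ⟨k⁻¹, inv_smul_smul _ _⟩
    · rintro x y z ⟨k, rfl⟩ ⟨l, rfl⟩
      exact ⟨l * k, mul_smul _ _ _⟩

/-- the set of orbits -/
def Ob (V : Type) [MulAction H V] (K : Subgroup H) : Type := Quotient (osS V K)

/-- the projection -/
def qb (V : Type) [MulAction H V] (K : Subgroup H) (x : V) : Ob V K := Quotient.mk (osS V K) x

theorem orb_qb (K : Subgroup H) : Orb K (qb V K) := by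
  refine ⟨fun a => ?_, fun x y => ?_⟩
  · induction a using Quotient.inductionOn with
    | h x => exact ⟨x, rfl⟩
  · exact ⟨fun h => Quotient.exact h, fun h => Quotient.sound h⟩

/-- the action on the set of orbits of a normal subgroup -/
def actO (K : Subgroup H) [K.Normal] : H →* Equiv.Perm (Ob V K) := by
  have hsm : ∀ (h : H) (x y : V), (∃ k : K, k • x = y) → ∃ k : K, k • (h • x) = h • y := by
    rintro h x y ⟨k, rfl⟩
    refine ⟨⟨h * k * h⁻¹, Subgroup.Normal.conj_mem inferInstance _ k.2 h⟩, ?_⟩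
    show (h * (k : H) * h⁻¹) • h • x = h • (k : H) • x
    rw [mul_smul, mul_smul, inv_smul_smul]
  let m : H → Ob V K → Ob V K := fun h => Quotient.map' (s₁ := osS V K) (s₂ := osS V K)
    (fun x => h • x) (fun x y hxy => hsm h x y hxy)
  have hm : ∀ h x, m h (qb V K x) = qb V K (h • x) := fun h x => rfl
  have h1 : ∀ a, m 1 a = a := by
    intro a
    obtain ⟨x, rfl⟩ := (orb_qb K).surj a
    rw [hm, one_smul]
  have h2 : ∀ g h a, m (g * h) a = m g (m h a) := by
    intro g h a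
    obtain ⟨x, rfl⟩ := (orb_qb K).surj a
    rw [hm, hm, hm, mul_smul]
  exact {
    toFun := fun h => ⟨m h, m h⁻¹, fun a => by rw [← h2, inv_mul_cancel, h1],
      fun a => by rw [← h2, mul_inv_cancel, h1]⟩
    map_one' := Equiv.ext h1
    map_mul' := fun g h => Equiv.ext (h2 g h) }

theorem actO_apply (K : Subgroup H) [K.Normal] (h : H) (x : V) :
    actO (V := V) K h (qb V K x) = qb V K (h • x) := rfl

theorem actO_ker (K : Subgroup H) [K.Normal] : K ≤ (actO (V := V) K).ker := by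
  intro k hk
  refine Equiv.ext fun a => ?_
  obtain ⟨x, rfl⟩ := (orb_qb K).surj a
  rw [actO_apply]
  exact (((orb_qb K).eq _ _).2 ⟨⟨k, hk⟩, rfl⟩).symm

/-- the action of the quotient -/
@[reducible] noncomputable def actQ (K : Subgroup H) [K.Normal] : MulAction (H ⧸ K) (Ob V K) :=
  MulAction.compHom (Ob V K) (QuotientGroup.lift K (actO (V := V) K) (actO_ker K))

theorem actQ_mk (K : Subgroup H) [K.Normal] (h : H) (x : V) :
    (actQ (V := V) K).smul (QuotientGroup.mk h) (qb V K x) = qb V K (h • x) := rfl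

theorem Cc.dat (D : Cc H T F τ δ f) : ∃ n : ℕ, 0 < n ∧ ∃ τ' : Ob V (Kn V f n) → Θ,
    Dat (Kn V f n) T F τ δ (qb V (Kn V f n)) τ' := by
  obtain ⟨n, hn, h1, h2⟩ := D.exn
  refine ⟨n, hn, Quotient.lift (s := osS V (Kn V f n)) τ (by
    rintro x y ⟨k, rfl⟩
    exact (D.ht k x).symm), ?_⟩
  have hA : Ac (Kn V f n) T F := ⟨fun k x y h => D.ac.adj k x y h, fun k φ h => D.ac.face k φ h⟩
  have ht : ∀ (k : Kn V f n) (x : V), τ (k • x) = τ x := fun k x => D.ht k x
  have hc : Cor (Kn V f n) F := by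
    intro φ hφ ψ hψ z a0 a1 a2 a3
    have b1 := D.vh.adj φ hφ 0
    have b2 := (D.vh.adj φ hφ (-1)).symm
    rw [zero_add] at b1
    rw [neg_add_cancel] at b2
    by_cases h3 : ∃ g : H, g ≠ 1 ∧ g • φ 0 = φ 0 ∧ g • φ 1 = φ 1
    · exact ⟨z, a2, h1 _ _ b1 h3 z a2 (Kn_dvd z.2), a3⟩
    · by_cases h4 : ∃ g : H, g ≠ 1 ∧ g • φ 0 = φ 0 ∧ g • φ (-1) = φ (-1)
      · refine ⟨1, one_smul _ _, one_smul _ _, ?_⟩
        rw [one_smul, ← a3]
        exact (h1 _ _ b2 h4 z a2 (Kn_dvd z.2)).symm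
      · push Not at h3 h4
        have h5 : (z : H) = 1 := h2 φ hφ
          (fun g c1 c2 => by_contra fun hg => h3 g hg c1 c2)
          (fun g c1 c2 => by_contra fun hg => h4 g hg c1 c2) ψ hψ a0 a1 z a2 a3 (Kn_dvd z.2)
        have h6 : z = 1 := Subtype.ext h5
        refine ⟨1, one_smul _ _, one_smul _ _, ?_⟩
        rw [← a3, h6]
  have hgen : Subgroup.closure {k : Kn V f n | ∃ x : V, k • x = x} = ⊤ := by
    rw [eq_top_iff]
    have h3 := Subgroup.closure_closure_coe_preimage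
      (k := {h : H | (n : ℤ) ∣ vl f h ∧ ∃ x : V, h • x = x})
    have h4 : (⊤ : Subgroup (Kn V f n)) = Subgroup.closure
      ((fun k : Kn V f n => (k : H)) ⁻¹' {h : H | (n : ℤ) ∣ vl f h ∧ ∃ x : V, h • x = x}) :=
      h3.symm
    rw [h4]
    refine Subgroup.closure_mono ?_
    rintro k ⟨-, x, hx⟩
    exact ⟨x, hx⟩
  exact {
    vh := D.vh
    ac := hA
    ht := ht
    hq := orb_qb _
    cor := hc
    vh' := vh_quot D.vh hA ht (orb_qb _) hc fun x => rfl
    sc' := sc_quot D.vh hA ht (orb_qb _) D.sc hgen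
    fx := by
      rintro x y hxy ⟨k, hk, h3, h4⟩ z hz
      exact h1 x y hxy ⟨k, fun h => hk (Subtype.ext h), h3, h4⟩ z hz (Kn_dvd z.2) }

theorem Cc.free (D : Cc H T F τ δ f) {n : ℕ} {τ' : Ob V (Kn V f n) → Θ}
    (E : Dat (Kn V f n) T F τ δ (qb V (Kn V f n)) τ') :
    IsFreeGroup ↥(Kn V f n ⊓ f.ker) := by
  obtain ⟨o⟩ := D.sc.1.nonempty
  refine Pool.Agent.H40R2.Zd.free_of_tree _ (E.tree D.sc (qb V _ o)) ?_ ?_ ?_
  · intro γ u v h
    exact E.tr_adj _ (⟨γ, γ.2.1⟩ : Kn V f n) h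
  · intro γ v hv
    exact Subtype.ext (D.inj γ v hv γ.2.2)
  · rintro γ u v h ⟨h1, -⟩
    refine D.vh.adjt u v h.1 ?_
    rw [← h1]
    exact (D.ht γ u).symm

end

end Run7.h909.TT
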