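import Pool.Agent.Run7.h909.TT.Coc2

/-!
# A group acting on a simply connected complex as a directed colimit of groups acting with finitely many
# orbits of edges and faces
-/

set_option autoImplicit false

namespace Run7.h909.TT

open SimpleGraph Run7.h909.TD
open Pool.Agent.Y462.SS (Closed)

/-! ### the directed system -/

section

variable {G V : Type} [Group G] [MulAction G V] (T : SimpleGraph V) (F : Set (ℤ → V))

/-- the index set -/
abbrev Jx (G V : Type) : Type := Finset G × Finset (V × V) × Finset (ℤ → V)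

/-- the subgroup -/
def Hj (i : Jx G V) : Subgroup G := Subgroup.closure (i.1 : Set G)

/-- the subgraph -/
def Sj (i : Jx G V) : SimpleGraph V where
  Adj x y := T.Adj x y ∧ ∃ g ∈ Hj i, (g • x, g • y) ∈ i.2.1 ∨ (g • y, g • x) ∈ i.2.1
  symm := ⟨fun x y ⟨h, g, hg, h'⟩ => ⟨h.symm, g, hg, h'.symm⟩⟩
  loopless := ⟨fun _ h => T.loopless.irrefl _ h.1⟩

/-- the faces -/
def Fj (i : Jx G V) : Set (ℤ → V) :=
  {φ | φ ∈ F ∧ (∀ k : ℤ, (Sj T i).Adj (φ k) (φ (k + 1))) ∧ ∃ g ∈ Hj i, ∃ ψ ∈ i.2.2, ∃ r : ℤ,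
    (∀ k, g • φ k = ψ (k + r)) ∨ ∀ k, g • φ k = ψ (-k + r)}

variable {T F}

theorem Hj_mono {i j : Jx G V} (h : i ≤ j) : Hj (V := V) i ≤ Hj j :=
  Subgroup.closure_mono (Finset.coe_subset.2 h.1)

theorem Sj_mono {i j : Jx G V} (h : i ≤ j) : Sj T i ≤ Sj T j := by
  rintro x y ⟨h1, g, hg, h2⟩
  exact ⟨h1, g, Hj_mono h hg, h2.imp (fun h3 => h.2.1 h3) (fun h3 => h.2.1 h3)⟩

theorem Fj_mono {i j : Jx G V} (h : i ≤ j) : Fj T F i ⊆ Fj T F j :=
  fun _ ⟨h1, h2, g, hg, ψ, hψ, h3⟩ =>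
    ⟨h1, fun k => Sj_mono h (h2 k), g, Hj_mono h hg, ψ, h.2.2 hψ, h3⟩

theorem Sj_le (i : Jx G V) : Sj T i ≤ T := fun _ _ h => h.1

theorem Fj_sub (i : Jx G V) : Fj T F i ⊆ F := fun _ h => h.1

theorem Aj (hA : Ac G T F) (i : Jx G V) : Ac (Hj i) (Sj T i) (Fj T F i) := by
  have h1 : ∀ (h : Hj i) (x y : V), (Sj T i).Adj x y → (Sj T i).Adj (h • x) (h • y) := by
    rintro h x y ⟨h1, g, hg, h2⟩
    refine ⟨hA.adj _ _ _ h1, g * (h : G)⁻¹, (Hj i).mul_mem hg ((Hj i).inv_mem h.2), ?_⟩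
    have e : ∀ z : V, (g * (h : G)⁻¹) • h • z = g • z := by
      intro z
      show (g * (h : G)⁻¹) • (h : G) • z = g • z
      rw [mul_smul, inv_smul_smul]
    rwa [e, e]
  refine ⟨h1, ?_⟩
  rintro h φ ⟨a1, a2, g, hg, ψ, hψ, r, h3⟩
  refine ⟨hA.face h φ a1, fun k => h1 h _ _ (a2 k), g * (h : G)⁻¹,
    (Hj i).mul_mem hg ((Hj i).inv_mem h.2), ψ, hψ, r, ?_⟩
  have e : ∀ z : V, (g * (h : G)⁻¹) • h • z = g • z := by
    intro z
    show (g * (h : G)⁻¹) • (h : G) • z = g • z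
    rw [mul_smul, inv_smul_smul]
  simp only [e]
  exact h3

theorem Mj {ℓ : V → V → ℝ} {w : (ℤ → V) → ℝ} (hM : Mi G T F ℓ w) (i : Jx G V) :
    Mi (Hj (V := V) i) (Sj T i) (Fj T F i) ℓ w :=
  ⟨fun g x y h => hM.len g x y h.1, fun g φ hφ => hM.ang g φ hφ.1⟩

theorem Fj_shift (hx : ∀ φ ∈ F, ∀ k : ℤ, (fun i => φ (i + k)) ∈ F) (i : Jx G V) {φ : ℤ → V}
    (hφ : φ ∈ Fj T F i) (k : ℤ) : (fun l => φ (l + k)) ∈ Fj T F i := by
  obtain ⟨a1, a2, g, hg, ψ, hψ, r, h3⟩ := hφ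
  refine ⟨hx φ a1 k, fun l => ?_, g, hg, ψ, hψ, ?_⟩
  · have := a2 (l + k)
    have e : l + k + 1 = l + 1 + k := by ring
    rw [e] at this
    exact this
  · rcases h3 with h3 | h3
    · refine ⟨k + r, Or.inl fun l => ?_⟩
      show g • φ (l + k) = _
      rw [h3]
      congr 1
      ring
    · refine ⟨-k + r, Or.inr fun l => ?_⟩
      show g • φ (l + k) = _
      rw [h3]
      congr 1
      ring

theorem Fj_refl (hx : ∀ φ ∈ F, (fun i => φ (-i)) ∈ F) (i : Jx G V) {φ : ℤ → V}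
    (hφ : φ ∈ Fj T F i) : (fun l => φ (-l)) ∈ Fj T F i := by
  obtain ⟨a1, a2, g, hg, ψ, hψ, r, h3⟩ := hφ
  refine ⟨hx φ a1, fun l => ?_, g, hg, ψ, hψ, ?_⟩
  · have := (a2 (-(l + 1))).symm
    have e : -(l + 1) + 1 = -l := by ring
    rw [e] at this
    exact this
  · rcases h3 with h3 | h3
    · refine ⟨r, Or.inr fun l => ?_⟩
      show g • φ (-l) = _
      rw [h3]
    · refine ⟨r, Or.inl fun l => ?_⟩
      show g • φ (-l) = _
      rw [h3, neg_neg]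

theorem Cj {ℓ : V → V → ℝ} {w : (ℤ → V) → ℝ} (hx : Cx T F ℓ w) (i : Jx G V) :
    Cx (Sj T i) (Fj T F i) ℓ w := by
  constructor
  · exact fun φ hφ k => hφ.2.1 k
  · exact fun φ hφ => hx.per φ hφ.1
  · exact fun φ hφ k => Fj_shift hx.shift i hφ k
  · exact fun φ hφ => Fj_refl hx.refl i hφ
  · exact fun x y h => hx.len x y h.1
  · exact fun φ hφ => hx.ang φ hφ.1
  · exact fun φ hφ => hx.poly φ hφ.1
  · exact fun φ hφ ψ hψ => hx.corner φ hφ.1 ψ hψ.1
  · intro b k hk a ha ψ h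
    exact hx.link b k hk a ha ψ fun l => ⟨(h l).1.1, (h l).2⟩

theorem gmJ_refl (hA : Ac G T F) (o : V) (i : Jx G V) (h : i ≤ i) (x : Gam (Aj hA i) o) :
    gm (Sj_mono h) (Fj_mono h) (Hj_mono h) (Aj hA i) (Aj hA i) o x = x := by
  apply Subtype.ext
  rw [gm_val]
  apply SemidirectProduct.ext
  · rw [em_left, pm_refl, MonoidHom.id_apply]
  · rw [em_right]
    apply Subtype.ext
    rw [Subgroup.coe_inclusion]

theorem gmJ_trans (hA : Ac G T F) (o : V) (i j k : Jx G V) (h : i ≤ j) (h' : j ≤ k)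
    (x : Gam (Aj hA i) o) :
    gm (Sj_mono h') (Fj_mono h') (Hj_mono h') (Aj hA j) (Aj hA k) o
      (gm (Sj_mono h) (Fj_mono h) (Hj_mono h) (Aj hA i) (Aj hA j) o x) =
    gm (Sj_mono (h.trans h')) (Fj_mono (h.trans h')) (Hj_mono (h.trans h')) (Aj hA i)
      (Aj hA k) o x := by
  apply Subtype.ext
  rw [gm_val, gm_val, gm_val]
  apply SemidirectProduct.ext
  · rw [em_left, em_left, em_left, ← pm_trans (Sj_mono h) (Fj_mono h) (Sj_mono h') (Fj_mono h')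
      (Sj_mono (h.trans h')) (Fj_mono (h.trans h')), MonoidHom.comp_apply]
  · rw [em_right, em_right, em_right]
    apply Subtype.ext
    rw [Subgroup.coe_inclusion, Subgroup.coe_inclusion, Subgroup.coe_inclusion]

/-- the relators of the whole complex occur in the system -/
theorem rels_Jx {ℓ : V → V → ℝ} {w : (ℤ → V) → ℝ} (hx : Cx T F ℓ w) (i : Jx G V) {v : FreeGroup (V × V)}
    (hw : v ∈ rels T F) : ∃ j, i ≤ j ∧ v ∈ rels (Sj T j) (Fj T F j) := by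
  classical
  rcases hw with ⟨x, y, hxy, rfl⟩ | ⟨φ, hφ, n, hn, rfl⟩
  · refine ⟨(i.1, i.2.1 ∪ {(x, y)}, i.2.2), ⟨le_rfl, Finset.subset_union_left, le_rfl⟩,
      Or.inl ⟨x, y, ?_, rfl⟩⟩
    refine ⟨hxy, 1, Subgroup.one_mem _, Or.inl ?_⟩
    simp
  · refine ⟨(i.1, i.2.1 ∪ (Finset.range n).image fun k : ℕ => (φ k, φ (k + 1)), i.2.2 ∪ {φ}),
      ⟨le_rfl, Finset.subset_union_left, Finset.subset_union_left⟩,
      Or.inr ⟨φ, ⟨hφ, fun k => ?_, 1, Subgroup.one_mem _, φ, by simp, 0, Or.inl fun k => by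
        rw [one_smul, add_zero]⟩, n, hn, rfl⟩⟩
    obtain ⟨n', hn', hn''⟩ := hx.per φ hφ
    have hnn : n' = n := hn''.unique hn
    subst hnn
    refine ⟨hx.adj φ hφ k, 1, Subgroup.one_mem _, Or.inl ?_⟩
    rw [one_smul, one_smul]
    have hn0 : 0 < n' := by omega
    have e1 := Int.emod_nonneg k (b := n') (by omega)
    have e2 := Int.emod_lt_of_pos k (b := n') (by omega)
    refine Finset.mem_union_right _ (Finset.mem_image.2 ⟨(k % n').toNat,
      Finset.mem_range.2 (by omega), ?_⟩)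
    rw [Int.toNat_of_nonneg e1]
    have e3 : (n' : ℤ) ∣ k % n' - k := by
      have := Int.dvd_self_sub_emod (x := k) (m := (n' : ℤ))
      have h2 : k % n' - k = -(k - k % n') := by ring
      rw [h2, dvd_neg]
      exact this
    refine Prod.ext ((hn _ _).2 e3) ((hn _ _).2 ?_)
    have h3 : k % (n' : ℤ) + 1 - (k + 1) = k % n' - k := by ring
    rw [h3]
    exact e3

end

section

variable {G V : Type} [Group G] [MulAction G V] {T : SimpleGraph V} {F : Set (ℤ → V)}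

theorem Jx_dir (i j : Jx G V) : ∃ k, i ≤ k ∧ j ≤ k := by
  classical
  exact ⟨(i.1 ∪ j.1, i.2.1 ∪ j.2.1, i.2.2 ∪ j.2.2),
    ⟨Finset.subset_union_left, Finset.subset_union_left, Finset.subset_union_left⟩,
    ⟨Finset.subset_union_right, Finset.subset_union_right, Finset.subset_union_right⟩⟩

/-- the elements which die in the system -/
def De (T : SimpleGraph V) (F : Set (ℤ → V)) (i : Jx G V) : Subgroup (FreeGroup (V × V)) where
  carrier := {w | ∃ j, i ≤ j ∧ w ∈ Subgroup.normalClosure (rels (Sj T j) (Fj T F j))}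
  one_mem' := ⟨i, le_rfl, Subgroup.one_mem _⟩
  mul_mem' := by
    rintro a b ⟨j, hj, ha⟩ ⟨k, hk, hb⟩
    obtain ⟨l, h1, h2⟩ := Jx_dir j k
    have m : ∀ {j : Jx G V}, j ≤ l → Subgroup.normalClosure (rels (Sj T j) (Fj T F j)) ≤
        Subgroup.normalClosure (rels (Sj T l) (Fj T F l)) := by
      intro j hjl
      refine Subgroup.normalClosure_mono ?_
      rintro w (⟨x, y, hxy, rfl⟩ | ⟨φ, hφ, n, hn, rfl⟩)
      · exact Or.inl ⟨x, y, Sj_mono hjl hxy, rfl⟩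
      · exact Or.inr ⟨φ, Fj_mono hjl hφ, n, hn, rfl⟩
    exact ⟨l, hj.trans h1, Subgroup.mul_mem _ (m h1 ha) (m h2 hb)⟩
  inv_mem' := by
    rintro a ⟨j, hj, ha⟩
    exact ⟨j, hj, Subgroup.inv_mem _ ha⟩

instance (i : Jx G V) : (De T F i).Normal := by
  constructor
  rintro n ⟨j, hj, hn⟩ g
  exact ⟨j, hj, Subgroup.normalClosure_normal.conj_mem n hn g⟩

theorem rels_le3 {ℓ : V → V → ℝ} {w : (ℤ → V) → ℝ} (hx : Cx T F ℓ w) (i : Jx G V) :
    Subgroup.normalClosure (rels T F) ≤ De T F i := by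
  refine Subgroup.normalClosure_le_normal fun w hw => ?_
  obtain ⟨j, hj, hwj⟩ := rels_Jx hx i hw
  exact ⟨j, hj, Subgroup.subset_normalClosure hwj⟩

/-- the elements with trivial image in `G` die in the system -/
theorem ker_dies3 {ℓ : V → V → ℝ} {w : (ℤ → V) → ℝ} (hx : Cx T F ℓ w) (hA : Ac G T F) (hs : SC T F) (o : V)
    (i : Jx G V) (x : Gam (Aj hA i) o) (h1 : ((prH (Aj hA i) o x : Hj (V := V) i) : G) = 1) :
    ∃ j, ∃ h : i ≤ j,
      gm (Sj_mono h) (Fj_mono h) (Hj_mono h) (Aj hA i) (Aj hA j) o x = 1 := by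
  obtain ⟨f, hf⟩ := hs.2 (PG T F) (ed T F) coc_ed
  have key : ∀ z ∈ KS (Sj T i) (Fj T F i) o,
      pm (Sj_le i) (Fj_sub i) z.2 = (f o)⁻¹ * f z.1 := by
    intro z hz
    have hz' := (reachable_iff_reflTransGen _ _).1 hz
    clear hz
    induction hz' with
    | refl => simp
    | tail _ hbc ih =>
      rw [hbc.2, map_mul, ih, pm_ed, hf _ _ (Sj_le i hbc.1)]
      group
  have hr : x.1.right = 1 := Subtype.ext h1
  have hm : x.1 • ((o, 1) : V × PG (Sj T i) (Fj T F i)) ∈ KS (Sj T i) (Fj T F i) o := x.2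
  have h2 := key _ hm
  rw [smul_snd, smul_fst, map_one, mul_one, hr, one_smul, inv_mul_cancel] at h2
  obtain ⟨w, hw⟩ := PresentedGroup.mk_surjective (rels (Sj T i) (Fj T F i)) x.1.left
  rw [← hw, pm_mk] at h2
  have h3 : w ∈ Subgroup.normalClosure (rels T F) := (QuotientGroup.eq_one_iff w).1 h2
  obtain ⟨j, hj, hwj⟩ := rels_le3 hx i h3
  refine ⟨j, hj, ?_⟩
  apply Subtype.ext
  rw [gm_val]
  apply SemidirectProduct.ext
  · rw [em_left, ← hw, pm_mk]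
    exact (QuotientGroup.eq_one_iff w).2 hwj
  · rw [em_right, hr, map_one]
    rfl

theorem reach_Jx (o x : V) (h : T.Reachable o x) : ∃ E : Finset (V × V), ∀ j : Jx G V, E ⊆ j.2.1 →
    ∃ π, (x, π) ∈ KS (Sj T j) (Fj T F j) o := by
  classical
  rw [reachable_iff_reflTransGen] at h
  induction h with
  | refl => exact ⟨∅, fun j _ => ⟨1, Reachable.refl _⟩⟩
  | @tail b c _ hbc ih =>
    obtain ⟨E, hE⟩ := ih
    refine ⟨E ∪ {(b, c)}, fun j hj => ?_⟩
    obtain ⟨π, hπ⟩ := hE j (Finset.union_subset_left hj)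
    refine ⟨π * ed _ _ b c, KS_adj hπ ⟨⟨hbc, 1, Subgroup.one_mem _, Or.inl ?_⟩, rfl⟩⟩
    rw [one_smul, one_smul]
    exact hj (by simp)

/-- the homomorphism to `G` -/
def prJ (hA : Ac G T F) (o : V) (i : Jx G V) : Gam (Aj hA i) o →* G :=
  (Hj (V := V) i).subtype.comp (prH (Aj hA i) o)

theorem prJ_apply (hA : Ac G T F) (o : V) (i : Jx G V) (x : Gam (Aj hA i) o) :
    prJ hA o i x = (x.1.right : G) := rfl

theorem prJ_gm (hA : Ac G T F) (o : V) (i j : Jx G V) (h : i ≤ j) (x : Gam (Aj hA i) o) :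
    prJ hA o j (gm (Sj_mono h) (Fj_mono h) (Hj_mono h) (Aj hA i) (Aj hA j) o x) =
      prJ hA o i x := by
  rw [prJ_apply, prJ_apply, gm_val, em_right, Subgroup.coe_inclusion]

theorem prJ_surj (hA : Ac G T F) (hs : SC T F) (o : V) (y : G) :
    ∃ i, ∃ x : Gam (Aj hA i) o, prJ hA o i x = y := by
  classical
  obtain ⟨E, hE⟩ := reach_Jx (G := G) (F := F) o (y • o) (hs.1.preconnected o (y • o))
  obtain ⟨π, hπ⟩ := hE ({y}, E, ∅) (by exact subset_rfl)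
  have hy : y ∈ Hj (V := V) (({y}, E, ∅) : Jx G V) := Subgroup.subset_closure (by simp)
  refine ⟨({y}, E, ∅), ⟨_, mem_Gam (Aj hA _) (h := ⟨y, hy⟩) (π := π) ?_⟩, ?_⟩
  · rw [Subgroup.smul_def]
    exact hπ
  · rw [prJ_apply]

/-- **the colimit** -/
theorem colJ {C : ∀ (G : Type) [Group G], Prop} (hC : Closed C) {ℓ : V → V → ℝ}
    {w : (ℤ → V) → ℝ} (hx : Cx T F ℓ w) (hA : Ac G T F) (hs : SC T F) (o : V)
    (h : ∀ i : Jx G V, C (Gam (Aj hA i) o)) : C G := by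
  have hne : Nonempty (Jx G V) := ⟨(∅, ∅, ∅)⟩
  refine hC.colim (Jx G V) Jx_dir (fun i => Gam (Aj hA i) o)
    (fun i j h => gm (Sj_mono h) (Fj_mono h) (Hj_mono h) (Aj hA i) (Aj hA j) o) G
    (fun i => prJ hA o i) (fun i h x => gmJ_refl hA o i h x)
    (fun i j k h h' x => gmJ_trans hA o i j k h h' x) (fun i j h x => prJ_gm hA o i j h x)
    (prJ_surj hA hs o) ?_ h
  intro i x h1
  exact ker_dies3 hx hA hs o i x h1

end

end Run7.h909.TT
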