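import Pool.Agent.Run7.h909.TT.Colim

/-!
# Actions with cyclic stabilizers
-/

set_option autoImplicit false

namespace Run7.h909.TT

open SimpleGraph Run7.h909.TD
open Pool.Agent.Y110.FJ (ClosedE)
open Pool.Agent.Y462.SS (Closed)
open Pool.Agent.R684.FP (FbC)

section

variable {V Θ : Type} {S : SimpleGraph V} {Φ : Set (ℤ → V)} {τ : V → Θ} {δ : Θ → Θ → Bool}

theorem vh_cover (h : VH S Φ τ δ) (o : V) :
    VH (DK S Φ o) (FK S Φ o) (fun z => τ z.1.1) δ := by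
  have hx := cx_cover h.cx o
  constructor
  · exact hx.adj
  · intro φ hφ
    have h1 := per_lift h.cx (φ := fun i => (φ i).1) hφ.1 (h.per _ hφ.1) hφ.2
    intro i j
    exact Subtype.ext_iff.trans (h1 i j)
  · exact hx.shift
  · exact hx.refl
  · exact hx.corner
  · exact fun φ hφ => h.dir _ hφ.1
  · exact fun x y hxy => h.adjt _ _ (show (DG S Φ).Adj x.1 y.1 from hxy).1
  · exact fun φ hφ => h.opp _ hφ.1
  · intro x y hxy
    have key : ∀ x y : KS S Φ o, (DK S Φ o).Adj x y →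
        (∀ y', S.Adj x.1.1 y' → τ y' = τ y.1.1 → y' = y.1.1) →
        ∀ y' : KS S Φ o, (DK S Φ o).Adj x y' → τ y'.1.1 = τ y.1.1 → y' = y := by
      intro x y hxy h1 y' hy' he
      have a1 : (DG S Φ).Adj x.1 y.1 := hxy
      have a2 : (DG S Φ).Adj x.1 y'.1 := hy'
      have e := h1 _ a2.1 he
      refine Subtype.ext (Prod.ext e ?_)
      rw [a2.2, a1.2, e]
    rcases h.low _ _ (show (DG S Φ).Adj x.1 y.1 from hxy).1 with h1 | h1
    · exact Or.inl (key x y hxy h1)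
    · exact Or.inr (key y x hxy.symm h1)

theorem fk_ext {o : V} {φ ψ : ℤ → KS S Φ o} (hφ : φ ∈ FK S Φ o) (hψ : ψ ∈ FK S Φ o)
    (h0 : φ 0 = ψ 0) (h4 : ∀ i, (φ i).1.1 = (ψ i).1.1) : φ = ψ := by
  funext i
  induction i using Int.induction_on with
  | zero => exact h0
  | succ k ih =>
    refine Subtype.ext (Prod.ext (h4 _) ?_)
    rw [(hφ.2 k).2, (hψ.2 k).2, ih, h4 (k + 1)]
  | pred k ih =>
    refine Subtype.ext (Prod.ext (h4 _) ?_)
    have e1 := (hφ.2 (-k - 1)).2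
    have e2 := (hψ.2 (-k - 1)).2
    have e3 : (-k - 1 : ℤ) + 1 = -k := by ring
    rw [e3] at e1 e2
    rw [ih, e2, h4 (-k - 1)] at e1
    exact (mul_right_cancel e1).symm

/-- representatives of the orbits -/
theorem exists_rep {H : Type} [Group H] [MulAction H V] (hA : Ac H S Φ) (o : V) :
    ∃ (R : V → KS S Φ o) (s : V → H), ∀ (z : KS S Φ o) (g : H), ∃ γ : Gam hA o,
      γ • z = R (g • z.1.1) ∧ prH hA o γ = (s (g • z.1.1))⁻¹ * g := by
  classical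
  have hex : ∀ b : V, ∃ (w : KS S Φ o) (t : H), (∃ (z : KS S Φ o) (g : H), g • z.1.1 = b) →
      t • w.1.1 = b := by
    intro b
    by_cases h : ∃ (z : KS S Φ o) (g : H), g • z.1.1 = b
    · obtain ⟨z, g, hg⟩ := h
      exact ⟨z, g, fun _ => hg⟩
    · exact ⟨⟨(o, 1), Reachable.refl _⟩, 1, fun h' => absurd h' h⟩
  choose R s hs using hex
  refine ⟨R, s, fun z g => ?_⟩
  have h1 := hs (g • z.1.1) ⟨z, g, rfl⟩
  set w := R (g • z.1.1) with hw
  set t := s (g • z.1.1) with ht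
  let γ : EG hA := ⟨w.1.2 * (sh hA (t⁻¹ * g) z.1.2)⁻¹, t⁻¹ * g⟩
  have hγ : γ • z.1 = w.1 := by
    refine Prod.ext ?_ ?_
    · rw [smul_fst]
      show (t⁻¹ * g) • z.1.1 = w.1.1
      rw [mul_smul, ← h1, inv_smul_smul]
    · rw [smul_snd]
      show w.1.2 * (sh hA (t⁻¹ * g) z.1.2)⁻¹ * sh hA (t⁻¹ * g) z.1.2 = w.1.2
      rw [inv_mul_cancel_right]
  exact ⟨⟨γ, gam_of hA o z.2 (by rw [hγ]; exact w.2)⟩, Subtype.ext hγ, rfl⟩

end

section

variable {G V Θ : Type} [Group G] [MulAction G V] {T : SimpleGraph V} {F : Set (ℤ → V)}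
  {τ : V → Θ} {δ : Θ → Θ → Bool}

theorem vh_sub (h : VH T F τ δ) (i : Jx G V) : VH (Sj T i) (Fj T F i) τ δ := by
  constructor
  · exact fun φ hφ k => hφ.2.1 k
  · exact fun φ hφ => h.per φ hφ.1
  · exact fun φ hφ k => Fj_shift h.shift i hφ k
  · exact fun φ hφ => Fj_refl h.refl i hφ
  · exact fun φ hφ ψ hψ => h.corner φ hφ.1 ψ hψ.1
  · exact fun φ hφ => h.dir φ hφ.1
  · exact fun x y hxy => h.adjt x y hxy.1
  · exact fun φ hφ => h.opp φ hφ.1
  · intro x y hxy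
    rcases h.low x y hxy.1 with h1 | h1
    · exact Or.inl fun y' hy' => h1 y' hy'.1
    · exact Or.inr fun x' hx' => h1 x' hx'.1

theorem fe_cover (hA : Ac G T F) (o : V) (i : Jx G V) :
    ∃ E : Set (KS (Sj T i) (Fj T F i) o × KS (Sj T i) (Fj T F i) o), E.Finite ∧
      ∀ x y, (DK (Sj T i) (Fj T F i) o).Adj x y → ∃ γ : Gam (Aj hA i) o, (γ • x, γ • y) ∈ E := by
  classical
  obtain ⟨R, s, hR⟩ := exists_rep (Aj hA i) o
  refine ⟨⋃ e ∈ (i.2.1 : Set (V × V)) ∪ Prod.swap '' (i.2.1 : Set (V × V)),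
    {p | (DK (Sj T i) (Fj T F i) o).Adj p.1 p.2 ∧ p.1 = R e.1 ∧ p.2.1.1 = (s e.1)⁻¹ • e.2},
    Set.Finite.biUnion ((Finset.finite_toSet _).union ((Finset.finite_toSet _).image _)) ?_, ?_⟩
  · intro e _
    refine Set.Subsingleton.finite ?_
    rintro ⟨a, b⟩ ⟨h1, h2, h3⟩ ⟨a', b'⟩ ⟨h1', h2', h3'⟩
    simp only at h2 h3 h2' h3'
    have ha : a = a' := h2.trans h2'.symm
    subst ha
    have a1 : (DG (Sj T i) (Fj T F i)).Adj a.1 b.1 := h1
    have a2 : (DG (Sj T i) (Fj T F i)).Adj a.1 b'.1 := h1'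
    have e' : b.1.1 = b'.1.1 := h3.trans h3'.symm
    refine Prod.ext rfl (Subtype.ext (Prod.ext e' ?_))
    show b.1.2 = b'.1.2
    rw [a1.2, a2.2, e']
  · intro x y hxy
    have a1 : (DG (Sj T i) (Fj T F i)).Adj x.1 y.1 := hxy
    obtain ⟨-, g, hg, h2⟩ := a1.1
    obtain ⟨γ, h3, h4⟩ := hR x ⟨g, hg⟩
    refine ⟨γ, ?_⟩
    simp only [Set.mem_iUnion]
    refine ⟨(g • x.1.1, g • y.1.1), ?_, (ac_cover (Aj hA i) o).adj γ x y hxy, h3, ?_⟩
    · rcases h2 with h2 | h2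
      · exact Or.inl h2
      · exact Or.inr ⟨_, h2, rfl⟩
    · show (γ • y).1.1 = _
      rw [smulK_fst, h4, mul_smul]
      rfl

theorem ff_cover (h : VH T F τ δ) (hA : Ac G T F) (o : V) (i : Jx G V) :
    ∃ P : Set (ℤ → KS (Sj T i) (Fj T F i) o), P.Finite ∧
      ∀ φ ∈ FK (Sj T i) (Fj T F i) o, ∃ γ : Gam (Aj hA i) o, (fun k => γ • φ k) ∈ P := by
  classical
  obtain ⟨R, s, hR⟩ := exists_rep (Aj hA i) o
  have hfin : {χ : ℤ → V | ∃ ψ ∈ i.2.2, ∃ r ∈ Finset.range 4, (χ = fun k => ψ (k + (r : ℕ))) ∨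
      χ = fun k => ψ (-k + (r : ℕ))}.Finite := by
    refine Set.Finite.subset (s := ⋃ ψ ∈ (i.2.2 : Set (ℤ → V)), ⋃ r ∈ (Finset.range 4 : Set ℕ),
      {(fun k : ℤ => ψ (k + (r : ℕ)) : ℤ → V), (fun k : ℤ => ψ (-k + (r : ℕ)) : ℤ → V)}) ?_ ?_
    · exact Set.Finite.biUnion (Finset.finite_toSet _) fun _ _ =>
        Set.Finite.biUnion (Finset.finite_toSet _) fun _ _ => Set.toFinite _
    · rintro χ ⟨ψ, hψ, r, hr, h1⟩
      simp only [Set.mem_iUnion]
      exact ⟨ψ, hψ, r, hr, h1⟩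
  refine ⟨⋃ χ ∈ {χ : ℤ → V | ∃ ψ ∈ i.2.2, ∃ r ∈ Finset.range 4,
      (χ = fun k => ψ (k + (r : ℕ))) ∨ χ = fun k => ψ (-k + (r : ℕ))},
    {φ | φ ∈ FK (Sj T i) (Fj T F i) o ∧ φ 0 = R (χ 0) ∧ ∀ k, (φ k).1.1 = (s (χ 0))⁻¹ • χ k},
    Set.Finite.biUnion hfin ?_, ?_⟩
  · intro χ _
    refine Set.Subsingleton.finite ?_
    rintro φ ⟨h1, h2, h3⟩ φ' ⟨h1', h2', h3'⟩
    exact fk_ext h1 h1' (h2.trans h2'.symm) fun k => (h3 k).trans (h3' k).symm
  · intro φ hφ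
    obtain ⟨a1, a2, g, hg, ψ, hψ, r, h3⟩ := hφ.1
    obtain ⟨γ, h4, h5⟩ := hR (φ 0) ⟨g, hg⟩
    have hper : ∀ k l : ℤ, k % 4 = l % 4 → (φ k).1.1 = (φ l).1.1 := fun k l hkl =>
      per4_eq (h.per _ a1) hkl
    refine ⟨γ, ?_⟩
    simp only [Set.mem_iUnion]
    refine ⟨fun k => g • (φ k).1.1, ?_, (ac_cover (Aj hA i) o).face γ φ hφ, ?_, ?_⟩
    · refine ⟨ψ, hψ, (r % 4).toNat, Finset.mem_range.2 (by omega), ?_⟩
      have hr : (((r % 4).toNat : ℕ) : ℤ) = r % 4 := Int.toNat_of_nonneg (by omega)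
      rw [hr]
      rcases h3 with h3 | h3
      · left
        funext k
        have e1 := h3 (k + (r % 4 - r))
        have e2 : k + (r % 4 - r) + r = k + r % 4 := by ring
        rw [e2] at e1
        rw [← e1, hper k (k + (r % 4 - r)) (by omega)]
      · right
        funext k
        have e1 := h3 (k - (r % 4 - r))
        have e2 : -(k - (r % 4 - r)) + r = -k + r % 4 := by ring
        rw [e2] at e1
        rw [← e1, hper k (k - (r % 4 - r)) (by omega)]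
    · exact h4
    · intro k
      show (γ • φ k).1.1 = _
      rw [smulK_fst, h5, mul_smul]
      rfl

/-- **actions with cyclic stabilizers** -/
theorem cyc {C : ∀ (G : Type) [Group G], Prop} (hC : ClosedE C) (hF : FbC C) (hcat : CatC C)
    (h : VH T F τ δ) (hs : SC T F) (hA : Ac G T F) (ht : ∀ (g : G) (x : V), τ (g • x) = τ x)
    (f : G →* Multiplicative ℤ) (hi : ∀ (g : G) (x : V), g • x = x → f g = 1 → g = 1) : C G := by
  obtain ⟨o⟩ := hs.1.nonempty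
  refine colJ hC.base h.cx hA hs o fun i => ?_
  refine Cc.mem (T := DK (Sj T i) (Fj T F i) o) (F := FK (Sj T i) (Fj T F i) o)
    (τ := fun z => τ z.1.1) (δ := δ) (f := f.comp (prJ hA o i)) hC hF hcat ?_
  exact {
    vh := vh_cover (vh_sub h i) o
    sc := sc_cover (Cj h.cx i) o
    ac := ac_cover (Aj hA i) o
    ht := by
      intro γ z
      show τ (γ • z).1.1 = τ z.1.1
      rw [smulK_fst]
      exact ht _ _
    inj := by
      intro γ z hγ hf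
      have h1 : prH (Aj hA i) o γ • z.1.1 = z.1.1 := by rw [← smulK_fst, hγ]
      have h2 : ((prH (Aj hA i) o γ : Hj (V := V) i) : G) = 1 := hi _ _ h1 hf
      refine stab_inj (Aj hA i) o hγ (one_smul _ z) ?_
      rw [map_one]
      exact Subtype.ext h2
    fe := fe_cover hA o i
    ff := ff_cover h hA o i }

end

end Run7.h909.TT
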