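import Pool.Agent.Run7.h909.TD.Trees
import Pool.Agent.H386R3.CC.Paths
import Pool.Agent.H386R3.CC.Cover

/-!
# Square complexes with types
-/

set_option autoImplicit false

namespace Run7.h909.TT

open SimpleGraph Run7.h909.TD
open Pool.Agent.H386R3.CC

/-- A square complex with types `τ` of the vertices; `δ` of the types of the ends of an edge is one of
two directions of the edge. -/
structure VH {V Θ : Type} (T : SimpleGraph V) (F : Set (ℤ → V)) (τ : V → Θ) (δ : Θ → Θ → Bool) :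
    Prop where
  adj : ∀ φ ∈ F, ∀ i : ℤ, T.Adj (φ i) (φ (i + 1))
  per : ∀ φ ∈ F, Per φ 4
  shift : ∀ φ ∈ F, ∀ k : ℤ, (fun i => φ (i + k)) ∈ F
  refl : ∀ φ ∈ F, (fun i => φ (-i)) ∈ F
  corner : ∀ φ ∈ F, ∀ ψ ∈ F, φ 0 = ψ 0 → φ 1 = ψ 1 → φ (-1) = ψ (-1) → φ = ψ
  dir : ∀ φ ∈ F, δ (τ (φ 0)) (τ (φ 1)) ≠ δ (τ (φ 0)) (τ (φ (-1)))
  adjt : ∀ x y, T.Adj x y → τ x ≠ τ y
  opp : ∀ φ ∈ F, τ (φ 0) ≠ τ (φ 2)
  low : ∀ x y, T.Adj x y → (∀ y', T.Adj x y' → τ y' = τ y → y' = y) ∨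
    (∀ x', T.Adj y x' → τ x' = τ x → x' = x)

section

variable {V Θ : Type} {T : SimpleGraph V} {F : Set (ℤ → V)} {τ : V → Θ} {δ : Θ → Θ → Bool}

theorem per4_eq {φ : ℤ → V} (h : Per φ 4) {i j : ℤ} (hij : i % 4 = j % 4) : φ i = φ j := by
  refine (h _ _).2 ?_
  push_cast
  omega

theorem per4_ext {φ ψ : ℤ → V} (h : Per φ 4) (h' : Per ψ 4) (h0 : φ 0 = ψ 0) (h1 : φ 1 = ψ 1)
    (h2 : φ 2 = ψ 2) (h3 : φ 3 = ψ 3) : φ = ψ := by
  funext i
  rcases mod4 i with hi | hi | hi | hi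
  · rw [per4_eq h (j := 0) (by omega), per4_eq h' (i := i) (j := 0) (by omega), h0]
  · rw [per4_eq h (j := 1) (by omega), per4_eq h' (i := i) (j := 1) (by omega), h1]
  · rw [per4_eq h (j := 2) (by omega), per4_eq h' (i := i) (j := 2) (by omega), h2]
  · rw [per4_eq h (j := 3) (by omega), per4_eq h' (i := i) (j := 3) (by omega), h3]

/-- two values of a function with two values -/
theorem bool3 {a b c : Bool} (h1 : a ≠ b) (h2 : b ≠ c) (h3 : a ≠ c) : False := by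
  cases a <;> cases b <;> cases c <;> simp_all

theorem VH.cx (h : VH T F τ δ) : Cx T F (fun _ _ => 1) (fun _ => Real.pi / 2) := by
  constructor
  · exact h.adj
  · exact fun φ hφ => ⟨4, by norm_num, h.per φ hφ⟩
  · exact h.shift
  · exact h.refl
  · exact fun _ _ _ => ⟨one_pos, rfl⟩
  · intro φ _
    have := Real.pi_pos
    exact ⟨by linarith, by linarith, rfl⟩
  · intro φ hφ n hn
    have hn4 : n = 4 := hn.unique (h.per φ hφ)
    subst hn4
    refine ⟨fun k => k * (Real.pi / 2), ?_, ?_, ?_⟩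
    · intro k
      push_cast
      ring
    · push_cast
      ring
    · have hE : ∀ k : ℕ, Complex.exp ((((k : ℤ) : ℝ) * (Real.pi / 2) : ℝ) * Complex.I) =
          Complex.I ^ k := by
        intro k
        have : ((((k : ℤ) : ℝ) * (Real.pi / 2) : ℝ) : ℂ) * Complex.I =
            (k : ℂ) * (Real.pi / 2 * Complex.I) := by
          push_cast
          ring
        rw [this, Complex.exp_nat_mul, Complex.exp_pi_div_two_mul_I]
      simp only [hE]
      simp [Finset.sum_range_succ, pow_succ]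
  · exact h.corner
  · intro b k hk a ha ψ hψ
    have hpi := Real.pi_pos
    have hk4 : 4 ≤ k := by
      by_contra hlt
      have hk3 : k = 3 := by omega
      subst hk3
      have ht : ∀ i : ℤ, δ (τ b) (τ (a (i + 1))) ≠ δ (τ b) (τ (a i)) := by
        intro i
        obtain ⟨hφ, c0, cm, c1⟩ := hψ i
        have := h.dir _ hφ
        rw [c0, cm, c1] at this
        exact this
      have h3 : a 3 = a 0 := (ha _ _).2 ⟨1, by norm_num⟩
      have q0 := ht 0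
      have q1 := ht 1
      have q2 := ht 2
      norm_num at q0 q1 q2
      rw [h3] at q2
      exact bool3 q0 q2 (fun e => q1 e.symm)
    rw [Finset.sum_const, Finset.card_range, nsmul_eq_mul]
    have : (4 : ℝ) ≤ k := by exact_mod_cast hk4
    nlinarith

/-- the squares as a relation -/
def Sq (F : Set (ℤ → V)) (x y z w : V) : Prop :=
  ∃ φ ∈ F, φ 0 = x ∧ φ 1 = y ∧ φ 2 = z ∧ φ 3 = w

theorem VH.m1 (h : VH T F τ δ) {φ : ℤ → V} (hφ : φ ∈ F) : φ (-1) = φ 3 :=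
  per4_eq (h.per φ hφ) (by norm_num)

theorem VH.e4 (h : VH T F τ δ) {φ : ℤ → V} (hφ : φ ∈ F) : φ 4 = φ 0 :=
  per4_eq (h.per φ hφ) (by norm_num)

theorem VH.sq_rot (h : VH T F τ δ) {x y z w : V} (hs : Sq F x y z w) : Sq F y z w x := by
  obtain ⟨φ, hφ, rfl, rfl, rfl, rfl⟩ := hs
  refine ⟨_, h.shift φ hφ 1, ?_, ?_, ?_, ?_⟩
  · show φ (0 + 1) = _
    norm_num
  · show φ (1 + 1) = _
    norm_num
  · show φ (2 + 1) = _
    norm_num
  · show φ (3 + 1) = _
    norm_num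
    exact h.e4 hφ

theorem VH.sq_rev (h : VH T F τ δ) {x y z w : V} (hs : Sq F x y z w) : Sq F w z y x := by
  obtain ⟨φ, hφ, rfl, rfl, rfl, rfl⟩ := hs
  refine ⟨_, h.refl _ (h.shift φ hφ 3), ?_, ?_, ?_, ?_⟩
  · show φ (-0 + 3) = _
    norm_num
  · show φ (-1 + 3) = _
    norm_num
  · show φ (-2 + 3) = _
    norm_num
  · show φ (-3 + 3) = _
    norm_num

theorem VH.sq_adj (h : VH T F τ δ) {x y z w : V} (hs : Sq F x y z w) : T.Adj x y := by
  obtain ⟨φ, hφ, rfl, rfl, rfl, rfl⟩ := hs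
  have := h.adj φ hφ 0
  rwa [zero_add] at this

theorem VH.sq_dir (h : VH T F τ δ) {x y z w : V} (hs : Sq F x y z w) :
    δ (τ x) (τ y) ≠ δ (τ x) (τ w) := by
  obtain ⟨φ, hφ, rfl, rfl, rfl, rfl⟩ := hs
  have := h.dir φ hφ
  rwa [h.m1 hφ] at this

theorem VH.sq_ne (h : VH T F τ δ) {x y z w : V} (hs : Sq F x y z w) : x ≠ z := by
  obtain ⟨φ, hφ, rfl, rfl, rfl, rfl⟩ := hs
  intro he
  exact h.opp φ hφ (by rw [he])

theorem VH.sq_uniq (h : VH T F τ δ) {x y z z' w : V} (hs : Sq F x y z w) (hs' : Sq F x y z' w) :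
    z = z' := by
  obtain ⟨φ, hφ, h0, h1, h2, h3⟩ := hs
  obtain ⟨ψ, hψ, g0, g1, g2, g3⟩ := hs'
  have := h.corner φ hφ ψ hψ (h0.trans g0.symm) (h1.trans g1.symm)
    (by rw [h.m1 hφ, h.m1 hψ, h3, g3])
  rw [← h2, ← g2, this]

/-- the squares, for the theory of flips -/
def VH.sqs (h : VH T F τ δ) : SqS V where
  sq := Sq F
  rot := h.sq_rot
  rev := h.sq_rev
  ne := h.sq_ne
  uniq := h.sq_uniq
  cube := by
    intro x a b c p q r h1 h2 h3
    exact (bool3 (h.sq_dir h1) (h.sq_dir h2) (h.sq_dir h3)).elim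

end

end Run7.h909.TT
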