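import Pool.Agent.Run7.h909.TT.Sub
import Pool.Agent.Run7.h909.GT.Fin
import Pool.Agent.Run7.h909.GT.Modz

/-!
# Groups of matrices over rings with two degree functions
-/

set_option autoImplicit false

namespace Run7.h909.TT

open SimpleGraph Run7.h909.TD Run7.h909.GT
open Pool.Agent.Y110.FJ (ClosedE)
open Pool.Agent.Y462.SS (Closed)
open Pool.Agent.R684.FP (FbC)

variable {C : ∀ (G : Type) [Group G], Prop}

/-- two length functions -/
theorem length2 (hC : ClosedE C) (hF : FbC C) (hcat : CatC C) {G S1 S2 : Type} [Group G]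
    [MulAction G S1] [MulAction G S2] {d1 : S1 → S1 → ℤ} {d2 : S2 → S2 → ℤ} (h1 : ZH d1)
    (h2 : ZH d2) (hd1 : ∀ (g : G) (x y : S1), d1 (g • x) (g • y) = d1 x y)
    (hd2 : ∀ (g : G) (x y : S2), d2 (g • x) (g • y) = d2 x y) (o1 : S1) (o2 : S2)
    (hP : ∀ n : ℕ, ∃ (P : Type) (_ : Group P) (f : G →* P), C P ∧
      ∀ g : G, d1 o1 (g • o1) ≤ n → d2 o2 (g • o2) ≤ n → f g = 1 → g = 1) : C G := by
  let _ := actV hd1
  let _ := actV hd2
  have : Nonempty S1 := ⟨o1⟩
  have : Nonempty S2 := ⟨o2⟩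
  refine two_trees (G := G) (V1 := Vt d1) (V2 := Vt d2) (T1 := TG d1) (T2 := TG d2) hC hF hcat
    (TG_tree h1) (TG_tree h2) ?_ ?_ ?_
  · intro g u v huv s
    exact huv (g⁻¹ • s)
  · intro g u v huv s
    exact huv (g⁻¹ • s)
  · intro v w
    obtain ⟨P, _, f, hP, hf⟩ := hP ((2 * v.1 o1).toNat + (2 * w.1 o2).toNat)
    refine ⟨P, inferInstance, f, hP, fun g hg hg' hfg => hf g ?_ ?_ hfg⟩
    · have h3 : v.1 (g⁻¹ • o1) = v.1 o1 := congrFun (congrArg Subtype.val hg) o1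
      have h4 := le_add h1 v o1 (g⁻¹ • o1)
      rw [h3] at h4
      have h5 := hd1 g o1 (g⁻¹ • o1)
      rw [smul_inv_smul] at h5
      have h6 := h1.symm o1 (g • o1)
      push_cast
      omega
    · have h3 : w.1 (g⁻¹ • o2) = w.1 o2 := congrFun (congrArg Subtype.val hg') o2
      have h4 := le_add h2 w o2 (g⁻¹ • o2)
      rw [h3] at h4
      have h5 := hd2 g o2 (g⁻¹ • o2)
      rw [smul_inv_smul] at h5
      have h6 := h2.symm o2 (g • o2)
      push_cast
      omega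

/-- the degree of the determinant -/
def wh {R : Type} [CommRing R] [Nontrivial R] {deg : R → WithBot ℤ} (h : IsDeg deg) :
    GL (Fin 2) R →* Multiplicative ℤ :=
  MonoidHom.mk' (fun g => Multiplicative.ofAdd (w deg g g)) (by
    intro a b
    rw [← ofAdd_add]
    congr 1
    rw [← WithBot.coe_inj, WithBot.coe_add, coe_w h, coe_w h, coe_w h, W_mul h, W_self h a])

theorem wh_one {R : Type} [CommRing R] [Nontrivial R] {deg : R → WithBot ℤ} (h : IsDeg deg)
    (g : GL (Fin 2) R) (hg : wh h g = 1) :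
    deg (g : Matrix (Fin 2) (Fin 2) R).det = 0 ∧ w deg g g = 0 := by
  have h1 : w deg g g = 0 := hg
  refine ⟨?_, h1⟩
  rw [← W_self h, ← coe_w h, h1]
  rfl

/-- **groups with two representations** -/
theorem two_rep (hC : ClosedE C) (hF : FbC C) (hcat : CatC C) {R1 R2 : Type} [CommRing R1]
    [CommRing R2] [Nontrivial R1] [Nontrivial R2] {deg1 : R1 → WithBot ℤ} {deg2 : R2 → WithBot ℤ}
    (h1 : IsDeg deg1) (h2 : IsDeg deg2) {G : Type} [Group G] (ρ1 : G →* GL (Fin 2) R1)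
    (ρ2 : G →* GL (Fin 2) R2)
    (hP : ∀ n : ℕ, ∃ (P : Type) (_ : Group P) (f : G →* P), C P ∧ ∀ g : G,
      (∀ i j, deg1 (ρ1 g i j) ≤ n) → (∀ i j, deg2 (ρ2 g i j) ≤ n) →
      deg1 (ρ1 g : Matrix (Fin 2) (Fin 2) R1).det = 0 →
      deg2 (ρ2 g : Matrix (Fin 2) (Fin 2) R2).det = 0 → f g = 1 → g = 1) : C G := by
  let _ : MulAction G (GL (Fin 2) R1) := MulAction.compHom _ ρ1
  let _ : MulAction G (GL (Fin 2) R2) := MulAction.compHom _ ρ2
  have hs1 : ∀ (g : G) (x : GL (Fin 2) R1), g • x = ρ1 g * x := fun _ _ => rfl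
  have hs2 : ∀ (g : G) (x : GL (Fin 2) R2), g • x = ρ2 g * x := fun _ _ => rfl
  refine length2 hC hF hcat (G := G) (S1 := GL (Fin 2) R1) (S2 := GL (Fin 2) R2)
    (dd_zh h1) (dd_zh h2) ?_ ?_ 1 1 ?_
  · intro g x y
    rw [hs1, hs1, dd_mul h1]
  · intro g x y
    rw [hs2, hs2, dd_mul h2]
  · intro n
    obtain ⟨P, _, f, hCP, hf⟩ := hP n
    refine ⟨P × Multiplicative ℤ × Multiplicative ℤ, inferInstance,
      f.prod (((wh h1).comp ρ1).prod ((wh h2).comp ρ2)),
      hC.base.prod _ _ hCP (hC.base.prod _ _ hC.base.int hC.base.int), fun g hg hg' hfg => ?_⟩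
    have e1 : f g = 1 := congrArg Prod.fst hfg
    have e2 : wh h1 (ρ1 g) = 1 := congrArg (fun x => x.2.1) hfg
    have e3 : wh h2 (ρ2 g) = 1 := congrArg (fun x => x.2.2) hfg
    obtain ⟨a1, b1⟩ := wh_one h1 _ e2
    obtain ⟨a2, b2⟩ := wh_one h2 _ e3
    rw [hs1, mul_one] at hg
    rw [hs2, mul_one] at hg'
    have c1 : w deg1 (1 : GL (Fin 2) R1) 1 = 0 := by
      rw [← WithBot.coe_inj, coe_w h1, W_self h1, Units.val_one, Matrix.det_one, h1.one]
      rfl
    have c2 : w deg2 (1 : GL (Fin 2) R2) 1 = 0 := by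
      rw [← WithBot.coe_inj, coe_w h2, W_self h2, Units.val_one, Matrix.det_one, h2.one]
      rfl
    refine hf g ?_ ?_ a1 a2 e1
    · intro i j
      refine (le_w_one h1 (ρ1 g) i j).trans ?_
      unfold dd at hg
      have : w deg1 1 (ρ1 g) ≤ n := by omega
      exact_mod_cast this
    · intro i j
      refine (le_w_one h2 (ρ2 g) i j).trans ?_
      unfold dd at hg'
      have : w deg2 1 (ρ2 g) ≤ n := by omega
      exact_mod_cast this

/-- **rings with two degree functions** -/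
theorem two_ring (hC : ClosedE C) (hF : FbC C) (hcat : CatC C)
    (hsol : ∀ (S : Type) [Group S], Group.IsSolvable S → C S)
    {A : Type} [CommRing A] [Nontrivial A] {deg1 deg2 : A → WithBot ℤ} (h1 : IsDeg deg1)
    (h2 : IsDeg deg2) (J : Ideal A) (hJ : C (GL (Fin 2) (A ⧸ J)))
    (hn : ∀ n : ℕ, ∃ k : ℕ, ∀ x ∈ J ^ k, deg1 x ≤ n → deg2 x ≤ n → x = 0) :
    C (GL (Fin 2) A) := by
  refine two_rep hC hF hcat h1 h2 (MonoidHom.id (GL (Fin 2) A)) (MonoidHom.id (GL (Fin 2) A))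
    fun n => ?_
  obtain ⟨k, hk⟩ := hn n
  refine ⟨_, inferInstance, Matrix.GeneralLinearGroup.map (Ideal.Quotient.mk (J ^ (k + 1))),
    pow_mem hC hsol J hJ k, fun g hg hg' _ _ hg1 => ?_⟩
  apply Units.ext
  ext i j
  rw [Units.val_one]
  have hb : ∀ {deg : A → WithBot ℤ} (_ : IsDeg deg), (∀ i j, deg (g i j) ≤ n) →
      deg (((g : Matrix (Fin 2) (Fin 2) A) - 1) i j) ≤ n := by
    intro deg h hg
    rw [Matrix.sub_apply]
    refine (h.sub _ _).trans (max_le (hg i j) ?_)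
    rw [Matrix.one_apply]
    split_ifs
    · rw [h.one]
      exact_mod_cast Nat.zero_le n
    · rw [(h.bot 0).2 rfl]
      exact bot_le
  have h3 : ((g : Matrix (Fin 2) (Fin 2) A) - 1) i j = 0 := by
    refine hk _ ?_ (hb h1 hg) (hb h2 hg')
    have h4 : Ideal.Quotient.mk (J ^ (k + 1)) (((g : Matrix (Fin 2) (Fin 2) A) - 1) i j) = 0 := by
      rw [Matrix.sub_apply, map_sub]
      have h5 := map_entry (Ideal.Quotient.mk (J ^ (k + 1))) g i j
      rw [hg1] at h5
      rw [← h5]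
      have h2 : ((1 : GL (Fin 2) (A ⧸ J ^ (k + 1))) : Matrix (Fin 2) (Fin 2) _) i j =
        Ideal.Quotient.mk (J ^ (k + 1)) ((1 : Matrix (Fin 2) (Fin 2) A) i j) := by
        rw [Units.val_one, Matrix.one_apply, Matrix.one_apply]
        split_ifs
        · rw [map_one]
        · rw [map_zero]
      rw [← h2]
      exact sub_self _
    exact Ideal.pow_le_pow_right (Nat.le_succ k) (Ideal.Quotient.eq_zero_iff_mem.1 h4)
  rw [Matrix.sub_apply, sub_eq_zero] at h3
  exact h3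

/-- **noetherian domains with finite dimensional pieces** -/
theorem two_fin (hC : ClosedE C) (hF : FbC C) (hcat : CatC C)
    (hsol : ∀ (S : Type) [Group S], Group.IsSolvable S → C S)
    (K : Type) {A : Type} [Field K] [CommRing A] [IsDomain A] [IsNoetherianRing A] [Algebra K A]
    {deg1 deg2 : A → WithBot ℤ} (h1 : IsDeg deg1) (h2 : IsDeg deg2)
    (hfd : ∀ n : ℕ, ∃ V : Submodule K A, FiniteDimensional K V ∧
      ∀ x, deg1 x ≤ n → deg2 x ≤ n → x ∈ V)
    (J : Ideal A) (hJ1 : J ≠ ⊤) (hJ : C (GL (Fin 2) (A ⧸ J))) : C (GL (Fin 2) A) := by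
  refine two_ring hC hF hcat hsol h1 h2 J hJ fun n => ?_
  obtain ⟨V, hV, hVn⟩ := hfd n
  obtain ⟨F, hF⟩ : ∃ F : ℕ →o (Submodule K V)ᵒᵈ, ∀ k, F k = OrderDual.toDual
      (((J ^ k).restrictScalars K).comap V.subtype) :=
    ⟨⟨fun k => OrderDual.toDual (((J ^ k).restrictScalars K).comap V.subtype), fun a b hab => by
      show ((J ^ b).restrictScalars K).comap V.subtype ≤ ((J ^ a).restrictScalars K).comap V.subtype
      intro x hx
      exact Ideal.pow_le_pow_right hab hx⟩, fun k => rfl⟩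
  obtain ⟨k, hk⟩ := IsArtinian.monotone_stabilizes F
  refine ⟨k, fun x hx hd hd' => ?_⟩
  have h1 : ∀ m, x ∈ J ^ m := by
    intro m
    by_cases hm : k ≤ m
    · have h2 := hk m hm
      rw [hF, hF] at h2
      have h3 : (⟨x, hVn x hd hd'⟩ : V) ∈ ((J ^ k).restrictScalars K).comap V.subtype := hx
      have h4 : ((J ^ k).restrictScalars K).comap V.subtype =
        ((J ^ m).restrictScalars K).comap V.subtype := congrArg OrderDual.ofDual h2
      rw [h4] at h3
      exact h3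
    · exact Ideal.pow_le_pow_right (not_le.1 hm).le hx
  have h2 : x ∈ (⨅ i : ℕ, J ^ i) := by
    rw [Ideal.mem_iInf]
    exact h1
  rw [Ideal.iInf_pow_eq_bot_of_isDomain J hJ1, Ideal.mem_bot] at h2
  exact h2

end Run7.h909.TT
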