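import Pool.Agent.Run7.h909.TT.Gl

/-!
# Laurent polynomials
-/

set_option autoImplicit false

namespace Run7.h909.TT

open Run7.h909.TD Run7.h909.GT
open Pool.Agent.Y110.FJ (ClosedE)
open Pool.Agent.R684.FP (FbC)

open LaurentPolynomial

variable {C : ∀ (G : Type) [Group G], Prop}

section

variable {B : Type} [CommRing B]

theorem coe_le_degree {f : B[T;T⁻¹]} {n : ℤ} (h : f.coeff n ≠ 0) :
    (n : WithBot ℤ) ≤ f.degree :=
  Finset.le_max (Finsupp.mem_support_iff.2 h)

theorem degree_sup (f : B[T;T⁻¹]) :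
    f.degree = f.coeff.support.sup (fun n : ℤ => (n : WithBot ℤ)) := by
  show f.coeff.support.max = _
  rw [Finset.max_eq_sup_withBot]

theorem degree_ex {f : B[T;T⁻¹]} (h : f ≠ 0) :
    ∃ n : ℤ, f.degree = n ∧ f.coeff n ≠ 0 ∧ ∀ m, f.coeff m ≠ 0 → m ≤ n := by
  have h1 : f.degree ≠ ⊥ := fun e => h (degree_eq_bot_iff.1 e)
  obtain ⟨n, hn⟩ := WithBot.ne_bot_iff_exists.1 h1
  refine ⟨n, hn.symm, Finsupp.mem_support_iff.1 (Finset.mem_of_max hn.symm), fun m hm => ?_⟩
  have h2 := coe_le_degree hm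
  rw [← hn, WithBot.coe_le_coe] at h2
  exact h2

/-- the degree of Laurent polynomials -/
theorem lau_isDeg [IsDomain B] : IsDeg (fun f : B[T;T⁻¹] => f.degree) where
  bot f := degree_eq_bot_iff
  add f g := by
    show (f + g).degree ≤ max f.degree g.degree
    rw [degree_sup, degree_sup, degree_sup]
    exact AddMonoidAlgebra.sup_support_coeff_add_le _ f g
  mul f g := by
    show (f * g).degree = f.degree + g.degree
    by_cases hf : f = 0
    · rw [hf, zero_mul, degree_zero, WithBot.bot_add]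
    by_cases hg : g = 0
    · rw [hg, mul_zero, degree_zero, WithBot.add_bot]
    obtain ⟨a, ha, ha0, ham⟩ := degree_ex hf
    obtain ⟨b, hb, hb0, hbm⟩ := degree_ex hg
    apply le_antisymm
    · rw [degree_sup, degree_sup, degree_sup]
      refine AddMonoidAlgebra.sup_support_coeff_mul_le ?_ f g
      intro m n
      exact (WithBot.coe_add m n).le
    · rw [ha, hb, ← WithBot.coe_add]
      apply coe_le_degree
      rw [AddMonoidAlgebra.coeff_mul_add_of_uniqueAdd]
      · exact mul_ne_zero ha0 hb0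
      · intro m n hm hn he
        have h1 := ham m (Finsupp.mem_support_iff.1 hm)
        have h2 := hbm n (Finsupp.mem_support_iff.1 hn)
        constructor <;> omega

/-- the degree in the inverse of the variable -/
theorem lau_isDeg' [IsDomain B] : IsDeg (fun f : B[T;T⁻¹] => (invert f).degree) where
  bot f := by
    show (invert f).degree = ⊥ ↔ _
    rw [degree_eq_bot_iff]
    exact map_eq_zero_iff _ (invert (R := B)).injective
  add f g := by
    show (invert (f + g)).degree ≤ max (invert f).degree (invert g).degree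
    rw [map_add]
    exact lau_isDeg.add _ _
  mul f g := by
    show (invert (f * g)).degree = (invert f).degree + (invert g).degree
    rw [map_mul]
    exact lau_isDeg.mul _ _

/-- evaluation at one -/
noncomputable def ev1 (B : Type) [CommRing B] : B[T;T⁻¹] →+* B := eval₂ (RingHom.id B) 1

theorem ev1_dvd {f : B[T;T⁻¹]} (h : ev1 B f = 0) : (T 1 - 1 : B[T;T⁻¹]) ∣ f := by
  obtain ⟨n, p, hp⟩ := exists_T_pow f
  have h1 : ev1 B (Polynomial.toLaurent p) = 0 := by
    rw [hp, map_mul, h, zero_mul]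
  have h2 : p.eval 1 = 0 := by
    unfold ev1 at h1
    rw [eval₂_toLaurent] at h1
    exact h1
  have h3 : (Polynomial.X - Polynomial.C 1 : Polynomial B) ∣ p := Polynomial.dvd_iff_isRoot.2 h2
  obtain ⟨q, hq⟩ := h3
  have h4 : f * T n = (T 1 - 1) * Polynomial.toLaurent q := by
    rw [← hp, hq, map_mul, map_sub, Polynomial.toLaurent_X, Polynomial.toLaurent_C, map_one]
  refine ⟨Polynomial.toLaurent q * T (-n), ?_⟩
  rw [← mul_assoc, ← h4, mul_T_assoc, add_neg_cancel, T_zero, mul_one]

end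

/-- **Laurent polynomials** -/
theorem lau_mem (hC : ClosedE C) (hF : FbC C) (hcat : CatC C)
    (hsol : ∀ (S : Type) [Group S], Group.IsSolvable S → C S)
    {B : Type} [CommRing B] [IsDomain B] (h : C (GL (Fin 2) B)) :
    C (GL (Fin 2) B[T;T⁻¹]) := by
  refine two_ring hC hF hcat hsol (lau_isDeg (B := B)) (lau_isDeg' (B := B)) (RingHom.ker (ev1 B))
    ?_ ?_
  · exact hC.base.of_injective _ _ (Matrix.GeneralLinearGroup.map (RingHom.kerLift (ev1 B)))
      (map_inj _ (RingHom.kerLift_injective (ev1 B))) h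
  · intro n
    refine ⟨2 * n + 1, fun x hx hd1 hd2 => ?_⟩
    have h1 : RingHom.ker (ev1 B) ≤ Ideal.span {(T 1 - 1 : B[T;T⁻¹])} := by
      intro y hy
      rw [Ideal.mem_span_singleton]
      exact ev1_dvd hy
    have h2 : x ∈ (Ideal.span {(T 1 - 1 : B[T;T⁻¹])}) ^ (2 * n + 1) :=
      Ideal.pow_right_mono h1 (2 * n + 1) hx
    rw [Ideal.span_singleton_pow, Ideal.mem_span_singleton] at h2
    obtain ⟨y, hy⟩ := h2
    by_contra hx0
    have hy0 : y ≠ 0 := fun e => hx0 (by rw [hy, e, mul_zero])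
    -- the degrees of the cofactor
    obtain ⟨a, ha, ha0, ham⟩ := degree_ex hy0
    have hb : ((-a : ℤ) : WithBot ℤ) ≤ (invert y).degree := by
      apply coe_le_degree
      rw [invert_apply, neg_neg]
      exact ha0
    have key : ∀ {deg : B[T;T⁻¹] → WithBot ℤ} (_ : IsDeg deg) (m : ℤ) (z : B[T;T⁻¹]) (k : ℕ),
        (m : WithBot ℤ) ≤ deg z → ((k * m : ℤ) : WithBot ℤ) ≤ deg (z ^ k) := by
      intro deg hdeg m z k hz
      induction k with
      | zero =>
        rw [pow_zero, hdeg.one]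
        simp
      | succ k ih =>
        rw [pow_succ, hdeg.mul]
        have e : ((k + 1 : ℕ) : ℤ) * m = k * m + m := by push_cast; ring
        rw [e, WithBot.coe_add]
        exact add_le_add ih hz
    have k1 : ((1 : ℤ) : WithBot ℤ) ≤ (T 1 - 1 : B[T;T⁻¹]).degree := by
      apply coe_le_degree
      rw [← T_zero, AddMonoidAlgebra.coeff_sub]
      simp [-T_zero]
    have k2 : ((0 : ℤ) : WithBot ℤ) ≤ (invert (T 1 - 1 : B[T;T⁻¹])).degree := by
      apply coe_le_degree
      rw [invert_apply, ← T_zero, AddMonoidAlgebra.coeff_sub]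
      simp [-T_zero]
    have l1 := key (lau_isDeg (B := B)) 1 _ (2 * n + 1) k1
    have l2 := key (lau_isDeg' (B := B)) 0 _ (2 * n + 1) k2
    have m1 : (((2 * n + 1 : ℕ) * 1 + a : ℤ) : WithBot ℤ) ≤ x.degree := by
      rw [hy]
      refine le_trans ?_ ((lau_isDeg (B := B)).mul ((T 1 - 1) ^ (2 * n + 1)) y).ge
      rw [WithBot.coe_add]
      exact add_le_add l1 ha.ge
    have m2 : (((2 * n + 1 : ℕ) * 0 + -a : ℤ) : WithBot ℤ) ≤ (invert x).degree := by
      rw [hy]
      refine le_trans ?_ ((lau_isDeg' (B := B)).mul ((T 1 - 1) ^ (2 * n + 1)) y).ge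
      rw [WithBot.coe_add]
      exact add_le_add l2 hb
    have n1 : (((2 * n + 1 : ℕ) * 1 + a : ℤ) : WithBot ℤ) ≤ ((n : ℤ) : WithBot ℤ) :=
      m1.trans hd1
    have n2 : (((2 * n + 1 : ℕ) * 0 + -a : ℤ) : WithBot ℤ) ≤ ((n : ℤ) : WithBot ℤ) :=
      m2.trans hd2
    rw [WithBot.coe_le_coe] at n1 n2
    push_cast at n1 n2
    omega

end Run7.h909.TT
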