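import Pool.Agent.Run7.h909.TT.Lau

/-!
# Monoid rings
-/

set_option autoImplicit false

namespace Run7.h909.TT

open Run7.h909.TD Run7.h909.GT
open Pool.Agent.Y110.FJ (ClosedE)
open Pool.Agent.R684.FP (FbC)

variable {C : ∀ (G : Type) [Group G], Prop}

/-- subrings -/
theorem ring_inj (hC : ClosedE C) {A A' : Type} [CommRing A] [CommRing A'] (φ : A →+* A')
    (h : Function.Injective φ) (h' : C (GL (Fin 2) A')) : C (GL (Fin 2) A) :=
  hC.base.of_injective _ _ (Matrix.GeneralLinearGroup.map φ) (map_inj _ h) h'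

/-- images of rings -/
theorem range_mem (hC : ClosedE C) {A A' A'' : Type} [Ring A] [CommRing A'] [CommRing A'']
    (φ : A →+* A') (h : Function.Injective φ) (ψ : A →+* A'') (h0 : Function.Injective ψ)
    (h' : C (GL (Fin 2) A'')) : C (GL (Fin 2) φ.range) := by
  obtain ⟨χ, hχ⟩ : ∃ χ : φ.range →+* A, Function.Injective χ :=
    ⟨(RingEquiv.ofBijective φ.rangeRestrict ⟨fun x y hxy => h (congrArg Subtype.val hxy),
      φ.rangeRestrict_surjective⟩).symm.toRingHom, RingEquiv.injective _⟩
  exact ring_inj hC (ψ.comp χ) (h0.comp hχ) h'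

/-- directed unions of rings -/
theorem union_mem (hC : ClosedE C) {A I : Type} [CommRing A] [Preorder I] [Nonempty I]
    (hI : ∀ i j : I, ∃ k, i ≤ k ∧ j ≤ k) (B : I → Subring A) (hB : Monotone B)
    (hu : ∀ x : A, ∃ i, x ∈ B i) (h : ∀ i, C (GL (Fin 2) (B i))) : C (GL (Fin 2) A) := by
  refine Pool.Agent.Y430.SS.of_directed hC.base (GL (Fin 2) A) I hI
    (fun i => (Matrix.GeneralLinearGroup.map (n := Fin 2) (B i).subtype).range) ?_ ?_ ?_
  · intro i j hij
    rintro g ⟨k, rfl⟩
    refine ⟨Matrix.GeneralLinearGroup.map (Subring.inclusion (hB hij)) k, ?_⟩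
    ext a b
    rfl
  · intro g
    have hfam : ∀ {n : ℕ} (x : Fin n → A), ∃ i, ∀ a, x a ∈ B i := by
      intro n
      induction n with
      | zero => exact fun x => ⟨Classical.arbitrary I, fun a => a.elim0⟩
      | succ n ih =>
        intro x
        obtain ⟨i, hi⟩ := ih (fun a => x a.succ)
        obtain ⟨j, hj⟩ := hu (x 0)
        obtain ⟨k, hik, hjk⟩ := hI i j
        refine ⟨k, fun a => ?_⟩
        refine Fin.cases ?_ (fun b => ?_) a
        · exact hB hjk hj
        · exact hB hik (hi b)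
    obtain ⟨i, hi⟩ := hfam ![g 0 0, g 0 1, g 1 0, g 1 1]
    obtain ⟨j, hj⟩ := hfam ![g⁻¹ 0 0, g⁻¹ 0 1, g⁻¹ 1 0, g⁻¹ 1 1]
    obtain ⟨k, hik, hjk⟩ := hI i j
    have e1 : ∀ a b, g a b ∈ B k := by
      intro a b
      fin_cases a <;> fin_cases b
      · exact hB hik (hi 0)
      · exact hB hik (hi 1)
      · exact hB hik (hi 2)
      · exact hB hik (hi 3)
    have e2 : ∀ a b, g⁻¹ a b ∈ B k := by
      intro a b
      fin_cases a <;> fin_cases b
      · exact hB hjk (hj 0)
      · exact hB hjk (hj 1)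
      · exact hB hjk (hj 2)
      · exact hB hjk (hj 3)
    have key : ∀ (u v : GL (Fin 2) A) (hu : ∀ a b, u a b ∈ B k) (hv : ∀ a b, v a b ∈ B k),
        u * v = 1 → (Matrix.of fun a b => (⟨u a b, hu a b⟩ : B k)) *
          (Matrix.of fun a b => (⟨v a b, hv a b⟩ : B k)) = 1 := by
      intro u v hu hv huv
      ext a b
      have h1 := congrArg (fun m : GL (Fin 2) A => (m : Matrix (Fin 2) (Fin 2) A) a b) huv
      simp only [Units.val_mul, Matrix.mul_apply, Fin.sum_univ_two, Units.val_one] at h1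
      simp only [Matrix.mul_apply, Fin.sum_univ_two, Matrix.of_apply, Subring.coe_add,
        Subring.coe_mul]
      rw [h1, Matrix.one_apply, Matrix.one_apply]
      split_ifs <;> rfl
    refine ⟨k, ⟨Matrix.of fun a b => (⟨g a b, e1 a b⟩ : B k),
      Matrix.of fun a b => (⟨g⁻¹ a b, e2 a b⟩ : B k), key g g⁻¹ e1 e2 (mul_inv_cancel g),
      key g⁻¹ g e2 e1 (inv_mul_cancel g)⟩, ?_⟩
    ext a b
    rfl
  · intro i
    have hinj := map_inj (B i).subtype (Subring.subtype_injective (B i))
    refine hC.base.of_injective _ (GL (Fin 2) (B i))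
      (MonoidHom.ofInjective hinj).symm.toMonoidHom ?_ (h i)
    exact (MonoidHom.ofInjective hinj).symm.injective

/-- group rings of finitely generated free abelian groups -/
theorem free_mem (hC : ClosedE C) (hF : FbC C) (hcat : CatC C)
    (hsol : ∀ (S : Type) [Group S], Group.IsSolvable S → C S)
    {B : Type} [CommRing B] [IsDomain B] (h : C (GL (Fin 2) B)) (n : ℕ) :
    C (GL (Fin 2) (AddMonoidAlgebra B (Fin n → ℤ))) := by
  induction n with
  | zero =>
    refine ring_inj hC (AddMonoidAlgebra.uniqueRingEquiv (R := B) (Fin 0 → ℤ)).toRingHom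
      (AddMonoidAlgebra.uniqueRingEquiv (R := B) (Fin 0 → ℤ)).injective h
  | succ n ih =>
    have h1 := lau_mem hC hF hcat hsol (B := AddMonoidAlgebra B (Fin n → ℤ)) ih
    let e : (Fin (n + 1) → ℤ) ≃+ (ℤ × (Fin n → ℤ)) :=
      { (Fin.consEquiv (fun _ => ℤ)).symm with
        map_add' := fun x y => rfl }
    refine ring_inj hC (((AddMonoidAlgebra.mapDomainRingEquiv B e).trans
      (AddMonoidAlgebra.curryRingEquiv (R := B) (M := ℤ) (N := Fin n → ℤ))).toRingHom) ?_ h1
    exact RingEquiv.injective _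

/-- finitely generated monoids -/
theorem emb_fg (N : Type) [hN : AddCommMonoid N] [IsCancelAdd N] [IsAddTorsionFree N]
    [AddMonoid.FG N] : ∃ n : ℕ, ∃ e : N →+ (Fin n → ℤ), Function.Injective e := by
  let _ : AddCancelCommMonoid N := { hN with add_left_cancel := fun a => add_right_injective a }
  refine ⟨AffineAddMonoid.dim N,
    ((FreeAbelianGroup.equivFinsupp (Fin (AffineAddMonoid.dim N))).trans
    (Finsupp.linearEquivFunOnFinite ℤ ℤ
      (Fin (AffineAddMonoid.dim N))).toAddEquiv).toAddMonoidHom.comp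
    (AffineAddMonoid.embedding N), ?_⟩
  rw [AddMonoidHom.coe_comp]
  exact (AddEquiv.injective _).comp AffineAddMonoid.embedding_injective

/-- **monoid rings** -/
theorem mon_mem (hC : ClosedE C) (hF : FbC C) (hcat : CatC C)
    (hsol : ∀ (S : Type) [Group S], Group.IsSolvable S → C S)
    {B : Type} [CommRing B] [IsDomain B] (h : C (GL (Fin 2) B)) (M : Type)
    [AddCommMonoid M] [IsCancelAdd M] [IsAddTorsionFree M] :
    C (GL (Fin 2) (AddMonoidAlgebra B M)) := by
  classical
  -- finitely generated monoids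
  have hfg : ∀ N : AddSubmonoid M, N.FG → ∃ n : ℕ, ∃ e : N →+ (Fin n → ℤ),
      Function.Injective e := by
    intro N hN
    have hFG : AddMonoid.FG N := (AddMonoid.fg_iff_addSubmonoid_fg _).2 hN
    have h1 : IsCancelAdd N :=
      { add_left_cancel := fun a b c h => Subtype.ext (add_left_cancel (congrArg Subtype.val h))
        add_right_cancel := fun a b c h => Subtype.ext (add_right_cancel (congrArg Subtype.val h)) }
    have h2 : IsAddTorsionFree N :=
      ⟨fun n hn a b hab => Subtype.ext (IsAddTorsionFree.nsmul_right_injective hn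
        (congrArg Subtype.val hab))⟩
    exact emb_fg N
  have hfg' : ∀ N : AddSubmonoid M, N.FG →
      C (GL (Fin 2) (AddMonoidAlgebra.mapDomainRingHom B N.subtype).range) := by
    intro N hN
    obtain ⟨n, e, he⟩ := hfg N hN
    exact range_mem hC _ (AddMonoidAlgebra.mapDomain_injective Subtype.val_injective)
      (AddMonoidAlgebra.mapDomainRingHom B e) (AddMonoidAlgebra.mapDomain_injective he)
      (free_mem hC hF hcat hsol h n)
  refine union_mem hC (I := Finset M) (fun i j => ⟨i ∪ j, Finset.subset_union_left,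
    Finset.subset_union_right⟩) (fun S => (AddMonoidAlgebra.mapDomainRingHom B
      (AddSubmonoid.closure (S : Set M)).subtype).range) ?_ ?_ ?_
  · intro S S' hS
    rintro x ⟨y, rfl⟩
    have hle : AddSubmonoid.closure (S : Set M) ≤ AddSubmonoid.closure (S' : Set M) :=
      AddSubmonoid.closure_mono (by exact_mod_cast hS)
    refine ⟨AddMonoidAlgebra.mapDomainRingHom B (AddSubmonoid.inclusion hle) y, ?_⟩
    rw [← RingHom.comp_apply, ← AddMonoidAlgebra.mapDomainRingHom_comp]
    rfl
  · intro x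
    refine ⟨x.coeff.support, ?_⟩
    have hx : x = ∑ m ∈ x.coeff.support, AddMonoidAlgebra.single m (x.coeff m) :=
      (AddMonoidAlgebra.sum_coeff_single x).symm
    obtain ⟨R, hR⟩ : ∃ R : Subring (AddMonoidAlgebra B M), R = (AddMonoidAlgebra.mapDomainRingHom B
      (AddSubmonoid.closure (x.coeff.support : Set M)).subtype).range := ⟨_, rfl⟩
    show x ∈ (AddMonoidAlgebra.mapDomainRingHom B
      (AddSubmonoid.closure (x.coeff.support : Set M)).subtype).range
    rw [← hR, hx]
    refine Subring.sum_mem _ fun m hm => ?_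
    rw [hR]
    refine ⟨AddMonoidAlgebra.single ⟨m, AddSubmonoid.subset_closure hm⟩ (x.coeff m), ?_⟩
    simp
  · intro S
    exact hfg' _ ⟨S, rfl⟩

end Run7.h909.TT
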