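import Pool.Agent.Run7.h909.TT.Away

/-!
# Inverting a prime element of a polynomial ring
-/

set_option autoImplicit false

namespace Run7.h909.TT

open Run7.h909.TD Run7.h909.GT
open Pool.Agent.Y110.FJ (ClosedE)
open Pool.Agent.R684.FP (FbC)

variable {C : ∀ (G : Type) [Group G], Prop}

section

variable {A σ : Type} [CommRing A] (b : σ → A)

/-- homogenization at a point -/
noncomputable def hb : MvPolynomial σ A →+* Polynomial (MvPolynomial σ A) :=
  MvPolynomial.eval₂Hom (Polynomial.C.comp MvPolynomial.C)
    (fun i => Polynomial.C (MvPolynomial.C (b i)) +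
      Polynomial.C (MvPolynomial.X i - MvPolynomial.C (b i)) * Polynomial.X)

theorem hb_eval (p : MvPolynomial σ A) : (hb b p).eval 1 = p := by
  have h1 : (Polynomial.evalRingHom (1 : MvPolynomial σ A)).comp (hb b) = RingHom.id _ := by
    apply MvPolynomial.ringHom_ext
    · intro r
      simp [hb]
    · intro i
      simp [hb]
  exact congrArg (fun f => f p) h1

theorem hb_coeff (p : MvPolynomial σ A) :
    (hb b p).coeff 0 = MvPolynomial.C (MvPolynomial.eval b p) := by
  rw [Polynomial.coeff_zero_eq_eval_zero]
  have h1 : (Polynomial.evalRingHom (0 : MvPolynomial σ A)).comp (hb b) =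
      (MvPolynomial.C).comp (MvPolynomial.eval b) := by
    apply MvPolynomial.ringHom_ext
    · intro r
      simp [hb]
    · intro i
      simp [hb]
  exact congrArg (fun f => f p) h1

end

/-- **inverting a prime element of a polynomial ring** -/
theorem mv_away (hC : ClosedE C) (hF : FbC C) (hcat : CatC C)
    (hsol : ∀ (S : Type) [Group S], Group.IsSolvable S → C S)
    {A σ : Type} [CommRing A] [IsDomain A] (f : MvPolynomial σ A) (hf : Prime f)
    (hfd : 0 < f.totalDegree) (b : σ → A) (hb0 : MvPolynomial.eval b f ≠ 0)
    (h : C (GL (Fin 2) (Localization.Away (MvPolynomial.eval b f)))) :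
    C (GL (Fin 2) (Localization.Away f)) := by
  have hM : Submonoid.powers (MvPolynomial.eval b f) ≤ nonZeroDivisors A :=
    powers_le_nonZeroDivisors_of_noZeroDivisors hb0
  have hinj : Function.Injective
      (algebraMap A (Localization.Away (MvPolynomial.eval b f))) :=
    IsLocalization.injective _ hM
  have hnt : Nontrivial (Localization.Away (MvPolynomial.eval b f)) := hinj.nontrivial
  have hu : IsUnit (((algebraMap A (Localization.Away (MvPolynomial.eval b f))).comp
      (MvPolynomial.eval b)) f) := IsLocalization.Away.algebraMap_isUnit (MvPolynomial.eval b f)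
  obtain ⟨ψ, hψ⟩ : ∃ ψ : Localization.Away f →+* Localization.Away (MvPolynomial.eval b f),
      ∀ x, ψ (algebraMap _ _ x) = algebraMap _ _ (MvPolynomial.eval b x) :=
    ⟨IsLocalization.Away.lift f hu, fun x => IsLocalization.Away.lift_eq f hu x⟩
  have hφ : Function.Injective (hb b) := by
    intro p q e
    rw [← hb_eval b p, ← hb_eval b q, e]
  refine emb_away hC hF hcat hsol (hb b) hφ f hf ?_ ψ ?_ h
  · by_contra h0
    have h1 : (hb b f).natDegree = 0 := by omega
    have h2 := Polynomial.eq_C_of_natDegree_eq_zero h1
    have h3 := hb_eval b f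
    rw [h2, Polynomial.eval_C, hb_coeff] at h3
    rw [← h3, MvPolynomial.totalDegree_C] at hfd
    exact lt_irrefl _ hfd
  · intro x
    rw [hψ, hb_coeff, map_eq_zero_iff _ hinj]
    exact (map_eq_zero_iff _ (MvPolynomial.C_injective σ A)).symm

end Run7.h909.TT
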