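import Pool.Agent.Run7.h909.TT.Tree
import Pool.Agent.R684.FP.Free
import Pool.Agent.H40R2.Zd.Serre

/-!
# The exponent of the ramification
-/

set_option autoImplicit false

namespace Run7.h909.TT

open SimpleGraph Run7.h909.TD

theorem fin_mod {ι β : Type} (f : ι → β) (v : ι → ℤ) (n : ℕ) (hn : 0 < n)
    (h : ∀ i j, (n : ℤ) ∣ v i - v j → f i = f j) : (Set.range f).Finite := by
  classical
  rcases isEmpty_or_nonempty ι with hι | ⟨⟨i0⟩⟩
  · rw [Set.range_eq_empty]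
    exact Set.finite_empty
  · refine Set.Finite.subset ((Set.finite_Ico (0 : ℤ) n).image fun r =>
      if h : ∃ i, v i % n = r then f h.choose else f i0) ?_
    rintro _ ⟨i, rfl⟩
    refine ⟨v i % n, ⟨Int.emod_nonneg _ (by omega), Int.emod_lt_of_pos _ (by omega)⟩, ?_⟩
    have hex : ∃ j, v j % n = v i % n := ⟨i, rfl⟩
    show (if h : ∃ j, v j % n = v i % n then f h.choose else f i0) = f i
    rw [dif_pos hex]
    exact h _ _ (Int.ModEq.dvd (show v i ≡ v hex.choose [ZMOD n] from hex.choose_spec.symm))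

section

variable {H V Θ : Type} [Group H] [MulAction H V] {T : SimpleGraph V} {F : Set (ℤ → V)}
  {τ : V → Θ} {δ : Θ → Θ → Bool}

/-- cocompact actions with a homomorphism to the integers which is injective on the stabilizers -/
structure Cc (H : Type) [Group H] {V Θ : Type} [MulAction H V] (T : SimpleGraph V)
    (F : Set (ℤ → V)) (τ : V → Θ) (δ : Θ → Θ → Bool) (f : H →* Multiplicative ℤ) : Prop where
  vh : VH T F τ δ
  sc : SC T F
  ac : Ac H T F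
  ht : ∀ (h : H) (x : V), τ (h • x) = τ x
  inj : ∀ (h : H) (x : V), h • x = x → f h = 1 → h = 1
  fe : ∃ E : Set (V × V), E.Finite ∧ ∀ x y, T.Adj x y → ∃ g : H, (g • x, g • y) ∈ E
  ff : ∃ P : Set (ℤ → V), P.Finite ∧ ∀ φ ∈ F, ∃ g : H, (fun i => g • φ i) ∈ P

variable {f : H →* Multiplicative ℤ}

theorem Cc.ext (D : Cc H T F τ δ f) {x : V} {g h : H} (hg : g • x = x) (hh : h • x = x)
    (hv : vl f g = vl f h) : g = h := by
  have h1 : (g * h⁻¹) • x = x := mul_fix hg (inv_fix hh)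
  have h2 : f (g * h⁻¹) = 1 := by
    rw [← vl_eq_zero, vl_mul, vl_inv, hv, add_neg_cancel]
  exact mul_inv_eq_one.1 (D.inj _ x h1 h2)

theorem Cc.ex1 (D : Cc H T F τ δ f) : ∃ m : ℕ, 0 < m ∧ ∀ x y, T.Adj x y →
    (∃ g : H, g ≠ 1 ∧ g • x = x ∧ g • y = y) → ∀ h : H, h • x = x → (m : ℤ) ∣ vl f h →
      h • y = y := by
  classical
  obtain ⟨E, hE, hE'⟩ := D.fe
  -- an exponent for each pair
  have key : ∀ e : V × V, ∃ m : ℕ, 0 < m ∧ ((∃ g : H, g ≠ 1 ∧ g • e.1 = e.1 ∧ g • e.2 = e.2) →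
      ∀ h : H, h • e.1 = e.1 → (m : ℤ) ∣ vl f h → h • e.2 = e.2) := by
    intro e
    by_cases hex : ∃ g : H, g ≠ 1 ∧ g • e.1 = e.1 ∧ g • e.2 = e.2
    · obtain ⟨g, hg, h1, h2⟩ := hex
      have hv : vl f g ≠ 0 := fun h0 => hg (D.inj g _ h1 ((vl_eq_zero f g).1 h0))
      refine ⟨(vl f g).natAbs, Int.natAbs_pos.2 hv, fun _ h hh hd => ?_⟩
      rw [Int.natCast_natAbs, abs_dvd] at hd
      obtain ⟨m, hm⟩ := hd
      have : h = g ^ m := D.ext hh (zpow_fix h1 m) (by rw [hm, vl_zpow, mul_comm])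
      rw [this]
      exact zpow_fix h2 m
    · exact ⟨1, one_pos, fun h => absurd h hex⟩
  choose m hm0 hm using key
  refine ⟨∏ e ∈ hE.toFinset, m e, Finset.prod_pos fun e _ => hm0 e, ?_⟩
  rintro x y hxy ⟨g, hg, h1, h2⟩ h hh hd
  obtain ⟨g0, hg0⟩ := hE' x y hxy
  have hdv : ((m (g0 • x, g0 • y) : ℕ) : ℤ) ∣ vl f h := by
    refine dvd_trans ?_ hd
    exact_mod_cast Finset.dvd_prod_of_mem m (hE.mem_toFinset.2 hg0)
  have h3 := hm (g0 • x, g0 • y) ⟨g0 * g * g0⁻¹, by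
      intro he
      apply hg
      have : g0 * g = g0 := mul_inv_eq_one.1 he
      exact mul_eq_left.1 this, by
      show (g0 * g * g0⁻¹) • g0 • x = g0 • x
      rw [mul_smul, mul_smul, inv_smul_smul, h1], by
      show (g0 * g * g0⁻¹) • g0 • y = g0 • y
      rw [mul_smul, mul_smul, inv_smul_smul, h2]⟩ (g0 * h * g0⁻¹) (by
      show (g0 * h * g0⁻¹) • g0 • x = g0 • x
      rw [mul_smul, mul_smul, inv_smul_smul, hh]) (by rw [vl_conj]; exact hdv)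
  have h4 : (g0 * h * g0⁻¹) • g0 • y = g0 • y := h3
  rw [mul_smul, mul_smul, inv_smul_smul] at h4
  exact smul_left_cancel g0 h4

/-- the faces at an edge with trivial stabilizer -/
theorem Cc.fin_face (D : Cc H T F τ δ f) {x y : V} (hxy : ∀ g : H, g • x = x → g • y = y → g = 1) :
    {ψ | ψ ∈ F ∧ ψ 0 = x ∧ ψ 1 = y}.Finite := by
  classical
  obtain ⟨P, hP, hP'⟩ := D.ff
  choose! g hg using hP'
  refine Set.Finite.of_finite_image (f := fun ψ => (fun i => g ψ • ψ i : ℤ → V))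
    (hP.subset ?_) ?_
  · rintro _ ⟨ψ, ⟨h1, h2, h3⟩, rfl⟩
    exact hg ψ h1
  · rintro ψ ⟨h1, h2, h3⟩ ψ' ⟨h1', h2', h3'⟩ he
    have e0 : g ψ • ψ 0 = g ψ' • ψ' 0 := congrFun he 0
    have e1 : g ψ • ψ 1 = g ψ' • ψ' 1 := congrFun he 1
    rw [h2, h2'] at e0
    rw [h3, h3'] at e1
    have h4 : (g ψ')⁻¹ * g ψ = 1 := by
      refine hxy _ ?_ ?_
      · rw [mul_smul, e0, inv_smul_smul]
      · rw [mul_smul, e1, inv_smul_smul]
    have h5 : g ψ = g ψ' := by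
      have := inv_mul_eq_one.1 h4
      exact this.symm
    funext i
    have := congrFun he i
    have h6 : g ψ • ψ i = g ψ' • ψ' i := this
    rw [h5] at h6
    exact smul_left_cancel _ h6

theorem Cc.ex2 (D : Cc H T F τ δ f) : ∃ B : ℕ, ∀ φ ∈ F,
    (∀ g : H, g • φ 0 = φ 0 → g • φ 1 = φ 1 → g = 1) →
    (∀ g : H, g • φ 0 = φ 0 → g • φ (-1) = φ (-1) → g = 1) →
    ∀ ψ ∈ F, φ 0 = ψ 0 → φ 1 = ψ 1 → ∀ z : H, z • φ 0 = φ 0 → z • φ (-1) = ψ (-1) →
      (vl f z).natAbs ≤ B := by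
  classical
  obtain ⟨P, hP, hP'⟩ := D.ff
  -- a bound for each face
  have key : ∀ φ : ℤ → V, ∃ B : ℕ, (∀ g : H, g • φ 0 = φ 0 → g • φ 1 = φ 1 → g = 1) →
    (∀ g : H, g • φ 0 = φ 0 → g • φ (-1) = φ (-1) → g = 1) →
    ∀ ψ ∈ F, φ 0 = ψ 0 → φ 1 = ψ 1 → ∀ z : H, z • φ 0 = φ 0 → z • φ (-1) = ψ (-1) →
      (vl f z).natAbs ≤ B := by
    intro φ
    by_cases h1 : ∀ g : H, g • φ 0 = φ 0 → g • φ 1 = φ 1 → g = 1
    · by_cases h2 : ∀ g : H, g • φ 0 = φ 0 → g • φ (-1) = φ (-1) → g = 1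
      · have hfin := (D.fin_face h1).image fun ψ => ψ (-1)
        have hZ : {z : H | z • φ 0 = φ 0 ∧ ∃ ψ ∈ F, φ 0 = ψ 0 ∧ φ 1 = ψ 1 ∧
            z • φ (-1) = ψ (-1)}.Finite := by
          refine Set.Finite.of_finite_image (f := fun z : H => z • φ (-1)) (hfin.subset ?_) ?_
          · rintro _ ⟨z, ⟨-, ψ, h3, h4, h5, h6⟩, rfl⟩
            exact ⟨ψ, ⟨h3, h4.symm, h5.symm⟩, h6.symm⟩
          · rintro z ⟨h3, -⟩ z' ⟨h3', -⟩ he
            have he' : z • φ (-1) = z' • φ (-1) := he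
            have : z'⁻¹ * z = 1 := by
              refine h2 _ ?_ ?_
              · rw [mul_smul, h3]
                exact inv_fix h3'
              · rw [mul_smul, he', inv_smul_smul]
            exact (inv_mul_eq_one.1 this).symm
        obtain ⟨B, hB⟩ := (hZ.image fun z => (vl f z).natAbs).bddAbove
        exact ⟨B, fun _ _ ψ h3 h4 h5 z h6 h7 => hB ⟨z, ⟨h6, ψ, h3, h4, h5, h7⟩, rfl⟩⟩
      · exact ⟨0, fun _ h => absurd h h2⟩
    · exact ⟨0, fun h => absurd h h1⟩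
  choose B hB using key
  refine ⟨∑ φ ∈ hP.toFinset, B φ, ?_⟩
  intro φ hφ h1 h2 ψ hψ h3 h4 z h5 h6
  obtain ⟨g, hg⟩ := hP' φ hφ
  have hle : B (fun i => g • φ i) ≤ ∑ φ ∈ hP.toFinset, B φ :=
    Finset.single_le_sum (f := B) (fun _ _ => Nat.zero_le _) (hP.mem_toFinset.2 hg)
  refine le_trans ?_ hle
  have hcj : ∀ (a : H) (x : V), a • g • x = g • x → (g⁻¹ * a * g) • x = x := by
    intro a x ha
    rw [mul_smul, mul_smul, ha, inv_smul_smul]
  have := hB (fun i => g • φ i) (fun a ha hb => by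
      have := h1 _ (hcj a _ ha) (hcj a _ hb)
      have h7 : g⁻¹ * a = g⁻¹ := by
        have := mul_eq_one_iff_eq_inv.1 this
        exact this
      exact mul_eq_left.1 h7) (fun a ha hb => by
      have := h2 _ (hcj a _ ha) (hcj a _ hb)
      have h7 : g⁻¹ * a = g⁻¹ := by
        have := mul_eq_one_iff_eq_inv.1 this
        exact this
      exact mul_eq_left.1 h7) (fun i => g • ψ i) (D.ac.face g ψ hψ)
    (by show g • φ 0 = g • ψ 0; rw [h3]) (by show g • φ 1 = g • ψ 1; rw [h4]) (g * z * g⁻¹)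
    (by show (g * z * g⁻¹) • g • φ 0 = g • φ 0
        rw [mul_smul, mul_smul, inv_smul_smul, h5])
    (by show (g * z * g⁻¹) • g • φ (-1) = g • ψ (-1)
        rw [mul_smul, mul_smul, inv_smul_smul, h6])
  rwa [vl_conj] at this

/-- the exponent -/
theorem Cc.exn (D : Cc H T F τ δ f) : ∃ n : ℕ, 0 < n ∧
    (∀ x y, T.Adj x y → (∃ g : H, g ≠ 1 ∧ g • x = x ∧ g • y = y) → ∀ h : H, h • x = x →
      (n : ℤ) ∣ vl f h → h • y = y) ∧
    ∀ φ ∈ F, (∀ g : H, g • φ 0 = φ 0 → g • φ 1 = φ 1 → g = 1) →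
    (∀ g : H, g • φ 0 = φ 0 → g • φ (-1) = φ (-1) → g = 1) →
    ∀ ψ ∈ F, φ 0 = ψ 0 → φ 1 = ψ 1 → ∀ z : H, z • φ 0 = φ 0 → z • φ (-1) = ψ (-1) →
      (n : ℤ) ∣ vl f z → z = 1 := by
  obtain ⟨m, hm, h1⟩ := D.ex1
  obtain ⟨B, h2⟩ := D.ex2
  refine ⟨m * (B + 1), Nat.mul_pos hm (Nat.succ_pos B), ?_, ?_⟩
  · intro x y hxy hg h hh hd
    exact h1 x y hxy hg h hh (dvd_trans ⟨(B + 1 : ℤ), by push_cast; ring⟩ hd)
  · intro φ hφ a1 a2 ψ hψ a3 a4 z a5 a6 hd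
    have h3 := h2 φ hφ a1 a2 ψ hψ a3 a4 z a5 a6
    have h4 : vl f z = 0 := by
      by_contra hne
      have h5 : m * (B + 1) ≤ (vl f z).natAbs :=
        Nat.le_of_dvd (Int.natAbs_pos.2 hne) (Int.natCast_dvd.1 hd)
      have h6 : B + 1 ≤ m * (B + 1) := Nat.le_mul_of_pos_left _ hm
      omega
    exact D.inj z _ a5 ((vl_eq_zero f z).1 h4)

end

end Run7.h909.TT
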