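import Pool.Agent.Run7.h909.TT.Cat

/-!
# Quotients of square complexes
-/

set_option autoImplicit false

namespace Run7.h909.TT

open SimpleGraph Run7.h909.TD
open Pool.Agent.H386R3.CC

section

variable {K V W Θ : Type} [Group K] [MulAction K V] {T : SimpleGraph V} {F : Set (ℤ → V)}
  {τ : V → Θ} {δ : Θ → Θ → Bool} {q : V → W}

/-- `q` is the projection to the set of orbits -/
structure Orb (K : Type) [Group K] {V W : Type} [MulAction K V] (q : V → W) : Prop where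
  surj : Function.Surjective q
  eq : ∀ x y, q x = q y ↔ ∃ k : K, k • x = y

/-- the graph of orbits -/
def QT (T : SimpleGraph V) (q : V → W) : SimpleGraph W :=
  SimpleGraph.fromRel fun a b => ∃ x y, T.Adj x y ∧ q x = a ∧ q y = b

/-- the faces of the quotient -/
def QF (F : Set (ℤ → V)) (q : V → W) : Set (ℤ → W) := {ψ | ∃ φ ∈ F, ψ = fun i => q (φ i)}

/-- faces with the same corner modulo the stabilizer agree modulo the stabilizer of an edge -/
def Cor (K : Type) [Group K] {V : Type} [MulAction K V] (F : Set (ℤ → V)) : Prop :=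
  ∀ φ ∈ F, ∀ ψ ∈ F, ∀ z : K, φ 0 = ψ 0 → φ 1 = ψ 1 → z • φ 0 = φ 0 → z • φ (-1) = ψ (-1) →
    ∃ z' : K, z' • φ 0 = φ 0 ∧ z' • φ 1 = φ 1 ∧ z' • φ (-1) = ψ (-1)

theorem q_ne (h : VH T F τ δ) (ht : ∀ (k : K) (x : V), τ (k • x) = τ x) (hq : Orb K q) {x y : V}
    (hxy : T.Adj x y) : q x ≠ q y := by
  intro he
  obtain ⟨k, hk⟩ := (hq.eq x y).1 he
  refine h.adjt x y hxy ?_
  rw [← hk, ht]

theorem QT_adj (h : VH T F τ δ) (ht : ∀ (k : K) (x : V), τ (k • x) = τ x) (hq : Orb K q) {a b : W} :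
    (QT T q).Adj a b ↔ ∃ x y, T.Adj x y ∧ q x = a ∧ q y = b := by
  unfold QT
  rw [SimpleGraph.fromRel_adj]
  constructor
  · rintro ⟨-, ⟨x, y, h1, h2, h3⟩ | ⟨x, y, h1, h2, h3⟩⟩
    · exact ⟨x, y, h1, h2, h3⟩
    · exact ⟨y, x, h1.symm, h3, h2⟩
  · rintro ⟨x, y, h1, h2, h3⟩
    refine ⟨?_, Or.inl ⟨x, y, h1, h2, h3⟩⟩
    rw [← h2, ← h3]
    exact q_ne h ht hq h1

/-- lifts of an edge at a vertex are in one orbit of the stabilizer -/
theorem nbr_orb (h : VH T F τ δ) (hA : Ac K T F) (ht : ∀ (k : K) (x : V), τ (k • x) = τ x)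
    {x y : V} {k : K} (hxy : T.Adj x y) (hk : T.Adj x (k • y)) :
    ∃ z : K, z • x = x ∧ z • y = k • y := by
  rcases h.low x y hxy with h1 | h1
  · exact ⟨1, one_smul _ _, by rw [one_smul, h1 _ hk (ht k y)]⟩
  · have h2 : T.Adj y (k⁻¹ • x) := by
      have := hA.adj k⁻¹ _ _ hk.symm
      rwa [inv_smul_smul] at this
    have h3 := h1 _ h2 (ht _ x)
    refine ⟨k, ?_, rfl⟩
    rw [← h3, smul_inv_smul, h3]

theorem VH.typ (h : VH T F τ δ) {φ : ℤ → V} (hφ : φ ∈ F) {i j : ℤ} (hij : τ (φ i) = τ (φ j)) :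
    (4 : ℤ) ∣ i - j := by
  have hr : (i - j) % 4 = 0 ∨ (i - j) % 4 = 1 ∨ (i - j) % 4 = 2 ∨ (i - j) % 4 = 3 := mod4 _
  have hp := h.per φ hφ
  rcases hr with hr | hr | hr | hr
  · exact Int.dvd_of_emod_eq_zero hr
  · exfalso
    rw [per4_eq hp (i := i) (j := j + 1) (by omega)] at hij
    exact h.adjt _ _ (h.adj φ hφ j) hij.symm
  · exfalso
    rw [per4_eq hp (i := i) (j := j + 2) (by omega)] at hij
    have := h.opp _ (h.shift φ hφ j)
    apply this
    show τ (φ (0 + j)) = τ (φ (2 + j))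
    rw [zero_add, add_comm 2 j, hij]
  · exfalso
    rw [per4_eq hp (i := i) (j := j + 3) (by omega)] at hij
    have h1 := h.adj φ hφ (j + 3)
    rw [per4_eq hp (i := j + 3 + 1) (j := j) (by omega)] at h1
    exact h.adjt _ _ h1 hij

theorem vh_quot (h : VH T F τ δ) (hA : Ac K T F) (ht : ∀ (k : K) (x : V), τ (k • x) = τ x)
    (hq : Orb K q) (hc : Cor K F) {τ' : W → Θ} (hτ : ∀ x, τ' (q x) = τ x) :
    VH (QT T q) (QF F q) τ' δ := by
  have hqk : ∀ (k : K) (x : V), q (k • x) = q x := fun k x => ((hq.eq _ _).2 ⟨k, rfl⟩).symm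
  constructor
  · rintro _ ⟨φ, hφ, rfl⟩ i
    exact (QT_adj h ht hq).2 ⟨_, _, h.adj φ hφ i, rfl, rfl⟩
  · rintro _ ⟨φ, hφ, rfl⟩
    intro i j
    constructor
    · intro hij
      have : τ (φ i) = τ (φ j) := by rw [← hτ, ← hτ]; exact congrArg τ' hij
      exact h.typ hφ this
    · intro hij
      show q (φ i) = q (φ j)
      rw [(h.per φ hφ i j).2 hij]
  · rintro _ ⟨φ, hφ, rfl⟩ k
    exact ⟨_, h.shift φ hφ k, rfl⟩
  · rintro _ ⟨φ, hφ, rfl⟩
    exact ⟨_, h.refl φ hφ, rfl⟩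
  · rintro _ ⟨φ, hφ, rfl⟩ _ ⟨ψ, hψ, rfl⟩ h0 h1 h2
    obtain ⟨k, hk⟩ := (hq.eq _ _).1 h0
    -- first translation
    obtain ⟨φ1, hφ1, e1⟩ : ∃ φ1, φ1 ∈ F ∧ φ1 = fun i => k • φ i := ⟨_, hA.face k φ hφ, rfl⟩
    have q1 : ∀ i, q (φ1 i) = q (φ i) := fun i => by rw [e1]; exact hqk _ _
    have a0 : φ1 0 = ψ 0 := by rw [e1]; exact hk
    have ad : ∀ χ ∈ F, T.Adj (χ 0) (χ 1) ∧ T.Adj (χ 0) (χ (-1)) := by
      intro χ hχ
      have b1 := h.adj χ hχ 0
      have b2 := (h.adj χ hχ (-1)).symm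
      rw [zero_add] at b1
      rw [neg_add_cancel] at b2
      exact ⟨b1, b2⟩
    obtain ⟨k2, hk2⟩ := (hq.eq (φ1 1) (ψ 1)).1 (by rw [q1]; exact h1)
    obtain ⟨z, hz1, hz2⟩ := nbr_orb (k := k2) h hA ht (ad φ1 hφ1).1 (by
      rw [hk2, a0]; exact (ad ψ hψ).1)
    obtain ⟨φ2, hφ2, e2⟩ : ∃ φ2, φ2 ∈ F ∧ φ2 = fun i => z • φ1 i := ⟨_, hA.face z φ1 hφ1, rfl⟩
    have q2 : ∀ i, q (φ2 i) = q (φ i) := fun i => by rw [e2]; exact (hqk _ _).trans (q1 i)
    have c0 : φ2 0 = ψ 0 := by rw [e2, ← a0]; exact hz1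
    have c1 : φ2 1 = ψ 1 := by rw [e2, ← hk2]; exact hz2
    obtain ⟨k3, hk3⟩ := (hq.eq (φ2 (-1)) (ψ (-1))).1 (by rw [q2]; exact h2)
    obtain ⟨y, hy1, hy2⟩ := nbr_orb (k := k3) h hA ht (ad φ2 hφ2).2 (by
      rw [hk3, c0]; exact (ad ψ hψ).2)
    obtain ⟨w, hw0, hw1, hw2⟩ := hc φ2 hφ2 ψ hψ y c0 c1 hy1 (hy2.trans hk3)
    have := h.corner _ (hA.face w φ2 hφ2) ψ hψ (hw0.trans c0) (hw1.trans c1) hw2
    funext i
    show q (φ i) = q (ψ i)
    rw [← q2, ← hqk w]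
    exact congrArg q (congrFun this i)
  · rintro _ ⟨φ, hφ, rfl⟩
    rw [hτ, hτ, hτ]
    exact h.dir φ hφ
  · intro a b hab
    obtain ⟨x, y, h1, rfl, rfl⟩ := (QT_adj h ht hq).1 hab
    rw [hτ, hτ]
    exact h.adjt x y h1
  · rintro _ ⟨φ, hφ, rfl⟩
    rw [hτ, hτ]
    exact h.opp φ hφ
  · intro a b hab
    obtain ⟨x, y, h1, rfl, rfl⟩ := (QT_adj h ht hq).1 hab
    have key : ∀ x y : V, (∀ y', T.Adj x y' → τ y' = τ y → y' = y) →
        ∀ b', (QT T q).Adj (q x) b' → τ' b' = τ' (q y) → b' = q y := by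
      intro x y h2 b' hb' he
      obtain ⟨x1, y1, h3, h4, rfl⟩ := (QT_adj h ht hq).1 hb'
      obtain ⟨k, hk⟩ := (hq.eq _ _).1 h4
      have h5 := hA.adj k _ _ h3
      rw [hk] at h5
      have h6 := h2 _ h5 (by rw [ht, ← hτ y1, ← hτ y, he])
      rw [← hqk k y1, h6]
    rcases h.low x y h1 with h2 | h2
    · exact Or.inl (key x y h2)
    · exact Or.inr (key y x h2)

theorem sc_quot (h : VH T F τ δ) (hA : Ac K T F) (ht : ∀ (k : K) (x : V), τ (k • x) = τ x)
    (hq : Orb K q) (hs : SC T F) (hgen : Subgroup.closure {k : K | ∃ x : V, k • x = x} = ⊤) :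
    SC (QT T q) (QF F q) := by
  have hqk : ∀ (k : K) (x : V), q (k • x) = q x := fun k x => ((hq.eq _ _).2 ⟨k, rfl⟩).symm
  have hreach : ∀ x y, (QT T q).Reachable (q x) (q y) := by
    intro x y
    have hr := hs.1.preconnected x y
    rw [reachable_iff_reflTransGen] at hr
    induction hr with
    | refl => exact Reachable.refl _
    | tail _ hbc ih => exact ih.trans ((QT_adj h ht hq).2 ⟨_, _, hbc, rfl, rfl⟩).reachable
  obtain ⟨o⟩ := hs.1.nonempty
  refine ⟨?_, ?_⟩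
  · have : Nonempty W := ⟨q o⟩
    refine ⟨fun a b => ?_⟩
    obtain ⟨x, rfl⟩ := hq.surj a
    obtain ⟨y, rfl⟩ := hq.surj b
    exact hreach x y
  · intro L _ c hc
    have hc' : Coc T F (fun x y => c (q x) (q y)) := by
      constructor
      · intro x y hxy
        exact hc.inv _ _ ((QT_adj h ht hq).2 ⟨_, _, hxy, rfl, rfl⟩)
      · intro φ hφ n hn
        have hn4 : n = 4 := hn.unique (h.per φ hφ)
        subst hn4
        have hp : Per (fun i => q (φ i)) 4 := by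
          intro i j
          constructor
          · intro hij
            obtain ⟨k, hk⟩ := (hq.eq _ _).1 hij
            exact h.typ hφ (by rw [← hk, ht])
          · intro hij
            show q (φ i) = q (φ j)
            rw [(h.per φ hφ i j).2 hij]
        have := hc.face _ ⟨φ, hφ, rfl⟩ 4 hp
        rw [wrap4] at this ⊢
        exact this
    obtain ⟨f, hf⟩ := hs.2 _ _ hc'
    -- the defect
    have hρ : ∀ (k : K) (x y : V), f (k • x) * (f x)⁻¹ = f (k • y) * (f y)⁻¹ := by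
      intro k x y
      have hr := hs.1.preconnected x y
      rw [reachable_iff_reflTransGen] at hr
      induction hr with
      | refl => rfl
      | @tail b d _ hbd ih =>
        rw [ih]
        have e1 := hf b d hbd
        have e2 := hf _ _ (hA.adj k b d hbd)
        simp only [hqk] at e2
        rw [e1] at e2
        have e3 : f d = f b * ((f (k • b))⁻¹ * f (k • d)) := by
          rw [← e2]
          group
        rw [e3]
        group
    let ρ : K →* L := MonoidHom.mk' (fun k => f (k • o) * (f o)⁻¹) (by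
      intro k l
      show f ((k * l) • o) * (f o)⁻¹ = f (k • o) * (f o)⁻¹ * (f (l • o) * (f o)⁻¹)
      rw [hρ k o (l • o), mul_smul]
      group)
    have hρ1 : ∀ k : K, ρ k = 1 := by
      have : ρ.ker = ⊤ := by
        rw [eq_top_iff, ← hgen, Subgroup.closure_le]
        rintro k ⟨x, hx⟩
        show f (k • o) * (f o)⁻¹ = 1
        rw [hρ k o x, hx, mul_inv_cancel]
      intro k
      have hk : k ∈ ρ.ker := by rw [this]; exact Subgroup.mem_top k
      exact hk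
    have hfk : ∀ (k : K) (x : V), f (k • x) = f x := by
      intro k x
      have h1 : f (k • o) * (f o)⁻¹ = 1 := hρ1 k
      rw [hρ k o x] at h1
      exact mul_inv_eq_one.1 h1
    refine ⟨fun a => f (hq.surj a).choose, ?_⟩
    intro a b hab
    obtain ⟨x, y, h1, rfl, rfl⟩ := (QT_adj h ht hq).1 hab
    have key : ∀ x : V, f (hq.surj (q x)).choose = f x := by
      intro x
      obtain ⟨k, hk⟩ := (hq.eq _ _).1 (hq.surj (q x)).choose_spec
      rw [← hfk k, hk]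
    show c (q x) (q y) = (f (hq.surj (q x)).choose)⁻¹ * f (hq.surj (q y)).choose
    rw [key, key]
    exact hf x y h1

end

end Run7.h909.TT
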