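import Pool.Agent.Run7.h909.TT.Main

/-!
# Subdivision of trees, arbitrary actions on two trees
-/

set_option autoImplicit false

namespace Run7.h909.TT

open SimpleGraph Run7.h909.TD
open Pool.Agent.Y110.FJ (ClosedE)
open Pool.Agent.Y462.SS (Closed)
open Pool.Agent.R684.FP (FbC)

section

variable {V : Type} {T : SimpleGraph V}

/-- the subdivision of a graph -/
def sub (T : SimpleGraph V) : SimpleGraph (V ⊕ T.edgeSet) where
  Adj a b := (∃ x e, a = Sum.inl x ∧ b = Sum.inr e ∧ x ∈ e.1) ∨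
    ∃ x e, b = Sum.inl x ∧ a = Sum.inr e ∧ x ∈ e.1
  symm := ⟨fun _ _ h => h.symm⟩
  loopless := ⟨by
    rintro a (⟨x, e, h1, h2, -⟩ | ⟨x, e, h1, h2, -⟩)
    · exact Sum.inl_ne_inr (h1.symm.trans h2)
    · exact Sum.inl_ne_inr (h1.symm.trans h2)⟩

theorem sub_adj {x : V} {e : T.edgeSet} (h : x ∈ e.1) :
    (sub T).Adj (Sum.inl x) (Sum.inr e) := Or.inl ⟨x, e, rfl, rfl, h⟩

theorem sub_adj_inl {x : V} {b : V ⊕ T.edgeSet} (h : (sub T).Adj (Sum.inl x) b) :
    ∃ e : T.edgeSet, b = Sum.inr e ∧ x ∈ e.1 := by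
  rcases h with ⟨y, e, h1, h2, h3⟩ | ⟨y, e, h1, h2, h3⟩
  · cases h1
    exact ⟨e, h2, h3⟩
  · exact absurd h2 Sum.inl_ne_inr

theorem sub_adj_inr {e : T.edgeSet} {b : V ⊕ T.edgeSet} (h : (sub T).Adj (Sum.inr e) b) :
    ∃ x : V, b = Sum.inl x ∧ x ∈ e.1 := by
  rcases h with ⟨y, e', h1, h2, h3⟩ | ⟨y, e', h1, h2, h3⟩
  · exact absurd h1.symm Sum.inl_ne_inr
  · cases h2
    exact ⟨y, h1, h3⟩

/-- the two ends of an edge -/
theorem ends {e : T.edgeSet} {x y : V} (hx : x ∈ e.1) (hy : y ∈ e.1) : x = y ∨ T.Adj x y := by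
  by_cases h : x = y
  · exact Or.inl h
  · right
    have h1 : e.1 = s(x, y) := (Sym2.mem_and_mem_iff h).1 ⟨hx, hy⟩
    have h2 := e.2
    rw [h1] at h2
    exact h2

theorem ends_eq {e : T.edgeSet} {x y : V} (hx : x ∈ e.1) (hy : y ∈ e.1) (h : x ≠ y) :
    e.1 = s(x, y) := (Sym2.mem_and_mem_iff h).1 ⟨hx, hy⟩

theorem exists_end (e : T.edgeSet) : ∃ x : V, x ∈ e.1 := by
  obtain ⟨e, he⟩ := e
  induction e using Sym2.ind with
  | _ x y => exact ⟨x, Sym2.mem_mk_left x y⟩

theorem sub_tree (hT : T.IsTree) : (sub T).IsTree := by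
  classical
  refine tree_of_coc ?_ ?_
  · obtain ⟨o⟩ := hT.connected.nonempty
    have hne : Nonempty (V ⊕ T.edgeSet) := ⟨Sum.inl o⟩
    have h1 : ∀ x : V, (sub T).Reachable (Sum.inl o) (Sum.inl x) := by
      intro x
      have hr := hT.connected.preconnected o x
      rw [reachable_iff_reflTransGen] at hr
      induction hr with
      | refl => exact Reachable.refl _
      | @tail b d _ hbd ih =>
        have a1 : (sub T).Adj (Sum.inl b) (Sum.inr ⟨s(b, d), hbd⟩) :=
          sub_adj (Sym2.mem_mk_left b d)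
        have a2 : (sub T).Adj (Sum.inl d) (Sum.inr ⟨s(b, d), hbd⟩) :=
          sub_adj (Sym2.mem_mk_right b d)
        exact (ih.trans a1.reachable).trans a2.symm.reachable
    have h2 : ∀ a : V ⊕ T.edgeSet, (sub T).Reachable (Sum.inl o) a := by
      rintro (x | e)
      · exact h1 x
      · obtain ⟨x, hx⟩ := exists_end e
        exact (h1 x).trans (sub_adj hx).reachable
    exact ⟨fun a b => (h2 a).symm.trans (h2 b)⟩
  · intro c hc
    obtain ⟨o⟩ := hT.connected.nonempty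
    let c0 : V → V → Multiplicative ℤ := fun x y =>
      if h : T.Adj x y then c (Sum.inl x) (Sum.inr ⟨s(x, y), h⟩) *
        c (Sum.inr ⟨s(x, y), h⟩) (Sum.inl y) else 1
    have hc0 : ∀ (e : T.edgeSet) (x y : V), x ∈ e.1 → y ∈ e.1 → x ≠ y →
        c0 x y = c (Sum.inl x) (Sum.inr e) * c (Sum.inr e) (Sum.inl y) := by
      intro e x y hx hy hne
      have h1 := ends_eq hx hy hne
      have h2 : T.Adj x y := by
        have := e.2
        rw [h1] at this
        exact this
      have h3 : e = ⟨s(x, y), h2⟩ := Subtype.ext h1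
      show (if h : T.Adj x y then _ else _) = _
      rw [dif_pos h2, h3]
    have hinv : ∀ (e : T.edgeSet) (x : V), x ∈ e.1 →
        c (Sum.inl x) (Sum.inr e) * c (Sum.inr e) (Sum.inl x) = 1 := fun e x hx =>
      hc _ _ (sub_adj hx)
    have hci : ∀ x y, T.Adj x y → c0 x y * c0 y x = 1 := by
      intro x y hxy
      have m1 : x ∈ s(x, y) := Sym2.mem_mk_left x y
      have m2 : y ∈ s(x, y) := Sym2.mem_mk_right x y
      rw [hc0 ⟨s(x, y), hxy⟩ x y m1 m2 hxy.ne, hc0 ⟨s(x, y), hxy⟩ y x m2 m1 hxy.ne.symm]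
      have e1 := hinv ⟨s(x, y), hxy⟩ x m1
      have e2 := hinv ⟨s(x, y), hxy⟩ y m2
      have e3 : c (Sum.inr ⟨s(x, y), hxy⟩) (Sum.inl y) * c (Sum.inl y) (Sum.inr ⟨s(x, y), hxy⟩) =
          1 := by rw [mul_comm]; exact e2
      rw [mul_assoc, ← mul_assoc (c (Sum.inr ⟨s(x, y), hxy⟩) (Sum.inl y)), e3, one_mul]
      exact e1
    obtain ⟨g, -, hg⟩ := tree_sc hT c0 hci o
    choose ep hep using fun e : T.edgeSet => exists_end e
    refine ⟨fun a => Sum.elim g (fun e => g (ep e) * c (Sum.inl (ep e)) (Sum.inr e)) a, ?_⟩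
    have key : ∀ (x : V) (e : T.edgeSet), x ∈ e.1 →
        g (ep e) * c (Sum.inl (ep e)) (Sum.inr e) = g x * c (Sum.inl x) (Sum.inr e) := by
      intro x e hx
      rcases ends (hep e) hx with h | h
      · rw [h]
      · rw [hg _ _ h, hc0 e _ _ (hep e) hx h.ne, mul_assoc, mul_assoc]
        have e2 := hinv e x hx
        have e3 : c (Sum.inr e) (Sum.inl x) * c (Sum.inl x) (Sum.inr e) = 1 := by
          rw [mul_comm]; exact e2
        rw [e3, mul_one]
    rintro a b (⟨x, e, rfl, rfl, hx⟩ | ⟨x, e, rfl, rfl, hx⟩)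
    · show c (Sum.inl x) (Sum.inr e) = (g x)⁻¹ * (g (ep e) * c (Sum.inl (ep e)) (Sum.inr e))
      rw [key x e hx, inv_mul_cancel_left]
    · show c (Sum.inr e) (Sum.inl x) = (g (ep e) * c (Sum.inl (ep e)) (Sum.inr e))⁻¹ * g x
      rw [key x e hx, mul_inv_rev, inv_mul_cancel_right]
      exact eq_inv_of_mul_eq_one_right (hinv e x hx)

/-- the types of the vertices of the subdivision of a graph with two colours -/
def st (χ : V → Bool) (a : V ⊕ T.edgeSet) : Fin 3 :=
  Sum.elim (fun x => if χ x = true then 1 else 0) (fun _ => 2) a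

theorem st_inl {χ : V → Bool} {x y : V} (h : st (T := T) χ (Sum.inl x) = st (T := T) χ (Sum.inl y)) :
    χ x = χ y := by
  simp only [st, Sum.elim_inl] at h
  cases h1 : χ x <;> cases h2 : χ y <;> simp_all

theorem sub_ty (hT : T.IsTree) {χ : V → Bool} (hχ : ∀ x y, T.Adj x y → χ x ≠ χ y) :
    Ty (sub T) (st χ) := by
  have key : ∀ (x : V) (e : T.edgeSet), x ∈ e.1 → ∀ x', (sub T).Adj (Sum.inr e) x' →
      st (T := T) χ x' = st (T := T) χ (Sum.inl x) → x' = Sum.inl x := by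
    intro x e hx x' hx' ht
    obtain ⟨y, rfl, hy⟩ := sub_adj_inr hx'
    have h1 := st_inl ht
    rcases ends hy hx with h | h
    · rw [h]
    · exact absurd h1 (hχ _ _ h)
  constructor
  · exact sub_tree hT
  · rintro a b (⟨x, e, rfl, rfl, hx⟩ | ⟨x, e, rfl, rfl, hx⟩)
    · simp only [st, Sum.elim_inl, Sum.elim_inr]
      split_ifs <;> decide
    · simp only [st, Sum.elim_inl, Sum.elim_inr]
      split_ifs <;> decide
  · rintro a b (⟨x, e, rfl, rfl, hx⟩ | ⟨x, e, rfl, rfl, hx⟩)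
    · exact Or.inr (key x e hx)
    · exact Or.inl (key x e hx)

/-- the action on the subdivision -/
@[reducible] def subAct {G : Type} [Group G] [MulAction G V]
    (a : ∀ (g : G) (x y : V), T.Adj x y → T.Adj (g • x) (g • y)) :
    MulAction G (V ⊕ T.edgeSet) where
  smul g z := Sum.map (fun x => g • x) (fun e : T.edgeSet => ⟨Sym2.map (fun x => g • x) e.1, by
    obtain ⟨e, he⟩ := e
    induction e using Sym2.ind with
    | _ x y =>
      rw [Sym2.map_mk]
      exact a g x y he⟩) z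
  one_smul z := by
    cases z with
    | inl x => exact congrArg Sum.inl (one_smul G x)
    | inr e =>
      refine congrArg Sum.inr (Subtype.ext ?_)
      show Sym2.map (fun x => (1 : G) • x) e.1 = e.1
      have : (fun x : V => (1 : G) • x) = id := funext fun x => one_smul G x
      rw [this, Sym2.map_id]
      rfl
  mul_smul g h z := by
    cases z with
    | inl x => exact congrArg Sum.inl (mul_smul g h x)
    | inr e =>
      refine congrArg Sum.inr (Subtype.ext ?_)
      show Sym2.map (fun x => (g * h) • x) e.1 =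
        Sym2.map (fun x => g • x) (Sym2.map (fun x => h • x) e.1)
      rw [Sym2.map_map]
      congr 1
      funext x
      exact mul_smul g h x

end

section

variable {V1 V2 : Type} {T1 : SimpleGraph V1} {T2 : SimpleGraph V2}

/-- elements preserving the colours and fixing a vertex of the subdivision fix a vertex -/
theorem fix_sub {G V : Type} [Group G] [MulAction G V] {T : SimpleGraph V}
    (a : ∀ (g : G) (x y : V), T.Adj x y → T.Adj (g • x) (g • y)) {χ : V → Bool}
    (hχ : ∀ x y, T.Adj x y → χ x ≠ χ y) (hg : ∀ (g : G) (x : V), χ (g • x) = χ x)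
    (z : V ⊕ T.edgeSet) : ∃ x : V, ∀ g : G, (subAct a).smul g z = z → g • x = x := by
  cases z with
  | inl x =>
    exact ⟨x, fun g h => Sum.inl_injective h⟩
  | inr e =>
    obtain ⟨x, hx⟩ := exists_end e
    refine ⟨x, fun g h => ?_⟩
    have h1 : Sym2.map (fun x => g • x) e.1 = e.1 := congrArg Subtype.val (Sum.inr_injective h)
    have h2 : g • x ∈ e.1 := by
      rw [← h1]
      exact Sym2.mem_map.2 ⟨x, hx, rfl⟩
    rcases ends h2 hx with h3 | h3
    · exact h3
    · exact absurd (hg g x) (hχ _ _ h3)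

theorem coloured {C : ∀ (G : Type) [Group G], Prop} (hC : ClosedE C) (hF : FbC C) (hcat : CatC C)
    {G : Type} [Group G] [MulAction G V1] [MulAction G V2] (h1 : T1.IsTree) (h2 : T2.IsTree)
    (a1 : ∀ (g : G) (x y : V1), T1.Adj x y → T1.Adj (g • x) (g • y))
    (a2 : ∀ (g : G) (x y : V2), T2.Adj x y → T2.Adj (g • x) (g • y))
    {χ1 : V1 → Bool} {χ2 : V2 → Bool}
    (c1 : ∀ x y, T1.Adj x y → χ1 x ≠ χ1 y) (c2 : ∀ x y, T2.Adj x y → χ2 x ≠ χ2 y)
    (t1 : ∀ (g : G) (x : V1), χ1 (g • x) = χ1 x) (t2 : ∀ (g : G) (x : V2), χ2 (g • x) = χ2 x)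
    (h : ∀ (x : V1) (y : V2), ∃ (P : Type) (_ : Group P) (f : G →* P), C P ∧
      ∀ g : G, g • x = x → g • y = y → f g = 1 → g = 1) : C G := by
  letI := subAct a1
  letI := subAct a2
  have hadj : ∀ {V : Type} [MulAction G V] {T : SimpleGraph V}
      (a : ∀ (g : G) (x y : V), T.Adj x y → T.Adj (g • x) (g • y)) (g : G)
      (z w : V ⊕ T.edgeSet), (sub T).Adj z w →
      (sub T).Adj ((subAct a).smul g z) ((subAct a).smul g w) := by
    intro V _ T a g z w hzw
    have key : ∀ (x : V) (e : T.edgeSet), x ∈ e.1 →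
        (sub T).Adj ((subAct a).smul g (Sum.inl x)) ((subAct a).smul g (Sum.inr e)) := by
      intro x e hx
      exact sub_adj (Sym2.mem_map.2 ⟨x, hx, rfl⟩)
    rcases hzw with ⟨x, e, rfl, rfl, hx⟩ | ⟨x, e, rfl, rfl, hx⟩
    · exact key x e hx
    · exact (key x e hx).symm
  refine typed (G := G) hC hF hcat (sub_ty h1 c1) (sub_ty h2 c2) (hadj a1) (hadj a2) ?_ ?_ ?_
  · rintro g (x | e)
    · show (if χ1 (g • x) = true then (1 : Fin 3) else 0) = if χ1 x = true then 1 else 0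
      rw [t1]
    · rfl
  · rintro g (x | e)
    · show (if χ2 (g • x) = true then (1 : Fin 3) else 0) = if χ2 x = true then 1 else 0
      rw [t2]
    · rfl
  · intro z w
    obtain ⟨x, hx⟩ := fix_sub a1 c1 t1 z
    obtain ⟨y, hy⟩ := fix_sub a2 c2 t2 w
    obtain ⟨P, _, f, hP, hf⟩ := h x y
    exact ⟨P, inferInstance, f, hP, fun g hg hg' => hf g (hx g hg) (hy g hg')⟩

/-- the colouring of a tree -/
theorem exists_col {V : Type} {T : SimpleGraph V} (hT : T.IsTree) :
    ∃ χ : V → Multiplicative (ZMod 2), ∀ x y, T.Adj x y → χ y = χ x * Multiplicative.ofAdd 1 := by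
  obtain ⟨o⟩ := hT.connected.nonempty
  obtain ⟨g, -, hg⟩ := tree_sc hT (fun _ _ => (Multiplicative.ofAdd (1 : ZMod 2)))
    (fun _ _ _ => by rw [← ofAdd_add]; rfl) o
  exact ⟨g, hg⟩

theorem exists_sign {G V : Type} [Group G] [MulAction G V] {T : SimpleGraph V} (hT : T.IsTree)
    (a : ∀ (g : G) (x y : V), T.Adj x y → T.Adj (g • x) (g • y)) :
    ∃ (χ : V → Bool) (ε : G →* Multiplicative (ZMod 2)), (∀ x y, T.Adj x y → χ x ≠ χ y) ∧
      ∀ g : G, ε g = 1 → ∀ x, χ (g • x) = χ x := by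
  classical
  obtain ⟨o⟩ := hT.connected.nonempty
  obtain ⟨χ, hχ⟩ := exists_col hT
  have hc : ∀ (g : G) (x y : V), (χ x)⁻¹ * χ (g • x) = (χ y)⁻¹ * χ (g • y) := by
    intro g x y
    have hr := hT.connected.preconnected x y
    rw [reachable_iff_reflTransGen] at hr
    induction hr with
    | refl => rfl
    | @tail b d _ hbd ih =>
      rw [ih, hχ _ _ hbd, hχ _ _ (a g _ _ hbd), mul_inv_rev]
      have : (χ b)⁻¹ * χ (g • b) = (Multiplicative.ofAdd (1 : ZMod 2))⁻¹ *
          ((χ b)⁻¹ * χ (g • b)) * Multiplicative.ofAdd 1 := by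
        rw [mul_comm (Multiplicative.ofAdd (1 : ZMod 2))⁻¹, inv_mul_cancel_right]
      rw [this]
      simp only [mul_assoc]
  refine ⟨fun x => decide (χ x = 1), MonoidHom.mk' (fun g => (χ o)⁻¹ * χ (g • o)) ?_, ?_, ?_⟩
  · intro g h
    show (χ o)⁻¹ * χ ((g * h) • o) = (χ o)⁻¹ * χ (g • o) * ((χ o)⁻¹ * χ (h • o))
    rw [hc g o (h • o), mul_smul, mul_comm ((χ (h • o))⁻¹ * _), mul_assoc, mul_inv_cancel_left]
  · intro x y hxy he
    have h1 := hχ x y hxy
    have key : ∀ m : Multiplicative (ZMod 2),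
        decide (m = 1) ≠ decide (m * Multiplicative.ofAdd (1 : ZMod 2) = 1) := by decide
    apply key (χ x)
    rw [← h1]
    exact he
  · intro g hg x
    have h1 : (χ o)⁻¹ * χ (g • o) = 1 := hg
    rw [hc g o x] at h1
    have h2 : χ (g • x) = χ x := (inv_mul_eq_one.1 h1).symm
    show decide (χ (g • x) = 1) = decide (χ x = 1)
    rw [h2]

/-- **arbitrary actions on two trees** -/
theorem two_trees {C : ∀ (G : Type) [Group G], Prop} (hC : ClosedE C) (hF : FbC C) (hcat : CatC C)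
    {G : Type} [Group G] [MulAction G V1] [MulAction G V2] (h1 : T1.IsTree) (h2 : T2.IsTree)
    (a1 : ∀ (g : G) (x y : V1), T1.Adj x y → T1.Adj (g • x) (g • y))
    (a2 : ∀ (g : G) (x y : V2), T2.Adj x y → T2.Adj (g • x) (g • y))
    (h : ∀ (x : V1) (y : V2), ∃ (P : Type) (_ : Group P) (f : G →* P), C P ∧
      ∀ g : G, g • x = x → g • y = y → f g = 1 → g = 1) : C G := by
  classical
  obtain ⟨χ1, ε1, c1, e1⟩ := exists_sign h1 a1
  obtain ⟨χ2, ε2, c2, e2⟩ := exists_sign h2 a2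
  let ε : G →* Multiplicative (ZMod 2) × Multiplicative (ZMod 2) := ε1.prod ε2
  have hfin : Finite (G ⧸ ε.ker) :=
    Finite.of_injective (QuotientGroup.kerLift ε) (QuotientGroup.kerLift_injective ε)
  have hfi : ε.ker.FiniteIndex := Subgroup.finiteIndex_of_finite_quotient
  refine hC.base.finiteIndex G ε.ker hfi ?_
  refine coloured (G := ε.ker) hC hF hcat h1 h2 (fun g x y => a1 g x y) (fun g x y => a2 g x y)
    c1 c2 (fun g x => e1 g (congrArg Prod.fst g.2) x) (fun g x => e2 g (congrArg Prod.snd g.2) x) ?_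
  intro x y
  obtain ⟨P, _, f, hP, hf⟩ := h x y
  exact ⟨P, inferInstance, f.comp ε.ker.subtype, hP, fun g hg hg' h3 =>
    Subtype.ext (hf g hg hg' h3)⟩

end

end Run7.h909.TT
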