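import Pool.Agent.Run7.h909.TT.Quot

/-!
# An invariant tree in a square complex
-/

set_option autoImplicit false

namespace Run7.h909.TT

open SimpleGraph Run7.h909.TD
open Pool.Agent.H386R3.CC

/-- a graph whose integral cocycles are coboundaries is a tree -/
theorem tree_of_coc {V : Type} {S : SimpleGraph V} (hS : S.Connected)
    (h : ∀ c : V → V → Multiplicative ℤ, (∀ x y, S.Adj x y → c x y * c y x = 1) →
      ∃ f : V → Multiplicative ℤ, ∀ x y, S.Adj x y → c x y = (f x)⁻¹ * f y) : S.IsTree := by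
  classical
  refine ⟨hS, ?_⟩
  rw [isAcyclic_iff_forall_adj_isBridge]
  intro u v huv
  rw [isBridge_iff]
  intro hr
  obtain ⟨f, hf⟩ := h (fun x y => if x = u ∧ y = v then Multiplicative.ofAdd 1 else
    if x = v ∧ y = u then Multiplicative.ofAdd (-1) else 1) (by
    intro x y hxy
    have hne := huv.ne
    by_cases h1 : x = u ∧ y = v
    · obtain ⟨rfl, rfl⟩ := h1
      have h2 : ¬ (y = x ∧ x = y) := fun h => hne h.2
      simp only [and_self, if_true, h2, if_false]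
      rw [← ofAdd_add]
      simp
    · by_cases h2 : x = v ∧ y = u
      · obtain ⟨rfl, rfl⟩ := h2
        have h3 : ¬ (x = y ∧ y = x) := fun h => hne h.2
        simp only [and_self, if_true, h3, if_false]
        rw [← ofAdd_add]
        simp
      · have h3 : ¬ (y = u ∧ x = v) := fun h => h2 ⟨h.2, h.1⟩
        have h4 : ¬ (y = v ∧ x = u) := fun h => h1 ⟨h.2, h.1⟩
        simp only [h1, h2, h3, h4, if_false, mul_one])
  have hfe' : ∀ w, Relation.ReflTransGen (S.deleteEdges {s(u, v)}).Adj u w → f u = f w := by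
    intro w hw
    induction hw with
    | refl => rfl
    | @tail b d _ hbd ih =>
      rw [SimpleGraph.deleteEdges_adj] at hbd
      obtain ⟨hbd, hne⟩ := hbd
      have h1 := hf b d hbd
      have h2 : ¬ (b = u ∧ d = v) := fun h => hne (by rw [h.1, h.2]; simp)
      have h3 : ¬ (b = v ∧ d = u) := fun h => hne (by rw [h.1, h.2]; simp [Sym2.eq_swap])
      simp only [h2, h3, if_false] at h1
      rw [ih]
      exact inv_mul_eq_one.1 h1.symm
  have hfe : f u = f v := hfe' v ((reachable_iff_reflTransGen _ _).1 hr)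
  have h1 := hf u v huv
  simp only [and_self, if_true] at h1
  rw [hfe, inv_mul_cancel] at h1
  have := congrArg Multiplicative.toAdd h1
  simp at this

section

variable {K V W Θ : Type} [Group K] [MulAction K V] {T : SimpleGraph V} {F : Set (ℤ → V)}
  {τ : V → Θ} {δ : Θ → Θ → Bool} {q : V → W} {τ' : W → Θ}

/-- `b` is a neighbour of `a` closer to the base -/
def Dn (C : CatS W) (o a b : W) : Prop := C.adj a b ∧ dd C b o + 1 = dd C a o

/-- the edge has a nontrivial stabilizer -/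
def Pref (K : Type) [Group K] {V W : Type} [MulAction K V] (T : SimpleGraph V) (q : V → W)
    (a b : W) : Prop :=
  ∃ x y, T.Adj x y ∧ q x = a ∧ q y = b ∧ ∃ k : K, k ≠ 1 ∧ k • x = x ∧ k • y = y

open Classical in
/-- the preferred neighbour closer to the base -/
noncomputable def par (K : Type) [Group K] {V W : Type} [MulAction K V] (T : SimpleGraph V)
    (q : V → W) (C : CatS W) (o a : W) : W :=
  if h : ∃ b, Dn C o a b ∧ Pref K T q a b then h.choose else
    if h : ∃ b, Dn C o a b then h.choose else a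

theorem par_dn {C : CatS W} {o a b : W} (hb : Dn C o a b) : Dn C o a (par K T q C o a) := by
  unfold par
  split_ifs with h1 h2
  · exact h1.choose_spec.1
  · exact h2.choose_spec
  · exact absurd ⟨b, hb⟩ h2

theorem par_pref {C : CatS W} {o a b : W} (hb : Dn C o a b) (hp : Pref K T q a b) :
    Pref K T q a (par K T q C o a) := by
  unfold par
  have h1 : ∃ b, Dn C o a b ∧ Pref K T q a b := ⟨b, hb, hp⟩
  rw [dif_pos h1]
  exact h1.choose_spec.2

/-- the tree -/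
def Tr (K : Type) [Group K] {V W : Type} [MulAction K V] (T : SimpleGraph V) (q : V → W)
    (C : CatS W) (o : W) : SimpleGraph V where
  Adj x y := T.Adj x y ∧ ((q y = par K T q C o (q x) ∧ dd C (q y) o + 1 = dd C (q x) o) ∨
    (q x = par K T q C o (q y) ∧ dd C (q x) o + 1 = dd C (q y) o))
  symm := ⟨fun _ _ h => ⟨h.1.symm, h.2.symm⟩⟩
  loopless := ⟨fun _ h => T.loopless.irrefl _ h.1⟩

/-- the data for the construction of the tree -/
structure Dat (K : Type) [Group K] {V W Θ : Type} [MulAction K V] (T : SimpleGraph V)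
    (F : Set (ℤ → V)) (τ : V → Θ) (δ : Θ → Θ → Bool) (q : V → W) (τ' : W → Θ) : Prop where
  vh : VH T F τ δ
  ac : Ac K T F
  ht : ∀ (k : K) (x : V), τ (k • x) = τ x
  hq : Orb K q
  cor : Cor K F
  vh' : VH (QT T q) (QF F q) τ' δ
  sc' : SC (QT T q) (QF F q)
  fx : ∀ x y, T.Adj x y → (∃ k : K, k ≠ 1 ∧ k • x = x ∧ k • y = y) → ∀ z : K, z • x = x → z • y = y

theorem Dat.qk (D : Dat K T F τ δ q τ') (k : K) (x : V) : q (k • x) = q x :=
  ((D.hq.eq _ _).2 ⟨k, rfl⟩).symm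

/-- the theory of flips in the quotient -/
noncomputable def Dat.C (D : Dat K T F τ δ q τ') : CatS W := D.vh'.cat D.sc'

theorem Dat.adjq (D : Dat K T F τ δ q τ') {x y : V} (h : T.Adj x y) : D.C.adj (q x) (q y) :=
  (QT_adj D.vh D.ht D.hq).2 ⟨x, y, h, rfl, rfl⟩

theorem Dat.sqq (D : Dat K T F τ δ q τ') {x y z w : V} (h : Sq F x y z w) :
    D.C.sq (q x) (q y) (q z) (q w) := by
  obtain ⟨φ, hφ, rfl, rfl, rfl, rfl⟩ := h
  exact ⟨_, ⟨φ, hφ, rfl⟩, rfl, rfl, rfl, rfl⟩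

theorem Dat.sqdir (D : Dat K T F τ δ q τ') {a b c d : W} (h : D.C.sq a b c d) :
    δ (τ' a) (τ' b) ≠ δ (τ' a) (τ' d) := D.vh'.sq_dir h

/-- the completion of a square -/
theorem Dat.compl (D : Dat K T F τ δ q τ') {o : W} {x w : V} (hxw : T.Adj x w)
    (hl : dd D.C (q w) o + 1 = dd D.C (q x) o) (hp : q w ≠ par K T q D.C o (q x)) :
    ∃ u z, Sq F x u z w ∧ q u = par K T q D.C o (q x) ∧ dd D.C (q z) o + 1 = dd D.C (q u) o ∧
      dd D.C (q u) o = dd D.C (q w) o := by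
  have hD : Dn D.C o (q x) (q w) := ⟨D.adjq hxw, hl⟩
  obtain ⟨h1, h2⟩ := par_dn (K := K) (T := T) (q := q) hD
  obtain ⟨z', hs, hz⟩ := quad h1 (D.adjq hxw) (fun e => hp e.symm) h2 hl
  obtain ⟨_, ⟨φ, hφ, rfl⟩, e0, e1, e2, e3⟩ := hs
  obtain ⟨k, hk⟩ := (D.hq.eq _ _).1 e0
  have hadj : ∀ χ ∈ F, T.Adj (χ 0) (χ 3) := by
    intro χ hχ
    have b2 := (D.vh.adj χ hχ 3).symm
    have : (3 : ℤ) + 1 = 4 := by norm_num
    rw [this, D.vh.e4 hχ] at b2
    exact b2
  obtain ⟨φ1, hφ1, f1⟩ : ∃ φ1, φ1 ∈ F ∧ φ1 = fun i => k • φ i := ⟨_, D.ac.face k φ hφ, rfl⟩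
  have q1 : ∀ i, q (φ1 i) = q (φ i) := fun i => by rw [f1]; exact D.qk _ _
  have a0 : φ1 0 = x := by rw [f1]; exact hk
  obtain ⟨k2, hk2⟩ := (D.hq.eq (φ1 3) w).1 (by rw [q1]; exact e3)
  obtain ⟨y, hy1, hy2⟩ := nbr_orb (k := k2) D.vh D.ac D.ht (hadj φ1 hφ1) (by
    rw [hk2, a0]; exact hxw)
  have q2 : ∀ i, q (y • φ1 i) = q (φ i) := fun i => (D.qk _ _).trans (q1 i)
  refine ⟨y • φ1 1, y • φ1 2, ⟨_, D.ac.face y φ1 hφ1, ?_, rfl, rfl, ?_⟩, ?_, ?_, ?_⟩
  · show y • φ1 0 = x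
    rw [hy1, a0]
  · show y • φ1 3 = w
    rw [hy2, hk2]
  · rw [q2]; exact e1
  · have e1' : q (φ 1) = par K T q D.C o (q x) := e1
    have e2' : q (φ 2) = z' := e2
    rw [q2, q2, e1', e2']
    exact hz
  · have e1' : q (φ 1) = par K T q D.C o (q x) := e1
    rw [q2, e1']
    omega

/-- the uniqueness of the completion -/
theorem Dat.uniq (D : Dat K T F τ δ q τ') {o : W} {x w y z y1 z1 : V}
    (hl : dd D.C (q w) o + 1 = dd D.C (q x) o)
    (h1 : Sq F x y z w) (hy : q y = par K T q D.C o (q x))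
    (h2 : Sq F x y1 z1 w) (hy1 : q y1 = par K T q D.C o (q x)) : y = y1 ∧ z = z1 := by
  have hxy : T.Adj x y := D.vh.sq_adj h1
  have hxy1 : T.Adj x y1 := D.vh.sq_adj h2
  have hxw : T.Adj x w := (D.vh.sq_adj (D.vh.sq_rot (D.vh.sq_rot (D.vh.sq_rot h1)))).symm
  have key : y = y1 := by
    obtain ⟨k, hk⟩ := (D.hq.eq y y1).1 (hy.trans hy1.symm)
    obtain ⟨z0, hz1, hz2⟩ := nbr_orb (k := k) D.vh D.ac D.ht hxy (by rw [hk]; exact hxy1)
    obtain ⟨φ, hφ, a0, a1, -, a3⟩ := SqS.tr (S := D.vh.sqs) h1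
    obtain ⟨ψ, hψ, b0, b1, -, b3⟩ := SqS.tr (S := D.vh.sqs) h2
    obtain ⟨z', w0, w1, w2⟩ := D.cor φ hφ ψ hψ z0 (a0.trans b0.symm) (a1.trans b1.symm)
      (by rw [a0, hz1]) (by rw [D.vh.m1 hφ, D.vh.m1 hψ, a3, b3, hz2, hk])
    rw [a0] at w0
    rw [a1] at w1
    rw [D.vh.m1 hφ, D.vh.m1 hψ, a3, b3] at w2
    by_cases hz' : z' = 1
    · rw [← w2, hz', one_smul]
    · have hpr : Pref K T q (q x) (q w) := ⟨x, w, hxw, rfl, rfl, z', hz', w0, w1⟩
      obtain ⟨x1, y2, c1, c2, c3, k3, hk3, c4, c5⟩ := par_pref (C := D.C) (o := o)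
        ⟨D.adjq hxw, hl⟩ hpr
      obtain ⟨k4, hk4⟩ := (D.hq.eq _ _).1 c2
      have c6 := D.ac.adj k4 _ _ c1
      rw [hk4] at c6
      obtain ⟨k5, hk5⟩ := (D.hq.eq (k4 • y2) y).1 (by rw [D.qk, c3, hy])
      obtain ⟨z5, d1, d2⟩ := nbr_orb (k := k5) D.vh D.ac D.ht c6 (by rw [hk5]; exact hxy)
      rw [hk5] at d2
      have e1 : (z5 * k4) • x1 = x := by rw [mul_smul, hk4, d1]
      have e2 : (z5 * k4) • y2 = y := by rw [mul_smul, d2]
      have e3 := D.fx x y hxy ⟨(z5 * k4) * k3 * (z5 * k4)⁻¹, by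
          intro he
          apply hk3
          have : (z5 * k4) * k3 = z5 * k4 := mul_inv_eq_one.1 he
          exact mul_eq_left.1 this, by
          rw [mul_smul, mul_smul]
          have : (z5 * k4)⁻¹ • x = x1 := by rw [← e1, inv_smul_smul]
          rw [this, c4, e1], by
          rw [mul_smul, mul_smul]
          have : (z5 * k4)⁻¹ • y = y2 := by rw [← e2, inv_smul_smul]
          rw [this, c5, e2]⟩ z' w0
      rw [← w2, e3]
  refine ⟨key, ?_⟩
  subst key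
  exact D.vh.sq_uniq h1 h2

/-- two different lower neighbours: one is the preferred one -/
theorem Dat.two (D : Dat K T F τ δ q τ') {o a b c : W} (hb : Dn D.C o a b) (hc : Dn D.C o a c)
    (hne : b ≠ c) : b = par K T q D.C o a ∨ c = par K T q D.C o a := by
  by_contra hcon
  push Not at hcon
  obtain ⟨h1, h2⟩ := hcon
  have hp := par_dn (K := K) (T := T) (q := q) hb
  obtain ⟨_, s1, -⟩ := quad hb.1 hc.1 hne hb.2 hc.2
  obtain ⟨_, s2, -⟩ := quad hb.1 hp.1 h1 hb.2 hp.2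
  obtain ⟨_, s3, -⟩ := quad hc.1 hp.1 h2 hc.2 hp.2
  exact bool3 (D.sqdir s1) (D.sqdir s3) (D.sqdir s2)

/-- the levels of adjacent vertices -/
theorem Dat.lev (D : Dat K T F τ δ q τ') (o : W) {x y : V} (h : T.Adj x y) :
    dd D.C (q x) o = dd D.C (q y) o + 1 ∨ dd D.C (q y) o = dd D.C (q x) o + 1 :=
  dd_adj o (D.adjq h)

/-- the levels of the vertices of a square below its top -/
theorem Dat.sqlev (D : Dat K T F τ δ q τ') (o : W) {x y z w : V} (h : Sq F x y z w)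
    (h1 : dd D.C (q y) o + 1 = dd D.C (q x) o) (h2 : dd D.C (q w) o + 1 = dd D.C (q x) o) :
    dd D.C (q z) o + 1 = dd D.C (q y) o := by
  have hs := D.sqq h
  have hxw : T.Adj x w := (D.vh.sq_adj (D.vh.sq_rot (D.vh.sq_rot (D.vh.sq_rot h)))).symm
  obtain ⟨z', hz, hd⟩ := quad (D.adjq (D.vh.sq_adj h)) (D.adjq hxw) (SqS.ne' hs) h1 h2
  rw [D.C.uniq hs hz]
  exact hd

theorem Dat.conn (D : Dat K T F τ δ q τ') (hT : T.Connected) (o : W) :
    (Tr K T q D.C o).Connected := by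
  have key : ∀ n : ℕ, ∀ x y : V, T.Adj x y → dd D.C (q x) o = n → dd D.C (q y) o + 1 = n →
      (Tr K T q D.C o).Reachable x y := by
    intro n
    induction n using Nat.strong_induction_on with
    | _ n IH =>
      intro x y hxy hx hy
      by_cases hp : q y = par K T q D.C o (q x)
      · exact Adj.reachable ⟨hxy, Or.inl ⟨hp, by omega⟩⟩
      · obtain ⟨u, z, h1, h2, h3, h4⟩ := D.compl hxy (by omega) hp
        have a1 : (Tr K T q D.C o).Adj x u := ⟨D.vh.sq_adj h1, Or.inl ⟨h2, by omega⟩⟩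
        have a2 := IH (dd D.C (q u) o) (by omega) u z (D.vh.sq_adj (D.vh.sq_rot h1)) rfl h3
        have a3 := IH (dd D.C (q y) o) (by omega) y z
          (D.vh.sq_adj (D.vh.sq_rot (D.vh.sq_rot h1))).symm rfl (by omega)
        exact (a1.reachable.trans a2).trans a3.symm
  have hne := hT.nonempty
  refine ⟨fun x y => ?_⟩
  have hr := hT.preconnected x y
  rw [reachable_iff_reflTransGen] at hr
  induction hr with
  | refl => exact Reachable.refl _
  | @tail b d _ hbd ih =>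
    rcases D.lev o hbd with h1 | h1
    · exact ih.trans (key _ b d hbd rfl (by omega))
    · exact ih.trans (key _ d b hbd.symm rfl (by omega)).symm

/-! ### the extension of a cocycle -/

open Classical in
/-- the values of the extension on the edges going down -/
noncomputable def Ex (K : Type) [Group K] {V W L : Type} [MulAction K V] [Group L]
    (T : SimpleGraph V) (F : Set (ℤ → V)) (q : V → W) (C : CatS W) (o : W) (c : V → V → L) :
    ℕ → V → V → L
  | 0, _, _ => 1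
  | n + 1, x, y => if q y = par K T q C o (q x) then c x y else
    if h : ∃ u z, Sq F x u z y ∧ q u = par K T q C o (q x) then
      c x h.choose * Ex K T F q C o c n h.choose h.choose_spec.choose *
        (Ex K T F q C o c n y h.choose_spec.choose)⁻¹ else 1

open Classical in
/-- the extension -/
noncomputable def Ce (K : Type) [Group K] {V W L : Type} [MulAction K V] [Group L]
    (T : SimpleGraph V) (F : Set (ℤ → V)) (q : V → W) (C : CatS W) (o : W) (c : V → V → L)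
    (x y : V) : L :=
  if dd C (q y) o < dd C (q x) o then Ex K T F q C o c (dd C (q x) o) x y else
    (Ex K T F q C o c (dd C (q y) o) y x)⁻¹

theorem Dat.Ex_par {L : Type} [Group L] (D : Dat K T F τ δ q τ') {o : W} {c : V → V → L} {x y : V}
    (n : ℕ) (h : q y = par K T q D.C o (q x)) : Ex K T F q D.C o c (n + 1) x y = c x y := by
  rw [Ex, if_pos h]

theorem Dat.Ex_sq {L : Type} [Group L] (D : Dat K T F τ δ q τ') {o : W} {c : V → V → L}
    {x y z w : V} (n : ℕ) (h : Sq F x y z w) (hl : dd D.C (q w) o + 1 = dd D.C (q x) o)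
    (hy : q y = par K T q D.C o (q x)) :
    Ex K T F q D.C o c (n + 1) x w =
      c x y * Ex K T F q D.C o c n y z * (Ex K T F q D.C o c n w z)⁻¹ := by
  have hne : q w ≠ par K T q D.C o (q x) := by
    rw [← hy]
    exact fun e => SqS.ne' (D.sqq h) e.symm
  have hex : ∃ u z, Sq F x u z w ∧ q u = par K T q D.C o (q x) := ⟨y, z, h, hy⟩
  rw [Ex, if_neg hne, dif_pos hex]
  obtain ⟨h1, h2⟩ := D.uniq hl h hy hex.choose_spec.choose_spec.1 hex.choose_spec.choose_spec.2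
  rw [← h2, ← h1]

theorem Dat.Ce_down {L : Type} [Group L] (D : Dat K T F τ δ q τ') {o : W} {c : V → V → L} {x y : V}
    (h : dd D.C (q y) o + 1 = dd D.C (q x) o) :
    Ce K T F q D.C o c x y = Ex K T F q D.C o c (dd D.C (q y) o + 1) x y := by
  rw [Ce, if_pos (by omega), h]

theorem Dat.Ce_up {L : Type} [Group L] (D : Dat K T F τ δ q τ') {o : W} {c : V → V → L} {x y : V}
    (h : dd D.C (q x) o + 1 = dd D.C (q y) o) :
    Ce K T F q D.C o c x y = (Ex K T F q D.C o c (dd D.C (q x) o + 1) y x)⁻¹ := by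
  rw [Ce, if_neg (by omega), h]

theorem Dat.Ce_inv {L : Type} [Group L] (D : Dat K T F τ δ q τ') {o : W} {c : V → V → L} {x y : V}
    (h : T.Adj x y) : Ce K T F q D.C o c x y * Ce K T F q D.C o c y x = 1 := by
  rcases D.lev o h with h1 | h1
  · rw [D.Ce_down h1.symm, D.Ce_up h1.symm, mul_inv_cancel]
  · rw [D.Ce_down h1.symm, D.Ce_up h1.symm, inv_mul_cancel]

theorem Dat.Ce_tr {L : Type} [Group L] (D : Dat K T F τ δ q τ') {o : W} {c : V → V → L}
    (hc : ∀ x y, (Tr K T q D.C o).Adj x y → c x y * c y x = 1) {x y : V}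
    (h : (Tr K T q D.C o).Adj x y) : Ce K T F q D.C o c x y = c x y := by
  rcases h.2 with ⟨h1, h2⟩ | ⟨h1, h2⟩
  · rw [D.Ce_down h2, D.Ex_par _ h1]
  · rw [D.Ce_up h2, D.Ex_par _ h1]
    exact inv_eq_of_mul_eq_one_left (hc x y h)

/-- the relation of a square at its top -/
theorem Dat.Ce_top {L : Type} [Group L] (D : Dat K T F τ δ q τ') {o : W} {c : V → V → L}
    {x y z w : V} (h : Sq F x y z w) (h1 : dd D.C (q y) o + 1 = dd D.C (q x) o)
    (h2 : dd D.C (q w) o + 1 = dd D.C (q x) o) :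
    Ce K T F q D.C o c x y * Ce K T F q D.C o c y z * Ce K T F q D.C o c z w *
      Ce K T F q D.C o c w x = 1 := by
  have h3 := D.sqlev o h h1 h2
  have h4 : dd D.C (q z) o + 1 = dd D.C (q w) o := by omega
  have hxw : T.Adj x w := (D.vh.sq_adj (D.vh.sq_rot (D.vh.sq_rot (D.vh.sq_rot h)))).symm
  have e1 : dd D.C (q y) o = dd D.C (q z) o + 1 := by omega
  have e2 : dd D.C (q w) o = dd D.C (q z) o + 1 := by omega
  rw [D.Ce_down h1, D.Ce_down h3, D.Ce_up h4, D.Ce_up h2, e1, e2]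
  rcases D.two ⟨D.adjq (D.vh.sq_adj h), h1⟩ ⟨D.adjq hxw, h2⟩ (SqS.ne' (D.sqq h)) with hp | hp
  · rw [D.Ex_par _ hp, D.Ex_sq _ h h2 hp]
    group
  · rw [D.Ex_par (x := x) (y := w) _ hp, D.Ex_sq _ (SqS.tr (S := D.vh.sqs) h) h1 hp]
    group

theorem Dat.Ce_coc {L : Type} [Group L] (D : Dat K T F τ δ q τ') {o : W} {c : V → V → L} :
    Coc T F (Ce K T F q D.C o c) := by
  refine ⟨fun x y h => D.Ce_inv h, ?_⟩
  intro φ hφ n hn
  have hn4 : n = 4 := hn.unique (D.vh.per φ hφ)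
  subst hn4
  rw [wrap4, D.vh.e4 hφ]
  have hs : Sq F (φ 0) (φ 1) (φ 2) (φ 3) := ⟨φ, hφ, rfl, rfl, rfl, rfl⟩
  have hs1 := D.vh.sq_rot hs
  have hs2 := D.vh.sq_rot hs1
  have hs3 := D.vh.sq_rot hs2
  have l0 := D.lev o (D.vh.sq_adj hs)
  have l1 := D.lev o (D.vh.sq_adj hs1)
  have l2 := D.lev o (D.vh.sq_adj hs2)
  have l3 := D.lev o (D.vh.sq_adj hs3)
  set g0 := Ce K T F q D.C o c (φ 0) (φ 1) with hg0
  set g1 := Ce K T F q D.C o c (φ 1) (φ 2) with hg1
  set g2 := Ce K T F q D.C o c (φ 2) (φ 3) with hg2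
  set g3 := Ce K T F q D.C o c (φ 3) (φ 0) with hg3
  have hcase : (dd D.C (q (φ 1)) o + 1 = dd D.C (q (φ 0)) o ∧
      dd D.C (q (φ 3)) o + 1 = dd D.C (q (φ 0)) o) ∨
    (dd D.C (q (φ 2)) o + 1 = dd D.C (q (φ 1)) o ∧
      dd D.C (q (φ 0)) o + 1 = dd D.C (q (φ 1)) o) ∨
    (dd D.C (q (φ 3)) o + 1 = dd D.C (q (φ 2)) o ∧
      dd D.C (q (φ 1)) o + 1 = dd D.C (q (φ 2)) o) ∨
    (dd D.C (q (φ 0)) o + 1 = dd D.C (q (φ 3)) o ∧
      dd D.C (q (φ 2)) o + 1 = dd D.C (q (φ 3)) o) := by omega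
  rcases hcase with ⟨a, b⟩ | ⟨a, b⟩ | ⟨a, b⟩ | ⟨a, b⟩
  · exact D.Ce_top hs a b
  · have h1 : g1 * g2 * g3 * g0 = 1 := D.Ce_top hs1 a b
    have h2 : g0 = (g1 * g2 * g3)⁻¹ := (inv_eq_of_mul_eq_one_right h1).symm
    rw [h2]
    group
  · have h1 : g2 * g3 * g0 * g1 = 1 := D.Ce_top hs2 a b
    have h2 : g1 = (g2 * g3 * g0)⁻¹ := (inv_eq_of_mul_eq_one_right h1).symm
    rw [h2]
    group
  · have h1 : g3 * g0 * g1 * g2 = 1 := D.Ce_top hs3 a b
    have h2 : g2 = (g3 * g0 * g1)⁻¹ := (inv_eq_of_mul_eq_one_right h1).symm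
    rw [h2]
    group

/-- **the invariant tree** -/
theorem Dat.tree (D : Dat K T F τ δ q τ') (hs : SC T F) (o : W) :
    (Tr K T q D.C o).IsTree := by
  refine tree_of_coc (D.conn hs.1 o) ?_
  intro c hc
  obtain ⟨f, hf⟩ := hs.2 _ _ (D.Ce_coc (o := o) (c := c))
  refine ⟨f, fun x y h => ?_⟩
  rw [← D.Ce_tr hc h]
  exact hf x y h.1

theorem Dat.tr_adj (D : Dat K T F τ δ q τ') (o : W) (k : K) {x y : V}
    (h : (Tr K T q D.C o).Adj x y) : (Tr K T q D.C o).Adj (k • x) (k • y) := by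
  refine ⟨D.ac.adj k _ _ h.1, ?_⟩
  rw [D.qk, D.qk]
  exact h.2

end

end Run7.h909.TT
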